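import Mathlib
import Pool.Agent.H373R2.T7.LamZ
import Pool.Agent.H560R3.GB.Defs

/-!
Primes in arithmetic progressions `c mod m` up to `λ m log m`, for almost all moduli `m` and most
residues `c` of a thin family: definitions and statements of the steps.
-/

set_option autoImplicit false

namespace Pool.Agent.W109.LT

open Finset Pool.Agent.H373R2.T7

/-- von Mangoldt minus its model -/
noncomputable def Ez (z n : ℕ) : ℝ := ArithmeticFunction.vonMangoldt n - lamz z n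

/-- STEP A: correlations of `Λ - Λ_z` along `c + k m`, `c + k' m`, on average over a family of
nearly minimal energy. -/
def S_A : Prop := ∀ h C U κ : ℕ, ∃ B0 : ℕ, ∀ E : ℕ, ∃ M0 : ℕ, ∀ M : ℕ, M0 ≤ M →
  ∀ (x : ℕ) (s : ℕ → ℕ), (∀ i ∈ Icc 1 x, s i ≤ M) →
  (Pool.Agent.H560R3.GB.energy h x s : ℝ) * M ≤ Real.log M ^ C * (x : ℝ) ^ (2 * h) →
  ∀ z : ℕ, Real.log M ^ B0 ≤ z → (z : ℝ) ≤ Real.log M ^ E →
  ∀ k k' : ℕ, 1 ≤ k → k < k' → (k' : ℝ) ≤ Real.log M ^ κ →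
  ∑ i ∈ Icc 1 x, |∑ m ∈ Ioc M (2 * M), Ez z (s i + k * m) * Ez z (s i + k' * m)| ≤
    M * x / Real.log M ^ U

/-- STEP D: the diagonal. -/
def S_D : Prop := ∃ Cd : ℝ, 0 < Cd ∧ ∀ E κ : ℕ, ∃ M0 : ℕ, ∀ M : ℕ, M0 ≤ M → ∀ z : ℕ,
  Real.log M ^ κ ≤ z → (z : ℝ) ≤ Real.log M ^ E → ∀ c : ℕ, c ≤ M → ∀ K : ℕ,
  (K : ℝ) ≤ Real.log M ^ κ →
  ∑ k ∈ Icc 1 K, ∑ m ∈ Ioc M (2 * M), Ez z (c + k * m) ^ 2 ≤ Cd * (K * M * Real.log M)

/-- the sum of `1 / p` over the prime factors `p` of `c` with `log M < p ^ r`, `p ≤ (log M) ^ κ` -/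
noncomputable def TT (M r κ c : ℕ) : ℝ :=
  ∑ p ∈ c.primeFactors.filter (fun p : ℕ => Real.log M < (p : ℝ) ^ r ∧ (p : ℝ) ≤ Real.log M ^ κ),
    1 / (p : ℝ)

open Classical in
/-- STEP T: few members of a family of nearly minimal energy have many prime factors of medium
size. -/
def S_T : Prop := ∀ h C U κ r : ℕ, ∃ M0 : ℕ, ∀ M : ℕ, M0 ≤ M →
  ∀ (x : ℕ) (s : ℕ → ℕ), (∀ i ∈ Icc 1 x, 1 ≤ s i ∧ s i ≤ M) →
  (Pool.Agent.H560R3.GB.energy h x s : ℝ) * M ≤ Real.log M ^ C * (x : ℝ) ^ (2 * h) →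
  (((Icc 1 x).filter (fun i : ℕ => 1 / Real.log (Real.log M) ^ 3 < TT M r κ (s i))).card : ℝ) ≤
    x / Real.log M ^ U

open Classical in
/-- the `k ≤ K` for which `c + k m` has no prime factor `p ≤ y` -/
noncomputable def Kset (y c m K : ℕ) : Finset ℕ :=
  (Icc 1 K).filter (fun k => ∀ p ∈ pz y, ¬ p ∣ c + k * m)

open Classical in
/-- the `k ≤ K` for which `c + k m` has no prime factor `p ≤ y`, and no prime factor `p` with
`y < p ≤ z` which does not divide `c` -/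
noncomputable def Xset (y z c m K : ℕ) : Finset ℕ :=
  (Kset y c m K).filter (fun k => ∀ p ∈ pz z, y < p → ¬ p ∣ c → ¬ p ∣ c + k * m)

open Classical in
/-- the product of `1 - 1 / p` over the primes `y < p ≤ z` which do not divide `c` -/
noncomputable def V1 (y z c : ℕ) : ℝ :=
  ∏ p ∈ (pz z).filter (fun p => y < p ∧ ¬ p ∣ c), (1 - 1 / (p : ℝ))

/-- STEP K: the variance of the sifted counts. -/
def S_K : Prop := ∀ κ E r : ℕ, ∃ Ck : ℝ, 0 < Ck ∧ ∃ M0 : ℕ, ∀ M : ℕ, M0 ≤ M → ∀ y z K c : ℕ,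
  1 ≤ y → Real.log M ≤ ((y : ℝ) + 1) ^ r → y ≤ z → (z : ℝ) ≤ Real.log M ^ E →
  (K : ℝ) ≤ Real.log M ^ κ →
  ∑ m ∈ Ioc M (2 * M), (((Xset y z c m K).card : ℝ) - V1 y z c * ((Kset y c m K).card : ℝ)) ^ 2 ≤
    Ck * M * ((K : ℝ) ^ 2 / y + K)

end Pool.Agent.W109.LT
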