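import Mathlib
import Pool.Agent.W109.LT.Defs
import Pool.Agent.H373R2.T7.SupE2
import Pool.Agent.H373R2.T7.BilE
import Pool.Agent.H373R2.T7.LamZ2

/-! STEP A, first part: the bilinear estimate and the window sums. -/

set_option autoImplicit false

namespace Pool.Agent.W109.LT

open Finset Pool.Agent.H373R2.T7
open Pool.Agent.H807R2.Dav

/-- the dilated function -/
noncomputable def fk (z k l : ℕ) : ℂ := if k ∣ l then ((Ez z (l / k) : ℝ) : ℂ) else 0

lemma fk_sum (z k : ℕ) (hk : 1 ≤ k) (H : ℕ) (α : ℝ) :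
    ∑ n ∈ Icc 1 H, fk z k n * ee ((n : ℝ) * α) =
      ∑ m ∈ Icc 1 (H / k), ((Ez z m : ℝ) : ℂ) * ee ((m : ℝ) * (k * α)) := by
  have h1 : ∑ n ∈ Icc 1 H, fk z k n * ee ((n : ℝ) * α) =
      ∑ n ∈ (Icc 1 H).filter (fun n => k ∣ n), ((Ez z (n / k) : ℝ) : ℂ) * ee ((n : ℝ) * α) := by
    rw [sum_filter]
    apply sum_congr rfl
    intro n _
    unfold fk
    split_ifs <;> simp
  rw [h1, sum_mult H k hk]
  apply sum_congr rfl
  intro m _
  rw [Nat.mul_div_cancel_left _ (by omega)]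
  congr 2
  push_cast
  ring

lemma energy_dil (h x : ℕ) (s : ℕ → ℕ) (d : ℤ) (hd : d ≠ 0) :
    Pool.Agent.H373R2.T7.energy h x (fun m => d * (s m : ℤ)) =
      Pool.Agent.H560R3.GB.energy h x s := by
  unfold Pool.Agent.H560R3.GB.energy Pool.Agent.H373R2.T7.energy
  congr 1
  apply filter_congr
  intro q _
  simp only [← mul_sum]
  constructor
  · intro h
    have := mul_left_cancel₀ hd h
    exact_mod_cast this
  · intro h
    congr 1
    exact_mod_cast h

lemma bil_gen {h M k k' x N1 z : ℕ} {s : ℕ → ℕ} {L2 δ η D : ℝ} (hM : 1 ≤ M) (hk : 1 ≤ k)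
    (hkk : k < k') (hN : N1 = k' * (2 * k + 1) * M) (hx : 1 ≤ x)
    (hs : ∀ i ∈ Icc 1 x, s i ≤ M)
    (hE : (Pool.Agent.H560R3.GB.energy h x s : ℝ) * M ≤ D * (x : ℝ) ^ (2 * h))
    (hsup : ∀ α : ℝ, ‖∑ n ∈ Icc 1 (N1 / k), ((Ez z n : ℝ) : ℂ) * ee ((n : ℝ) * α)‖ ≤ δ)
    (hb : ∀ n, 1 ≤ n → n ≤ N1 → |Ez z n| ≤ L2) (hL2 : 0 < L2) (hη : 0 < η)
    (G c : ℕ → ℂ) (hG : ∀ a, ‖G a‖ ≤ 1) (hc : ∀ i, ‖c i‖ ≤ 1) :
    ‖∑ a ∈ Icc 1 N1, ∑ i ∈ Icc 1 x, G a * c i *
      fz (fk z k) N1 ((a : ℤ) + (-((k' : ℤ) - k)) * (s i : ℤ))‖ ≤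
      ((4 * h + 5) * k' * (2 * k + 1) * D) / η ^ (2 * h) * δ * x + η * x * (L2 * N1) := by
  have hN1 : 1 ≤ N1 := by
    rw [hN]
    exact Nat.mul_pos (Nat.mul_pos (by omega) (by omega)) (by omega)
  have hkM : k' * M ≤ N1 := by
    rw [hN, mul_assoc]
    exact Nat.mul_le_mul_left _ (Nat.le_mul_of_pos_left _ (by omega))
  set Mm : ℕ := (4 * h + 5) * N1 with hMm
  have hM5 : 5 * N1 ≤ Mm := by
    rw [hMm]; exact Nat.mul_le_mul_right _ (by omega)
  have hN1r : (0 : ℝ) < N1 := by exact_mod_cast hN1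
  have hMr : (0 : ℝ) < M := by exact_mod_cast hM
  have hMm1 : 1 ≤ Mm := by omega
  have hMmr : (0 : ℝ) < Mm := by exact_mod_cast hMm1
  have hx0 : (0 : ℝ) < x := by exact_mod_cast hx
  have hF : ∀ i ∈ Icc 1 x, |(-((k' : ℤ) - k)) * (s i : ℤ)| ≤ ((k' * M : ℕ) : ℤ) := by
    intro i hi
    rw [abs_mul, abs_neg]
    have h1 : |((k' : ℤ) - k)| ≤ k' := by
      rw [abs_of_nonneg (by omega)]
      omega
    have h2 : |(s i : ℤ)| ≤ M := by
      rw [abs_of_nonneg (by positivity)]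
      exact_mod_cast hs i hi
    push_cast
    exact mul_le_mul h1 h2 (abs_nonneg _) (by positivity)
  have hmomE := moment_energy h x (fun i => (-((k' : ℤ) - k)) * (s i : ℤ)) Mm (k' * M) hMm1 hF (by
    have h4 : 2 * h * (k' * M) ≤ 2 * h * N1 := Nat.mul_le_mul_left _ hkM
    have h5 : 2 * h * N1 < (4 * h + 5) * N1 := Nat.mul_lt_mul_of_pos_right (by omega) hN1
    omega)
  rw [energy_dil h x s _ (by omega)] at hmomE
  set C0 : ℝ := (4 * h + 5) * k' * (2 * k + 1) * D with hC0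
  have hNr : (N1 : ℝ) = k' * (2 * k + 1) * M := by rw [hN]; push_cast; ring
  have hMmr' : (Mm : ℝ) = (4 * h + 5) * N1 := by rw [hMm]; push_cast; ring
  have hmom : ∑ t ∈ range Mm, (‖∑ m ∈ Icc 1 x, ee ((t : ℝ) *
      ((((fun i => (-((k' : ℤ) - k)) * (s i : ℤ)) m : ℤ) : ℝ) / Mm))‖ / x) ^ (2 * h) ≤ C0 := by
    have h2 : ∑ t ∈ range Mm, (‖∑ m ∈ Icc 1 x, ee ((t : ℝ) *
        ((((fun i => (-((k' : ℤ) - k)) * (s i : ℤ)) m : ℤ) : ℝ) / Mm))‖ / x) ^ (2 * h) =
        (Mm * Pool.Agent.H560R3.GB.energy h x s) / (x : ℝ) ^ (2 * h) := by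
      rw [← hmomE, sum_div]
      exact sum_congr rfl fun t _ => div_pow _ _ _
    rw [h2, div_le_iff₀ (by positivity), hMmr', hNr]
    calc (4 * (h : ℝ) + 5) * (k' * (2 * k + 1) * M) * Pool.Agent.H560R3.GB.energy h x s
        = (4 * h + 5) * k' * (2 * k + 1) * (Pool.Agent.H560R3.GB.energy h x s * M) := by ring
      _ ≤ (4 * h + 5) * k' * (2 * k + 1) * (D * (x : ℝ) ^ (2 * h)) :=
          mul_le_mul_of_nonneg_left hE (by positivity)
      _ = _ := by rw [hC0]; ring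
  have hsup1 : ∀ α : ℝ, ‖∑ n ∈ Icc 1 N1, fk z k n * ee ((n : ℝ) * α)‖ ≤ δ := by
    intro α
    rw [fk_sum z k hk]
    exact hsup _
  have hfs : ∑ n ∈ Icc 1 N1, ‖fk z k n‖ ^ 2 ≤ N1 * L2 ^ 2 := by
    have h4 : ∀ n ∈ Icc 1 N1, ‖fk z k n‖ ^ 2 ≤ L2 ^ 2 := by
      intro n hn
      rw [mem_Icc] at hn
      apply pow_le_pow_left₀ (norm_nonneg _)
      unfold fk
      split_ifs with hd
      · rw [Complex.norm_real, Real.norm_eq_abs]
        apply hb
        · exact Nat.div_pos (Nat.le_of_dvd (by omega) hd) (by omega)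
        · exact (Nat.div_le_self _ _).trans hn.2
      · rw [norm_zero]; exact hL2.le
    refine (sum_le_sum h4).trans ?_
    rw [sum_const, Nat.card_Icc, nsmul_eq_mul]
    simp
  have hcond : ∀ a ∈ Icc 1 N1, ∀ m ∈ Icc 1 x, ∀ n ∈ Icc 1 N1,
      |(a : ℤ) + (fun i => (-((k' : ℤ) - k)) * (s i : ℤ)) m - n| < Mm := by
    intro a ha m hm n hn
    have h4 := abs_le.1 (hF m hm)
    rw [mem_Icc] at ha hn
    have h5 : (a : ℤ) ≤ N1 := by exact_mod_cast ha.2
    have h6 : (n : ℤ) ≤ N1 := by exact_mod_cast hn.2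
    have h7 : (5 : ℤ) * N1 ≤ Mm := by exact_mod_cast hM5
    have h8 : ((k' * M : ℕ) : ℤ) ≤ N1 := by exact_mod_cast hkM
    have h9 : (1 : ℤ) ≤ N1 := by exact_mod_cast hN1
    have h10 : (0 : ℤ) ≤ a := by positivity
    have h11 : (0 : ℤ) ≤ n := by positivity
    simp only
    rw [abs_lt]
    constructor <;> linarith [h4.1, h4.2]
  have key := bil_main N1 N1 x Mm hMm1 (fk z k) G c
    (fun i => (-((k' : ℤ) - k)) * (s i : ℤ)) δ η h C0 (N1 * L2 ^ 2) hcond (by omega) (by omega)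
    hx hsup1 hG hc hmom hfs hη
  refine key.trans (add_le_add ?_ ?_)
  · have hδ : 0 ≤ δ := (norm_nonneg _).trans (hsup 0)
    have hC00 : 0 ≤ C0 := le_trans (sum_nonneg fun t _ => by positivity) hmom
    rw [div_le_iff₀ hMmr]
    have h6 : 0 ≤ C0 / η ^ (2 * h) * δ * x := by positivity
    have h7 : (N1 : ℝ) ≤ Mm := by
      have : N1 ≤ Mm := by omega
      exact_mod_cast this
    calc C0 / η ^ (2 * h) * δ * N1 * x = (C0 / η ^ (2 * h) * δ * x) * N1 := by ring
      _ ≤ _ := mul_le_mul_of_nonneg_left h7 h6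
  · have h4 : Real.sqrt (N1 * L2 ^ 2 * N1) = L2 * N1 := by
      rw [show (N1 : ℝ) * L2 ^ 2 * N1 = (L2 * N1) ^ 2 by ring]
      exact Real.sqrt_sq (by positivity)
    rw [h4]

/-- the window sum -/
noncomputable def Sw (z k k' M t0 si : ℕ) : ℝ :=
  ∑ m ∈ (Icc 1 (2 * M)).filter (fun m => t0 + k * M < si + k * m ∧ si + k * m ≤ t0 + 2 * k * M),
    Ez z (si + k * m) * Ez z (si + k' * m)

open Classical in
/-- the weight of a class -/
noncomputable def Gw (z k k' M t0 r N1 : ℕ) (L2 : ℝ) (a : ℕ) : ℂ :=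
  if k' ∣ a ∧ (a / k') % k = r ∧ t0 + k * M < a / k' ∧ a / k' ≤ t0 + 2 * k * M ∧
    1 ≤ a / k' ∧ a / k' ≤ N1 then ((Ez z (a / k') / L2 : ℝ) : ℂ) else 0

lemma Gw_norm {z k k' M t0 r N1 : ℕ} {L2 : ℝ} (hL2 : 0 < L2)
    (hb : ∀ n, 1 ≤ n → n ≤ N1 → |Ez z n| ≤ L2) (a : ℕ) : ‖Gw z k k' M t0 r N1 L2 a‖ ≤ 1 := by
  unfold Gw
  split_ifs with h
  · rw [Complex.norm_real, Real.norm_eq_abs, abs_div, abs_of_pos hL2, div_le_one hL2]
    exact hb _ h.2.2.2.2.1 h.2.2.2.2.2
  · rw [norm_zero]; exact zero_le_one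

lemma Gw_sum {z k k' M t0 N1 w si : ℕ} {L2 : ℝ} (hM : 1 ≤ M) (hk : 1 ≤ k)
    (hkk : k < k') (hN : N1 = k' * (2 * k + 1) * M) (h1 : t0 ≤ si) (h2 : si < t0 + w)
    (h3 : w ≤ k * M) (h4 : si ≤ M) :
    ∑ a ∈ Icc 1 N1, Gw z k k' M t0 (si % k) N1 L2 a *
      fz (fk z k) N1 ((a : ℤ) + (-((k' : ℤ) - k)) * (si : ℤ)) =
      ((Sw z k k' M t0 si / L2 : ℝ) : ℂ) := by
  have hbig : ∀ m, m ≤ 2 * M → si + k * m ≤ (2 * k + 1) * M := by
    intro m hm
    have : k * m ≤ k * (2 * M) := Nat.mul_le_mul_left _ hm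
    calc si + k * m ≤ M + k * (2 * M) := by omega
      _ = _ := by ring
  unfold Sw
  rw [sum_div]
  push_cast
  symm
  apply Finset.sum_of_injOn (fun m => k' * (si + k * m))
  · intro m _ m' _ h
    have h5 := Nat.eq_of_mul_eq_mul_left (by omega) h
    have h6 : k * m = k * m' := by omega
    exact Nat.eq_of_mul_eq_mul_left (by omega) h6
  · intro m hm
    rw [mem_coe, mem_filter, mem_Icc] at hm
    rw [mem_coe, mem_Icc]
    constructor
    · apply Nat.mul_pos (by omega)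
      have := Nat.mul_pos (show 0 < k by omega) (show 0 < m by omega)
      omega
    · rw [hN, mul_assoc]
      exact Nat.mul_le_mul_left _ (hbig m hm.1.2)
  · intro a ha hna
    by_cases hc : k' ∣ a ∧ (a / k') % k = si % k ∧ t0 + k * M < a / k' ∧ a / k' ≤ t0 + 2 * k * M ∧
      1 ≤ a / k' ∧ a / k' ≤ N1
    · exfalso
      apply hna
      obtain ⟨⟨n, rfl⟩, hc2, hc3, hc4, -, -⟩ := hc
      rw [Nat.mul_div_cancel_left _ (by omega)] at hc2 hc3 hc4
      have h6 : si < n := by omega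
      have h7 : k ∣ n - si := (Nat.modEq_iff_dvd' h6.le).1 hc2.symm
      obtain ⟨m, hm⟩ := h7
      have h8 : n = si + k * m := by omega
      refine ⟨m, ?_, ?_⟩
      · rw [mem_coe, mem_filter, mem_Icc, ← h8]
        refine ⟨⟨?_, ?_⟩, hc3, hc4⟩
        · rcases Nat.eq_zero_or_pos m with h0 | h0
          · rw [h0] at h8; omega
          · exact h0
        · have h9 : k * m ≤ k * (2 * M) := by
            have : t0 + 2 * k * M = t0 + k * (2 * M) := by ring
            omega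
          exact Nat.le_of_mul_le_mul_left h9 (by omega)
      · simp only
        rw [h8]
    · unfold Gw
      rw [if_neg hc, zero_mul]
  · intro m hm
    rw [mem_filter, mem_Icc] at hm
    have hk0 : 0 < k' := by omega
    have e1 : k' * (si + k * m) / k' = si + k * m := Nat.mul_div_cancel_left _ hk0
    have hkm : 1 ≤ k * m := Nat.mul_pos (show 0 < k by omega) (show 0 < m by omega)
    have hle1 : si + k * m ≤ N1 := by
      refine (hbig m hm.1.2).trans ?_
      rw [hN, mul_assoc]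
      exact Nat.le_mul_of_pos_left _ hk0
    have hcond : k' ∣ k' * (si + k * m) ∧ (k' * (si + k * m) / k') % k = si % k ∧
        t0 + k * M < k' * (si + k * m) / k' ∧ k' * (si + k * m) / k' ≤ t0 + 2 * k * M ∧
        1 ≤ k' * (si + k * m) / k' ∧ k' * (si + k * m) / k' ≤ N1 := by
      rw [e1]
      refine ⟨dvd_mul_right _ _, by rw [Nat.add_mul_mod_self_left], hm.2.1, hm.2.2, by omega, hle1⟩
    have e2 : ((k' * (si + k * m) : ℕ) : ℤ) + (-((k' : ℤ) - k)) * (si : ℤ) =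
        ((k * (si + k' * m) : ℕ) : ℤ) := by
      push_cast
      ring
    have hle2 : k * (si + k' * m) ≤ N1 := by
      have h5 : si + k' * m ≤ M + k' * (2 * M) := by
        have := Nat.mul_le_mul_left k' hm.1.2
        omega
      calc k * (si + k' * m) ≤ k * (M + k' * (2 * M)) := Nat.mul_le_mul_left _ h5
        _ = k * M + k' * (2 * k) * M := by ring
        _ ≤ k' * M + k' * (2 * k) * M := by
            have := Nat.mul_le_mul_right M hkk.le
            omega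
        _ = N1 := by rw [hN]; ring
    have hge2 : 1 ≤ k * (si + k' * m) := by
      apply Nat.mul_pos (by omega)
      have := Nat.mul_pos hk0 (show 0 < m by omega)
      omega
    unfold Gw
    rw [if_pos hcond, e2]
    unfold fz
    rw [if_pos ⟨by exact_mod_cast hge2, by exact_mod_cast hle2⟩, Int.toNat_natCast]
    unfold fk
    rw [if_pos (dvd_mul_right _ _), e1, Nat.mul_div_cancel_left _ (show 0 < k by omega)]
    push_cast
    ring

/-- the window sum against the sum over `m` -/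
lemma Sw_diff {z k k' M t0 w si N1 : ℕ} {L2 : ℝ} (hk : 1 ≤ k) (hkk : k < k')
    (hN : N1 = k' * (2 * k + 1) * M)
    (h1 : t0 ≤ si) (h2 : si < t0 + w) (h4 : si ≤ M)
    (hb : ∀ n, 1 ≤ n → n ≤ N1 → |Ez z n| ≤ L2) (hL2 : 0 < L2) :
    |∑ m ∈ Ioc M (2 * M), Ez z (si + k * m) * Ez z (si + k' * m)| ≤
      |Sw z k k' M t0 si| + 2 * w * L2 ^ 2 := by
  set g : ℕ → ℝ := fun m => Ez z (si + k * m) * Ez z (si + k' * m) with hg
  have hgb : ∀ m, 1 ≤ m → m ≤ 2 * M → |g m| ≤ L2 ^ 2 := by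
    intro m hm1 hm2
    rw [hg]
    simp only
    rw [abs_mul, pow_two]
    have hkm : 1 ≤ k * m := Nat.mul_pos (show 0 < k by omega) (show 0 < m by omega)
    have hkm' : 1 ≤ k' * m := Nat.mul_pos (show 0 < k' by omega) (show 0 < m by omega)
    have h5 : k * m ≤ k' * m := Nat.mul_le_mul_right _ hkk.le
    have h6 : si + k' * m ≤ N1 := by
      have := Nat.mul_le_mul_left k' hm2
      calc si + k' * m ≤ M + k' * (2 * M) := by omega
        _ ≤ k' * M + k' * (2 * k) * M := by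
          have e1 : M ≤ k' * M := Nat.le_mul_of_pos_left _ (by omega)
          have e2 : k' * (2 * M) ≤ k' * (2 * k) * M := by
            rw [mul_assoc]
            exact Nat.mul_le_mul_left _ (Nat.mul_le_mul_right _ (by omega))
          omega
        _ = N1 := by rw [hN]; ring
    exact mul_le_mul (hb _ (by omega) (by omega)) (hb _ (by omega) h6) (abs_nonneg _) hL2.le
  set A := Ioc M (2 * M) with hA
  set B := (Icc 1 (2 * M)).filter
    (fun m => t0 + k * M < si + k * m ∧ si + k * m ≤ t0 + 2 * k * M) with hB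
  have e1 : ∑ m ∈ A, g m = ∑ m ∈ B, g m + ∑ m ∈ A \ B, g m - ∑ m ∈ B \ A, g m := by
    have a1 := sum_inter_add_sum_sdiff A B g
    have a2 := sum_inter_add_sum_sdiff B A g
    rw [inter_comm] at a2
    linarith
  have hAB : A \ B ⊆ Ioc (2 * M - w) (2 * M) := by
    intro m hm
    rw [mem_sdiff, hA, hB, mem_Ioc, mem_filter, mem_Icc] at hm
    rw [mem_Ioc]
    refine ⟨?_, hm.1.2⟩
    by_contra hcon
    apply hm.2
    have h5 : k * M < k * m := Nat.mul_lt_mul_of_pos_left hm.1.1 (by omega)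
    have h6 : k * (m + w) ≤ k * (2 * M) := Nat.mul_le_mul_left _ (by omega)
    have h7 : w ≤ k * w := Nat.le_mul_of_pos_left _ (by omega)
    have h8 : k * (m + w) = k * m + k * w := by ring
    have h9 : t0 + 2 * k * M = t0 + k * (2 * M) := by ring
    exact ⟨⟨by omega, hm.1.2⟩, by omega, by omega⟩
  have hBA : B \ A ⊆ Ioc (M - w) M := by
    intro m hm
    rw [mem_sdiff, hA, hB, mem_Ioc, mem_filter, mem_Icc] at hm
    rw [mem_Ioc]
    have h5 : m ≤ M := by
      by_contra hcon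
      exact hm.2 ⟨by omega, hm.1.1.2⟩
    refine ⟨?_, h5⟩
    by_contra hcon
    have h6 : k * (m + w) ≤ k * M := Nat.mul_le_mul_left _ (by omega)
    have h7 : w ≤ k * w := Nat.le_mul_of_pos_left _ (by omega)
    have h8 : k * (m + w) = k * m + k * w := by ring
    have := hm.1.2.1
    omega
  have hcA : (A \ B).card ≤ w := by
    refine (card_le_card hAB).trans ?_
    rw [Nat.card_Ioc]
    omega
  have hcB : (B \ A).card ≤ w := by
    refine (card_le_card hBA).trans ?_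
    rw [Nat.card_Ioc]
    omega
  have hsA : |∑ m ∈ A \ B, g m| ≤ w * L2 ^ 2 := by
    refine (abs_sum_le_sum_abs _ _).trans ?_
    have : ∀ m ∈ A \ B, |g m| ≤ L2 ^ 2 := by
      intro m hm
      rw [mem_sdiff, hA, mem_Ioc] at hm
      exact hgb m (by omega) hm.1.2
    refine (sum_le_sum this).trans ?_
    rw [sum_const, nsmul_eq_mul]
    exact mul_le_mul_of_nonneg_right (by exact_mod_cast hcA) (by positivity)
  have hsB : |∑ m ∈ B \ A, g m| ≤ w * L2 ^ 2 := by
    refine (abs_sum_le_sum_abs _ _).trans ?_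
    have : ∀ m ∈ B \ A, |g m| ≤ L2 ^ 2 := by
      intro m hm
      rw [mem_sdiff, hB, mem_filter, mem_Icc] at hm
      exact hgb m hm.1.1.1 hm.1.1.2
    refine (sum_le_sum this).trans ?_
    rw [sum_const, nsmul_eq_mul]
    exact mul_le_mul_of_nonneg_right (by exact_mod_cast hcB) (by positivity)
  have e2 : Sw z k k' M t0 si = ∑ m ∈ B, g m := rfl
  rw [e1, e2]
  have h5 := abs_sub (∑ m ∈ B, g m + ∑ m ∈ A \ B, g m) (∑ m ∈ B \ A, g m)
  have h6 := abs_add_le (∑ m ∈ B, g m) (∑ m ∈ A \ B, g m)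
  linarith

end Pool.Agent.W109.LT
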