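import Mathlib
import Pool.Agent.W109.LT.A1

/-! STEP A: correlations of `Λ - Λ_z` along two progressions over a thin family. -/

set_option autoImplicit false

namespace Pool.Agent.W109.LT

open Finset Pool.Agent.H373R2.T7
open Pool.Agent.H807R2.Dav

lemma one_class {h M k k' x N1 z w : ℕ} {s : ℕ → ℕ} {L2 δ η D : ℝ} (hM : 1 ≤ M) (hk : 1 ≤ k)
    (hkk : k < k') (hN : N1 = k' * (2 * k + 1) * M) (hx : 1 ≤ x)
    (hs : ∀ i ∈ Icc 1 x, s i ≤ M)
    (hE : (Pool.Agent.H560R3.GB.energy h x s : ℝ) * M ≤ D * (x : ℝ) ^ (2 * h))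
    (hsup : ∀ α : ℝ, ‖∑ n ∈ Icc 1 (N1 / k), ((Ez z n : ℝ) : ℂ) * ee ((n : ℝ) * α)‖ ≤ δ)
    (hb : ∀ n, 1 ≤ n → n ≤ N1 → |Ez z n| ≤ L2) (hL2 : 0 < L2) (hη : 0 < η)
    (hw : 1 ≤ w) (hw2 : w ≤ M) (j r : ℕ) :
    ∑ i ∈ (Icc 1 x).filter (fun i => s i / w = j ∧ s i % k = r),
      |Sw z k k' M (s i / w * w) (s i)| ≤
      L2 * (((4 * h + 5) * k' * (2 * k + 1) * D) / η ^ (2 * h) * δ * x + η * x * (L2 * N1)) := by
  set c : ℕ → ℂ := fun i => if s i / w = j ∧ s i % k = r then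
    (if 0 ≤ Sw z k k' M (j * w) (s i) then 1 else -1) else 0 with hc
  have hc1 : ∀ i, ‖c i‖ ≤ 1 := by
    intro i
    rw [hc]
    simp only
    split_ifs <;> simp
  have key := bil_gen hM hk hkk hN hx hs hE hsup hb hL2 hη (Gw z k k' M (j * w) r N1 L2) c
    (Gw_norm hL2 hb) hc1
  have heq : ∑ a ∈ Icc 1 N1, ∑ i ∈ Icc 1 x, Gw z k k' M (j * w) r N1 L2 a * c i *
      fz (fk z k) N1 ((a : ℤ) + (-((k' : ℤ) - k)) * (s i : ℤ)) =
      (((∑ i ∈ (Icc 1 x).filter (fun i => s i / w = j ∧ s i % k = r),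
      |Sw z k k' M (s i / w * w) (s i)|) / L2 : ℝ) : ℂ) := by
    rw [sum_comm, sum_div, sum_filter]
    push_cast
    apply sum_congr rfl
    intro i hi
    by_cases hcl : s i / w = j ∧ s i % k = r
    · rw [if_pos hcl]
      have h1 : j * w ≤ s i := by
        rw [← hcl.1]
        exact Nat.div_mul_le_self _ _
      have h2 : s i < j * w + w := by
        rw [← hcl.1]
        have := Nat.div_add_mod (s i) w
        have h3 := Nat.mod_lt (s i) (show 0 < w by omega)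
        rw [mul_comm] at this
        omega
      have h3 : w ≤ k * M := hw2.trans (Nat.le_mul_of_pos_left _ (by omega))
      have e := Gw_sum (z := z) (L2 := L2) hM hk hkk hN h1 h2 h3 (hs i hi)
      rw [hcl.2] at e
      have e2 : ∑ a ∈ Icc 1 N1, Gw z k k' M (j * w) r N1 L2 a * c i *
          fz (fk z k) N1 ((a : ℤ) + (-((k' : ℤ) - k)) * (s i : ℤ)) =
          c i * ∑ a ∈ Icc 1 N1, Gw z k k' M (j * w) r N1 L2 a *
          fz (fk z k) N1 ((a : ℤ) + (-((k' : ℤ) - k)) * (s i : ℤ)) := by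
        rw [mul_sum]
        apply sum_congr rfl
        intro a _
        ring
      rw [e2, e, hcl.1, hc]
      simp only
      rw [if_pos hcl]
      split_ifs with h0
      · rw [abs_of_nonneg h0]
        push_cast
        ring
      · rw [abs_of_neg (not_le.1 h0)]
        push_cast
        ring
    · rw [if_neg hcl]
      have : c i = 0 := by
        rw [hc]
        simp only
        rw [if_neg hcl]
      rw [this]
      simp
  rw [heq, Complex.norm_real, Real.norm_of_nonneg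
    (div_nonneg (sum_nonneg fun _ _ => abs_nonneg _) hL2.le), div_le_iff₀ hL2] at key
  linarith

lemma all_class {h M k k' x N1 z w : ℕ} {s : ℕ → ℕ} {L2 δ η D : ℝ} (hM : 1 ≤ M) (hk : 1 ≤ k)
    (hkk : k < k') (hN : N1 = k' * (2 * k + 1) * M) (hx : 1 ≤ x)
    (hs : ∀ i ∈ Icc 1 x, s i ≤ M)
    (hE : (Pool.Agent.H560R3.GB.energy h x s : ℝ) * M ≤ D * (x : ℝ) ^ (2 * h))
    (hsup : ∀ α : ℝ, ‖∑ n ∈ Icc 1 (N1 / k), ((Ez z n : ℝ) : ℂ) * ee ((n : ℝ) * α)‖ ≤ δ)
    (hb : ∀ n, 1 ≤ n → n ≤ N1 → |Ez z n| ≤ L2) (hL2 : 0 < L2) (hη : 0 < η)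
    (hw : 1 ≤ w) (hw2 : w ≤ M) :
    ∑ i ∈ Icc 1 x, |∑ m ∈ Ioc M (2 * M), Ez z (s i + k * m) * Ez z (s i + k' * m)| ≤
      ((M / w + 1 : ℕ) : ℝ) * k *
      (L2 * (((4 * h + 5) * k' * (2 * k + 1) * D) / η ^ (2 * h) * δ * x + η * x * (L2 * N1))) +
      x * (2 * w * L2 ^ 2) := by
  have h1 : ∀ i ∈ Icc 1 x, |∑ m ∈ Ioc M (2 * M), Ez z (s i + k * m) * Ez z (s i + k' * m)| ≤
      |Sw z k k' M (s i / w * w) (s i)| + 2 * w * L2 ^ 2 := by
    intro i hi
    refine Sw_diff hk hkk hN (Nat.div_mul_le_self _ _) ?_ (hs i hi) hb hL2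
    have := Nat.div_add_mod (s i) w
    have h3 := Nat.mod_lt (s i) (show 0 < w by omega)
    rw [mul_comm] at this
    omega
  refine (sum_le_sum h1).trans ?_
  rw [sum_add_distrib, sum_const, Nat.card_Icc, nsmul_eq_mul, Nat.add_sub_cancel]
  apply add_le_add _ le_rfl
  have hmaps : ∀ i ∈ Icc 1 x, (s i / w, s i % k) ∈ range (M / w + 1) ×ˢ range k := by
    intro i hi
    rw [mem_product, mem_range, mem_range]
    exact ⟨Nat.lt_succ_of_le (Nat.div_le_div_right (hs i hi)), Nat.mod_lt _ (by omega)⟩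
  rw [← sum_fiberwise_of_maps_to hmaps]
  have h2 : ∀ p ∈ range (M / w + 1) ×ˢ range k,
      ∑ i ∈ (Icc 1 x).filter (fun i => (s i / w, s i % k) = p),
        |Sw z k k' M (s i / w * w) (s i)| ≤
      L2 * (((4 * h + 5) * k' * (2 * k + 1) * D) / η ^ (2 * h) * δ * x + η * x * (L2 * N1)) := by
    rintro ⟨j, r⟩ _
    have := one_class hM hk hkk hN hx hs hE hsup hb hL2 hη hw hw2 j r
    simp only [Prod.mk.injEq]
    exact this
  refine (sum_le_sum h2).trans (le_of_eq ?_)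
  rw [sum_const, card_product, card_range, card_range, nsmul_eq_mul]
  push_cast
  ring

theorem sA : S_A := by
  intro h C U κ
  set V : ℕ := 2 * U + 3 * κ + 6 with hV
  set U' : ℕ := 2 * U + 5 + 5 * κ + C + V * (2 * h) with hU'
  obtain ⟨B1', hsup⟩ := sup_diff U'
  refine ⟨B1' + 1, fun E => ?_⟩
  obtain ⟨m1, h1⟩ := hsup E
  obtain ⟨m2, h2⟩ := Vz_inv_small E
  obtain ⟨m3, h3⟩ := ev_L' (max (36 * (4 * h + 5) + 40) (2 ^ B1'))
  obtain ⟨m4, h4⟩ := ev_log' (2 * κ) 3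
  obtain ⟨m5, h5⟩ := ev_log' (U + 3) 1
  refine ⟨max (max m1 m2) (max (max m3 m4) (max m5 3)), fun M hM x s hs hE z hz1 hz2 k k' hk hkk hk' => ?_⟩
  have hm1 : m1 ≤ M := le_trans (le_trans (le_max_left _ _) (le_max_left _ _)) hM
  have hm2 : m2 ≤ M := le_trans (le_trans (le_max_right _ _) (le_max_left _ _)) hM
  have hm3 : m3 ≤ M := le_trans (le_trans (le_trans (le_max_left _ _) (le_max_left _ _)) (le_max_right _ _)) hM
  have hm4 : m4 ≤ M := le_trans (le_trans (le_trans (le_max_right _ _) (le_max_left _ _)) (le_max_right _ _)) hM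
  have hm5 : m5 ≤ M := le_trans (le_trans (le_trans (le_max_left _ _) (le_max_right _ _)) (le_max_right _ _)) hM
  have hM3 : 3 ≤ M := le_trans (le_trans (le_trans (le_max_right _ _) (le_max_right _ _)) (le_max_right _ _)) hM
  have hL := h3 M hm3
  have hMκ := h4 M hm4
  have hMU := h5 M hm5
  have hMr : (3 : ℝ) ≤ M := by exact_mod_cast hM3
  have hM0 : (0 : ℝ) < M := by linarith
  set L := Real.log M with hLd
  have hL1 : (36 * (4 * (h : ℝ) + 5) + 40) ≤ L := (le_max_left _ _).trans hL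
  have hL3 : (2 : ℝ) ^ B1' ≤ L := (le_max_right _ _).trans hL
  have hh0 : (0 : ℝ) ≤ h := Nat.cast_nonneg _
  have hLge1 : 1 ≤ L := by linarith
  have hL0 : 0 < L := by linarith
  have hz : 1 ≤ z := by
    have : (1 : ℝ) ≤ z := (one_le_pow₀ hLge1).trans hz1
    exact_mod_cast this
  rcases Nat.eq_zero_or_pos x with hx | hx
  · rw [hx]; simp
  have hx0 : (0 : ℝ) < x := by exact_mod_cast hx
  have hsqM : √(M : ℝ) ≤ M := by
    rw [Real.sqrt_le_left (by positivity)]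
    nlinarith
  have hk'0 : (0 : ℝ) < k' := by exact_mod_cast (show 0 < k' by omega)
  have hk0 : (0 : ℝ) < k := by exact_mod_cast (show 0 < k by omega)
  have hkk' : (k : ℝ) ≤ k' := by exact_mod_cast hkk.le
  have hkr : (1 : ℝ) ≤ k := by exact_mod_cast hk
  have hkL : (k : ℝ) ≤ L ^ κ := hkk'.trans hk'
  set N1 : ℕ := k' * (2 * k + 1) * M with hN
  have hNr : (N1 : ℝ) = k' * (2 * k + 1) * M := by rw [hN]; push_cast; ring
  have hkp : (k' : ℝ) * (2 * k + 1) ≤ 3 * L ^ (2 * κ) := by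
    have e : L ^ (2 * κ) = L ^ κ * L ^ κ := by rw [two_mul, pow_add]
    rw [e]
    calc (k' : ℝ) * (2 * k + 1) ≤ k' * (3 * k) := by
          apply mul_le_mul_of_nonneg_left _ hk'0.le
          linarith
      _ = 3 * (k' * k) := by ring
      _ ≤ 3 * (L ^ κ * L ^ κ) := by
          have := mul_le_mul hk' hkL hk0.le (by positivity)
          linarith
  have hN1le : (N1 : ℝ) ≤ 3 * L ^ (2 * κ) * M := by
    rw [hNr]
    exact mul_le_mul_of_nonneg_right hkp hM0.le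
  have hN1sq : (N1 : ℝ) ≤ (M : ℝ) ^ 2 := by
    refine hN1le.trans ?_
    rw [pow_two]
    exact mul_le_mul_of_nonneg_right (hMκ.trans hsqM) hM0.le
  have hN1pos : 1 ≤ N1 := by
    rw [hN]
    exact Nat.mul_pos (Nat.mul_pos (by omega) (by omega)) (by omega)
  have hN1r : (0 : ℝ) < N1 := by exact_mod_cast hN1pos
  have hlogN1 : Real.log N1 ≤ 2 * L := by
    have := Real.log_le_log hN1r hN1sq
    rw [Real.log_pow] at this
    push_cast at this
    exact this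
  -- the range
  have hMk : M ≤ N1 / k := by
    rw [Nat.le_div_iff_mul_le (by omega), hN]
    calc M * k = k * 1 * M := by ring
      _ ≤ k' * (2 * k + 1) * M := Nat.mul_le_mul_right _ (Nat.mul_le_mul hkk.le (by omega))
  have hMkr : (M : ℝ) ≤ ((N1 / k : ℕ) : ℝ) := by exact_mod_cast hMk
  have hNk : ((N1 / k : ℕ) : ℝ) ≤ N1 := by exact_mod_cast Nat.div_le_self _ _
  have hlog1 : L ≤ Real.log ((N1 / k : ℕ) : ℝ) := Real.log_le_log hM0 hMkr
  have hlog2 : Real.log ((N1 / k : ℕ) : ℝ) ≤ 2 * L :=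
    (Real.log_le_log (hM0.trans_le hMkr) hNk).trans hlogN1
  have hzH1 : Real.log ((N1 / k : ℕ) : ℝ) ^ B1' ≤ z := by
    calc Real.log ((N1 / k : ℕ) : ℝ) ^ B1' ≤ (2 * L) ^ B1' :=
          pow_le_pow_left₀ (hL0.le.trans hlog1) hlog2 _
      _ = 2 ^ B1' * L ^ B1' := mul_pow _ _ _
      _ ≤ L * L ^ B1' := mul_le_mul_of_nonneg_right hL3 (by positivity)
      _ = L ^ (B1' + 1) := by ring
      _ ≤ z := hz1
  have hzH2 : (z : ℝ) ≤ Real.log ((N1 / k : ℕ) : ℝ) ^ E :=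
    hz2.trans (pow_le_pow_left₀ hL0.le hlog1 _)
  have hsup1 : ∀ α : ℝ, ‖∑ n ∈ Icc 1 (N1 / k), ((Ez z n : ℝ) : ℂ) * ee ((n : ℝ) * α)‖ ≤
      N1 / L ^ U' := by
    intro α
    refine (h1 (N1 / k) (hm1.trans hMk) z hzH1 hzH2 α).trans ?_
    apply div_le_div₀ hN1r.le hNk (by positivity)
    exact pow_le_pow_left₀ hL0.le hlog1 _
  have hVinv := h2 M hm2 z hz hz2
  have hb : ∀ n, 1 ≤ n → n ≤ N1 → |Ez z n| ≤ 2 * L := by
    intro n hn1 hn2
    unfold Ez
    have h5 : ArithmeticFunction.vonMangoldt n ≤ 2 * L := by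
      refine ArithmeticFunction.vonMangoldt_le_log.trans (le_trans ?_ hlogN1)
      exact Real.log_le_log (by exact_mod_cast hn1) (by exact_mod_cast hn2)
    have h6 : (0 : ℝ) ≤ ArithmeticFunction.vonMangoldt n := ArithmeticFunction.vonMangoldt_nonneg
    have h7 := lamz_nonneg z n
    have h8 : lamz z n ≤ L := by
      unfold lamz
      split_ifs
      · exact hVinv
      · exact hL0.le
    rw [abs_le]
    constructor <;> linarith
  -- the window
  set w : ℕ := ⌈(M : ℝ) / L ^ (U + 3)⌉₊ with hw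
  have hLU : 0 < L ^ (U + 3) := by positivity
  have hLU1 : 1 ≤ L ^ (U + 3) := one_le_pow₀ hLge1
  have hMLU : 1 ≤ (M : ℝ) / L ^ (U + 3) := by
    rw [le_div_iff₀ hLU, one_mul]
    rw [one_mul] at hMU
    exact hMU.trans hsqM
  have hw1 : 1 ≤ w := Nat.one_le_ceil_iff.2 (by linarith)
  have hw2 : w ≤ M := by
    rw [hw, Nat.ceil_le]
    exact div_le_self hM0.le hLU1
  have hw3 : (w : ℝ) ≤ 2 * (M / L ^ (U + 3)) := by
    have := (Nat.ceil_lt_add_one (show (0 : ℝ) ≤ (M : ℝ) / L ^ (U + 3) by positivity)).le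
    rw [← hw] at this
    linarith
  have hwr : (0 : ℝ) < w := by exact_mod_cast hw1
  have hw4 : ((M / w + 1 : ℕ) : ℝ) ≤ 2 * L ^ (U + 3) := by
    push_cast
    have e1 : ((M / w : ℕ) : ℝ) ≤ M / w := Nat.cast_div_le
    have e2 : (M : ℝ) / w ≤ L ^ (U + 3) := by
      rw [div_le_iff₀ hwr]
      have e3 := Nat.le_ceil ((M : ℝ) / L ^ (U + 3))
      rw [← hw, div_le_iff₀ hLU] at e3
      linarith
    linarith
  have key := all_class (by omega) hk hkk hN hx hs hE hsup1 hb (by positivity : (0 : ℝ) < 2 * L)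
    (by positivity : (0 : ℝ) < 1 / L ^ V) hw1 hw2
  refine key.trans ?_
  -- first term
  have t1 : (4 * (h : ℝ) + 5) * k' * (2 * k + 1) * L ^ C / (1 / L ^ V) ^ (2 * h) * (N1 / L ^ U') * x ≤
      9 * (4 * h + 5) * (M * x) / L ^ (2 * U + 5 + κ) := by
    have e0 : (4 * (h : ℝ) + 5) * k' * (2 * k + 1) * L ^ C / (1 / L ^ V) ^ (2 * h) * (N1 / L ^ U') * x =
        (4 * h + 5) * (k' * (2 * k + 1)) * N1 * x / L ^ (2 * U + 5 + 5 * κ) := by
      rw [div_pow, one_pow, ← pow_mul, hU', pow_add L (2 * U + 5 + 5 * κ + C), pow_add L (2 * U + 5 + 5 * κ)]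
      field_simp
    rw [e0]
    have e1 : (4 * (h : ℝ) + 5) * (k' * (2 * k + 1)) * N1 * x ≤
        (4 * h + 5) * (3 * L ^ (2 * κ)) * (3 * L ^ (2 * κ) * M) * x := by
      gcongr
    calc (4 * (h : ℝ) + 5) * (k' * (2 * k + 1)) * N1 * x / L ^ (2 * U + 5 + 5 * κ)
        ≤ ((4 * h + 5) * (3 * L ^ (2 * κ)) * (3 * L ^ (2 * κ) * M) * x) / L ^ (2 * U + 5 + 5 * κ) :=
          div_le_div_of_nonneg_right e1 (by positivity)
      _ = _ := by
          rw [show 2 * U + 5 + 5 * κ = (2 * U + 5 + κ) + 2 * κ + 2 * κ by ring, pow_add, pow_add]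
          field_simp
          ring
  have t2 : 1 / L ^ V * x * (2 * L * N1) ≤ 6 * (M * x) / L ^ (2 * U + 5 + κ) := by
    have e1 : 1 / L ^ V * x * (2 * L * N1) ≤ 1 / L ^ V * x * (2 * L * (3 * L ^ (2 * κ) * M)) := by
      gcongr
    refine e1.trans (le_of_eq ?_)
    rw [hV, show 2 * U + 3 * κ + 6 = (2 * U + 5 + κ) + 2 * κ + 1 by ring, pow_add, pow_add, pow_one]
    field_simp
    ring
  have t3 : ((M / w + 1 : ℕ) : ℝ) * k * (2 * L * ((4 * (h : ℝ) + 5) * k' * (2 * k + 1) * L ^ C / (1 / L ^ V) ^ (2 * h) * (N1 / L ^ U') * x +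
      1 / L ^ V * x * (2 * L * N1))) ≤ (36 * (4 * h + 5) + 24) / L * (M * x / L ^ U) := by
    calc ((M / w + 1 : ℕ) : ℝ) * k * (2 * L * ((4 * (h : ℝ) + 5) * k' * (2 * k + 1) * L ^ C / (1 / L ^ V) ^ (2 * h) * (N1 / L ^ U') * x +
          1 / L ^ V * x * (2 * L * N1)))
        ≤ (2 * L ^ (U + 3)) * L ^ κ * (2 * L * (9 * (4 * h + 5) * (M * x) / L ^ (2 * U + 5 + κ) + 6 * (M * x) / L ^ (2 * U + 5 + κ))) := by
          gcongr
      _ = _ := by
          rw [show 2 * U + 5 + κ = U + (U + 3) + κ + 1 + 1 by ring, pow_succ, pow_succ, pow_add, pow_add]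
          field_simp
          ring
  have t4 : (x : ℝ) * (2 * w * (2 * L) ^ 2) ≤ 16 / L * (M * x / L ^ U) := by
    calc (x : ℝ) * (2 * w * (2 * L) ^ 2) ≤ x * (2 * (2 * (M / L ^ (U + 3))) * (2 * L) ^ 2) := by
          gcongr
      _ = _ := by
          rw [pow_add]
          field_simp
          ring
  have hP : 0 ≤ (M : ℝ) * x / L ^ U := by positivity
  calc _ ≤ (36 * (4 * (h : ℝ) + 5) + 24) / L * (M * x / L ^ U) + 16 / L * (M * x / L ^ U) :=
        add_le_add t3 t4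
    _ = ((36 * (4 * (h : ℝ) + 5) + 40) / L) * (M * x / L ^ U) := by ring
    _ ≤ 1 * (M * x / L ^ U) := by
        apply mul_le_mul_of_nonneg_right _ hP
        rw [div_le_one hL0]
        exact hL1
    _ = _ := one_mul _

end Pool.Agent.W109.LT
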