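import Pool.Agent.W109.LT.Defs
import Pool.Agent.H373R2.T7.LamMaj
import Pool.Agent.H373R2.T7.LamZ2
import Pool.Agent.Erdos456.Mertens

/-!
Step D: the diagonal.
-/

set_option autoImplicit false

namespace Pool.Agent.W109.LT

open Finset Pool.Agent.H373R2.T7

/-- a sum over `c + k m`, `M < m ≤ 2M`, as a difference of sums over progressions -/
theorem sum_prog (g : ℕ → ℝ) (M c k : ℕ) (hk : 1 ≤ k) :
    ∑ m ∈ Ioc M (2 * M), g (c + k * m) =
      ∑ n ∈ (Icc 1 (c + k * (2 * M))).filter (fun n => n ≡ c [MOD k]), g n -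
        ∑ n ∈ (Icc 1 (c + k * M)).filter (fun n => n ≡ c [MOD k]), g n := by
  classical
  have h1 : (Icc 1 (c + k * (2 * M))).filter (fun n => n ≡ c [MOD k]) =
      (Icc 1 (c + k * M)).filter (fun n => n ≡ c [MOD k]) ∪
        (Ioc M (2 * M)).image (fun m => c + k * m) := by
    ext n
    rw [mem_union, mem_filter, mem_filter, mem_image, mem_Icc, mem_Icc]
    constructor
    · rintro ⟨⟨h1, h2⟩, h3⟩
      rcases Nat.lt_or_ge (c + k * M) n with h | h
      · right
        have h4 : k ∣ n - c := (Nat.modEq_iff_dvd' (by omega)).1 h3.symm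
        obtain ⟨m, hm⟩ := h4
        have h5 : n = c + k * m := by omega
        refine ⟨m, ?_, h5.symm⟩
        rw [mem_Ioc]
        constructor
        · by_contra hcon
          have : k * m ≤ k * M := Nat.mul_le_mul_left k (by omega)
          omega
        · by_contra hcon
          have : k * (2 * M + 1) ≤ k * m := Nat.mul_le_mul_left k (by omega)
          rw [mul_add, mul_one] at this
          omega
      · exact Or.inl ⟨⟨h1, h⟩, h3⟩
    · rintro (⟨⟨h1, h2⟩, h3⟩ | ⟨m, hm, rfl⟩)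
      · refine ⟨⟨h1, h2.trans ?_⟩, h3⟩
        have : k * M ≤ k * (2 * M) := Nat.mul_le_mul_left k (by omega)
        omega
      · rw [mem_Ioc] at hm
        have h6 : k * m ≤ k * (2 * M) := Nat.mul_le_mul_left k hm.2
        have h7 : 1 * 1 ≤ k * m := Nat.mul_le_mul hk (by omega)
        refine ⟨⟨by omega, by omega⟩, ?_⟩
        show (c + k * m) % k = c % k
        rw [Nat.add_mul_mod_self_left]
  have h2 : Disjoint ((Icc 1 (c + k * M)).filter (fun n => n ≡ c [MOD k]))
      ((Ioc M (2 * M)).image (fun m => c + k * m)) := by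
    rw [disjoint_left]
    intro n hn hn'
    rw [mem_filter, mem_Icc] at hn
    rw [mem_image] at hn'
    obtain ⟨m, hm, rfl⟩ := hn'
    rw [mem_Ioc] at hm
    have : k * (M + 1) ≤ k * m := Nat.mul_le_mul_left k (by omega)
    rw [mul_add, mul_one] at this
    omega
  rw [h1, sum_union h2, sum_image, add_sub_cancel_left]
  intro a _ b _ hab
  have : k * a = k * b := by
    have hab' : c + k * a = c + k * b := hab
    omega
  exact Nat.eq_of_mul_eq_mul_left (by omega) this

/-- `∑ k / φ(k) ≤ C K` -/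
theorem tot_sum : ∃ C : ℝ, 0 ≤ C ∧ ∀ K : ℕ, ∑ k ∈ Icc 1 K, ((k : ℝ) / (Nat.totient k : ℝ)) ≤ C * K := by
  obtain ⟨C, hC⟩ := Pool.Agent.Erdos456.Mert.totRatio_moment
  have hle : ∀ K : ℕ, ∑ k ∈ Icc 1 K, ((k : ℝ) / (Nat.totient k : ℝ)) ≤ C * K := by
    intro K
    refine le_trans (sum_le_sum fun k hk => ?_) (hC K)
    rw [mem_Icc] at hk
    have h1 : (1 : ℝ) ≤ (k : ℝ) / (Nat.totient k : ℝ) := by
      have h2 : 0 < Nat.totient k := Nat.totient_pos.2 (by omega)
      rw [le_div_iff₀ (by exact_mod_cast h2), one_mul]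
      exact_mod_cast Nat.totient_le k
    exact le_self_pow₀ h1 (by norm_num)
  refine ⟨C, ?_, hle⟩
  have := hle 1
  simp at this
  linarith

/-- one progression -/
theorem prog_bound {S : ℕ → ℕ → ℕ → ℝ} {M c k : ℕ} {N U : ℝ} (hk : 1 ≤ k)
    (hS : ∀ y : ℕ, y ≤ c + k * (2 * M) →
      |S k c y - (if c.Coprime k then (y : ℝ) / (Nat.totient k : ℝ) else 0)| ≤ U)
    (hU : U ≤ M / 2) :
    S k c (c + k * (2 * M)) - S k c (c + k * M) ≤ M * ((k : ℝ) / (Nat.totient k : ℝ) + 1) := by
  have h1 := hS (c + k * (2 * M)) le_rfl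
  have h2 := hS (c + k * M) (by
    have : k * M ≤ k * (2 * M) := Nat.mul_le_mul_left k (by omega)
    omega)
  rw [abs_le] at h1 h2
  have ht : 0 < (Nat.totient k : ℝ) := by
    have h2 : 0 < Nat.totient k := Nat.totient_pos.2 (by omega)
    exact_mod_cast h2
  split_ifs at h1 h2 with hc
  · have e : ((c + k * (2 * M) : ℕ) : ℝ) / (Nat.totient k : ℝ) -
        ((c + k * M : ℕ) : ℝ) / (Nat.totient k : ℝ) = M * ((k : ℝ) / (Nat.totient k : ℝ)) := by
      push_cast
      field_simp
      ring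
    linarith
  · have : 0 ≤ (M : ℝ) * ((k : ℝ) / (Nat.totient k : ℝ)) := by positivity
    linarith

theorem sD : S_D := by
  classical
  obtain ⟨C, hC0, hC⟩ := tot_sum
  refine ⟨6 * (C + 1), by positivity, ?_⟩
  intro E κ
  obtain ⟨N1, h1⟩ := lam_ap κ (κ + 1)
  obtain ⟨N2, h2⟩ := lamz_ap E (κ + 1)
  obtain ⟨N3, h3⟩ := Vz_inv_small E
  obtain ⟨N4, h4⟩ := ev_L' 8
  obtain ⟨N5, h5⟩ := ev_log' (κ + 1) 3
  refine ⟨max (max N1 N2) (max N3 (max N4 (max N5 2))), ?_⟩
  intro M hM z hz1 hz2 c hc K hK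
  have hM1 : N1 ≤ M := le_trans (le_trans (le_max_left _ _) (le_max_left _ _)) hM
  have hM2 : N2 ≤ M := le_trans (le_trans (le_max_right _ _) (le_max_left _ _)) hM
  have hM3 : N3 ≤ M := le_trans (le_trans (le_max_left _ _) (le_max_right _ _)) hM
  have hM4 : N4 ≤ M := le_trans (le_trans (le_trans (le_max_left _ _) (le_max_right _ _)) (le_max_right _ _)) hM
  have hM5 : N5 ≤ M := le_trans (le_trans (le_trans (le_trans (le_max_left _ _) (le_max_right _ _)) (le_max_right _ _)) (le_max_right _ _)) hM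
  have hM6 : 2 ≤ M := le_trans (le_trans (le_trans (le_trans (le_max_right _ _) (le_max_right _ _)) (le_max_right _ _)) (le_max_right _ _)) hM
  have hMr : (2 : ℝ) ≤ M := by exact_mod_cast hM6
  have hM0 : (0 : ℝ) < M := by linarith
  have hL := h4 M hM4
  set L := Real.log M with hLd
  have hL1 : 1 ≤ L := by linarith
  have hLκ : 1 ≤ L ^ κ := one_le_pow₀ hL1
  have hz0 : 1 ≤ z := by
    have : (1 : ℝ) ≤ z := hLκ.trans hz1
    exact_mod_cast this
  have hVz := h3 M hM3 z hz0 hz2
  -- each k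
  have key : ∀ k ∈ Icc 1 K, ∑ m ∈ Ioc M (2 * M), Ez z (c + k * m) ^ 2 ≤
      6 * L * (M * ((k : ℝ) / (Nat.totient k : ℝ) + 1)) := by
    intro k hk
    rw [mem_Icc] at hk
    have hK1 : (1 : ℝ) ≤ K := by exact_mod_cast (by omega : 1 ≤ K)
    have hkr : (k : ℝ) ≤ L ^ κ := le_trans (by exact_mod_cast hk.2) hK
    obtain ⟨N, hN⟩ : ∃ N : ℕ, N = (2 * K + 1) * M := ⟨_, rfl⟩
    have hNM : M ≤ N := by
      rw [hN]
      nlinarith
    have hNr : (N : ℝ) = (2 * K + 1) * M := by rw [hN]; push_cast; ring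
    have hNle : c + k * (2 * M) ≤ N := by
      rw [hN]
      have : k * (2 * M) ≤ K * (2 * M) := Nat.mul_le_mul_right _ hk.2
      nlinarith
    have hLN : L ≤ Real.log N := Real.log_le_log hM0 (by exact_mod_cast hNM)
    have hLN0 : 0 < Real.log N := by linarith
    have hN0 : (0 : ℝ) < N := lt_of_lt_of_le hM0 (by exact_mod_cast hNM)
    -- log N ≤ 2 L
    have hN2 : Real.log N ≤ 2 * L := by
      have h6 : (N : ℝ) ≤ M * M := by
        rw [hNr]
        have h7 := h5 M hM5
        have h8 : √(M : ℝ) ≤ M := by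
          rw [Real.sqrt_le_left hM0.le]
          nlinarith
        have h9 : (2 * (K : ℝ) + 1) ≤ M := by
          have h10 : L ^ κ ≤ L ^ (κ + 1) := pow_le_pow_right₀ hL1 (by omega)
          calc (2 * (K : ℝ) + 1) ≤ 3 * K := by linarith
            _ ≤ 3 * L ^ κ := by linarith
            _ ≤ 3 * L ^ (κ + 1) := by linarith
            _ ≤ √(M : ℝ) := h7
            _ ≤ M := h8
        gcongr
      calc Real.log N ≤ Real.log ((M : ℝ) * M) := Real.log_le_log hN0 h6
        _ = 2 * L := by rw [Real.log_mul hM0.ne' hM0.ne', ← hLd]; ring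
    -- the error
    have hU : (N : ℝ) / Real.log N ^ (κ + 1) ≤ M / 2 := by
      have h6 : L ^ (κ + 1) ≤ Real.log N ^ (κ + 1) := pow_le_pow_left₀ (by linarith) hLN _
      have h7 : 0 < L ^ (κ + 1) := by positivity
      calc (N : ℝ) / Real.log N ^ (κ + 1) ≤ N / L ^ (κ + 1) := by gcongr
        _ ≤ (3 * L ^ κ * M) / L ^ (κ + 1) := by
            rw [hNr]
            gcongr
            linarith
        _ = 3 * M / L := by
            rw [pow_succ]
            field_simp
        _ ≤ M / 2 := by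
            rw [div_le_div_iff₀ (by linarith) (by norm_num)]
            nlinarith
    have a1 : ∑ m ∈ Ioc M (2 * M), ArithmeticFunction.vonMangoldt (c + k * m) ≤
        M * ((k : ℝ) / (Nat.totient k : ℝ) + 1) := by
      rw [sum_prog (fun n => ArithmeticFunction.vonMangoldt n) M c k hk.1]
      refine prog_bound (S := fun k c y => ∑ n ∈ (Icc 1 y).filter (fun n => n ≡ c [MOD k]),
        ArithmeticFunction.vonMangoldt n) (N := 0) hk.1 ?_ hU
      intro y hy
      exact h1 N (hM1.trans hNM) k hk.1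
        (hkr.trans (pow_le_pow_left₀ (by linarith) hLN _)) c y (hy.trans hNle)
    have a2 : ∑ m ∈ Ioc M (2 * M), lamz z (c + k * m) ≤
        M * ((k : ℝ) / (Nat.totient k : ℝ) + 1) := by
      rw [sum_prog (fun n => lamz z n) M c k hk.1]
      refine prog_bound (S := fun k c y => ∑ n ∈ (Icc 1 y).filter (fun n => n ≡ c [MOD k]),
        lamz z n) (N := 0) hk.1 ?_ hU
      intro y hy
      exact h2 N (hM2.trans hNM) z hz0
        (hz2.trans (pow_le_pow_left₀ (by linarith) hLN _)) k hk.1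
        (by exact_mod_cast hkr.trans hz1) c y (hy.trans hNle)
    have hV0 : 0 ≤ (Vz z)⁻¹ := by
      rw [inv_nonneg]
      exact (by positivity : (0 : ℝ) ≤ 1 / z).trans (Vz_ge z hz0)
    have hpt : ∀ m ∈ Ioc M (2 * M), Ez z (c + k * m) ^ 2 ≤
        4 * L * ArithmeticFunction.vonMangoldt (c + k * m) + 2 * L * lamz z (c + k * m) := by
      intro m hm
      rw [mem_Ioc] at hm
      set n := c + k * m with hn
      have hnN : n ≤ N := by
        have : k * m ≤ k * (2 * M) := Nat.mul_le_mul_left k hm.2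
        omega
      have hn1 : 1 ≤ n := by
        have h7 : 1 * 1 ≤ k * m := Nat.mul_le_mul hk.1 (by omega)
        omega
      have b0 : 0 ≤ ArithmeticFunction.vonMangoldt n := ArithmeticFunction.vonMangoldt_nonneg
      have b1 : ArithmeticFunction.vonMangoldt n ≤ 2 * L := by
        refine ArithmeticFunction.vonMangoldt_le_log.trans ?_
        exact (Real.log_le_log (by exact_mod_cast hn1) (by exact_mod_cast hnN)).trans hN2
      have b2 : 0 ≤ lamz z n := by
        unfold lamz
        split_ifs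
        · exact hV0
        · exact le_rfl
      have b3 : lamz z n ≤ L := by
        unfold lamz
        split_ifs
        · exact hVz
        · linarith
      unfold Ez
      have b4 : ArithmeticFunction.vonMangoldt n ^ 2 ≤ 2 * L * ArithmeticFunction.vonMangoldt n := by
        rw [sq]
        exact mul_le_mul_of_nonneg_right b1 b0
      have b5 : lamz z n ^ 2 ≤ L * lamz z n := by
        rw [sq]
        exact mul_le_mul_of_nonneg_right b3 b2
      nlinarith [sq_nonneg (ArithmeticFunction.vonMangoldt n + lamz z n)]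
    calc ∑ m ∈ Ioc M (2 * M), Ez z (c + k * m) ^ 2
        ≤ ∑ m ∈ Ioc M (2 * M), (4 * L * ArithmeticFunction.vonMangoldt (c + k * m) +
          2 * L * lamz z (c + k * m)) := sum_le_sum hpt
      _ = 4 * L * ∑ m ∈ Ioc M (2 * M), ArithmeticFunction.vonMangoldt (c + k * m) +
          2 * L * ∑ m ∈ Ioc M (2 * M), lamz z (c + k * m) := by
          rw [sum_add_distrib, mul_sum, mul_sum]
      _ ≤ 4 * L * (M * ((k : ℝ) / (Nat.totient k : ℝ) + 1)) +
          2 * L * (M * ((k : ℝ) / (Nat.totient k : ℝ) + 1)) := by gcongr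
      _ = _ := by ring
  calc ∑ k ∈ Icc 1 K, ∑ m ∈ Ioc M (2 * M), Ez z (c + k * m) ^ 2
      ≤ ∑ k ∈ Icc 1 K, 6 * L * (M * ((k : ℝ) / (Nat.totient k : ℝ) + 1)) := sum_le_sum key
    _ = 6 * L * (M * (∑ k ∈ Icc 1 K, ((k : ℝ) / (Nat.totient k : ℝ)) + K)) := by
        rw [← mul_sum, ← mul_sum, sum_add_distrib]
        simp
    _ ≤ 6 * L * (M * (C * K + K)) := by
        have := hC K
        gcongr
    _ = _ := by ring

end Pool.Agent.W109.LT
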