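import Mathlib
import Pool.Agent.W109.LT.Defs
import Pool.Agent.W41.Core
import Pool.Agent.H373R2.T7.LamZ2

/-! The main term: products over primes. -/

set_option autoImplicit false

namespace Pool.Agent.W109.LT

open Finset Pool.Agent.H373R2.T7

/-- `(Vz z)⁻¹ ≤ C (log log M) ^ 2` -/
lemma Vz_inv_ll (E : ℕ) : ∃ C : ℝ, 0 < C ∧ ∃ M0 : ℕ, ∀ M : ℕ, M0 ≤ M → ∀ z : ℕ, 1 ≤ z →
    (z : ℝ) ≤ Real.log M ^ E → (Vz z)⁻¹ ≤ C * Real.log (Real.log M) ^ 2 := by
  obtain ⟨C, hC⟩ := Pool.Agent.Helper256.KM.mertens_inv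
  obtain ⟨M0, h0⟩ := ev_L' (Real.exp 2)
  refine ⟨Real.exp (2 * C) * (E : ℝ) ^ 2 + 3, by positivity, M0, fun M hM z hz hzE => ?_⟩
  have hL := h0 M hM
  have hll : 2 ≤ Real.log (Real.log M) := by
    have := Real.log_le_log (Real.exp_pos 2) hL
    rwa [Real.log_exp] at this
  rcases lt_or_ge z 3 with h3 | h3
  · refine (Vz_inv_le z hz).trans ?_
    have h4 : (z : ℝ) ≤ 3 := by exact_mod_cast h3.le
    have h5 : 0 ≤ Real.exp (2 * C) * (E : ℝ) ^ 2 := by positivity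
    have h6 : 1 ≤ Real.log (Real.log M) ^ 2 := by nlinarith
    nlinarith
  have h4 := hC z h3
  have h5 : (Vz z)⁻¹ ≤ Real.exp (2 * ∑ p ∈ pz z, 1 / (p : ℝ)) := by
    unfold Vz
    rw [← prod_inv_distrib, mul_sum, Real.exp_sum]
    apply prod_le_prod
    · intro p hp
      have hp2 : (2 : ℝ) ≤ p := by exact_mod_cast (mem_pz.1 hp).2.two_le
      apply inv_nonneg.2
      rw [sub_nonneg, div_le_one (by linarith)]; linarith
    · intro p hp
      have hp2 : (2 : ℝ) ≤ p := by exact_mod_cast (mem_pz.1 hp).2.two_le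
      have h6 : (1 - 1 / (p : ℝ))⁻¹ ≤ 2 * (1 / p) + 1 := by
        rw [inv_le_iff_one_le_mul₀ (by rw [sub_pos, div_lt_one (by linarith)]; linarith)]
        have h7 : 0 < 1 / (p : ℝ) := by positivity
        have h8 : 1 / (p : ℝ) ≤ 1 / 2 := one_div_le_one_div_of_le (by norm_num) hp2
        nlinarith
      exact h6.trans (Real.add_one_le_exp _)
  have hz3 : (3 : ℝ) ≤ z := by exact_mod_cast h3
  have hlz : 1 ≤ Real.log z := by
    rw [← Real.log_exp 1]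
    apply Real.log_le_log (Real.exp_pos _)
    have := Real.exp_one_lt_d9
    linarith
  have h6 : ∑ p ∈ pz z, 1 / (p : ℝ) ≤ Real.log (Real.log z) + C := by
    have := (abs_le.1 h4).2
    unfold pz
    linarith
  have h7 : Real.log z ≤ E * Real.log (Real.log M) := by
    have h8 := Real.log_le_log (by linarith) hzE
    rw [Real.log_pow] at h8
    exact h8
  calc (Vz z)⁻¹ ≤ Real.exp (2 * ∑ p ∈ pz z, 1 / (p : ℝ)) := h5
    _ ≤ Real.exp (2 * (Real.log (Real.log z) + C)) := Real.exp_le_exp.2 (by linarith)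
    _ = Real.exp (2 * C) * Real.log z ^ 2 := by
        rw [mul_add, Real.exp_add, mul_comm 2 (Real.log (Real.log z)), Real.exp_mul, Real.exp_log (by linarith)]
        norm_num
        ring
    _ ≤ Real.exp (2 * C) * (E * Real.log (Real.log M)) ^ 2 := by gcongr
    _ = (Real.exp (2 * C) * (E : ℝ) ^ 2) * Real.log (Real.log M) ^ 2 := by ring
    _ ≤ _ := by
        apply mul_le_mul_of_nonneg_right _ (by positivity)
        linarith

lemma fac01 {p : ℕ} (hp : p.Prime) : 0 < 1 - 1 / (p : ℝ) ∧ 1 - 1 / (p : ℝ) ≤ 1 := by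
  have h2 : (2 : ℝ) ≤ p := by exact_mod_cast hp.two_le
  have h3 : 1 / (p : ℝ) ≤ 1 / 2 := one_div_le_one_div_of_le (by norm_num) h2
  have h4 : 0 ≤ 1 / (p : ℝ) := by positivity
  constructor <;> linarith

lemma prod01 (S : Finset ℕ) (hS : ∀ p ∈ S, p.Prime) :
    0 < ∏ p ∈ S, (1 - 1 / (p : ℝ)) ∧ ∏ p ∈ S, (1 - 1 / (p : ℝ)) ≤ 1 :=
  ⟨prod_pos fun p hp => (fac01 (hS p hp)).1,
    prod_le_one (fun p hp => (fac01 (hS p hp)).1.le) fun p hp => (fac01 (hS p hp)).2⟩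

lemma prod_ge (S : Finset ℕ) (hS : ∀ p ∈ S, p.Prime) :
    1 - ∑ p ∈ S, 1 / (p : ℝ) ≤ ∏ p ∈ S, (1 - 1 / (p : ℝ)) := by
  classical
  induction S using Finset.induction_on with
  | empty => simp
  | insert a S ha ih =>
    rw [sum_insert ha, prod_insert ha]
    have h1 := ih fun p hp => hS p (mem_insert_of_mem hp)
    have h2 := prod01 S fun p hp => hS p (mem_insert_of_mem hp)
    have h3 := fac01 (hS a (mem_insert_self a S))
    have h4 : (0 : ℝ) ≤ 1 / (a : ℝ) := by positivity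
    nlinarith [h2.1, h2.2]

/-- `φ(m) / m` as a product of two pieces -/
lemma tot_split (m y : ℕ) (hm : 1 ≤ m) :
    (Nat.totient m : ℝ) = m * ((∏ p ∈ (pz y).filter (fun p => p ∣ m), (1 - 1 / (p : ℝ))) *
      ∏ p ∈ m.primeFactors.filter (fun p => y < p), (1 - 1 / (p : ℝ))) := by
  have h1 : (Nat.totient m : ℝ) = m * ∏ p ∈ m.primeFactors, (1 - 1 / (p : ℝ)) := by
    have h := Nat.totient_eq_mul_prod_factors m
    have h2 : ((Nat.totient m : ℚ) : ℝ) = ((m * ∏ p ∈ m.primeFactors, (1 - (p : ℚ)⁻¹) : ℚ) : ℝ) := by rw [h]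
    push_cast at h2
    rw [h2]
    congr 1
    apply prod_congr rfl
    intro p _
    rw [one_div]
  rw [h1]
  congr 1
  rw [← prod_filter_mul_prod_filter_not m.primeFactors (fun p => p ≤ y)]
  congr 1
  · apply prod_congr _ fun _ _ => rfl
    ext p
    rw [mem_filter, mem_filter, mem_pz, Nat.mem_primeFactors]
    constructor
    · rintro ⟨⟨h1, h2, _⟩, h3⟩; exact ⟨⟨h3, h1⟩, h2⟩
    · rintro ⟨⟨h3, h1⟩, h2⟩; exact ⟨⟨h1, h2, by omega⟩, h3⟩
  · apply prod_congr _ fun _ _ => rfl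
    ext p
    rw [mem_filter, mem_filter, not_le]

/-- the splitting of `Vz z` -/
lemma Vz_split (y z c m : ℕ) (hyz : y ≤ z) :
    Vz z = (∏ p ∈ (pz y).filter (fun p => ¬ p ∣ m), (1 - 1 / (p : ℝ))) *
      (∏ p ∈ (pz y).filter (fun p => p ∣ m), (1 - 1 / (p : ℝ))) *
      (V1 y z c * ∏ p ∈ (pz z).filter (fun p => y < p ∧ p ∣ c), (1 - 1 / (p : ℝ))) := by
  classical
  unfold Vz V1
  rw [mul_comm (∏ p ∈ (pz y).filter (fun p => ¬ p ∣ m), (1 - 1 / (p : ℝ))),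
    prod_filter_mul_prod_filter_not (pz y) (fun p => p ∣ m)]
  have e1 : (pz z).filter (fun p => y < p ∧ ¬ p ∣ c) = ((pz z).filter (fun p => y < p)).filter (fun p => ¬ p ∣ c) := by
    rw [filter_filter]
  have e2 : (pz z).filter (fun p => y < p ∧ p ∣ c) = ((pz z).filter (fun p => y < p)).filter (fun p => p ∣ c) := by
    rw [filter_filter]
  have e3 : ∏ p ∈ (pz z).filter (fun p => y < p ∧ ¬ p ∣ c), (1 - 1 / (p : ℝ)) =
      ∏ p ∈ ((pz z).filter (fun p => y < p)).filter (fun p => ¬ p ∣ c), (1 - 1 / (p : ℝ)) := by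
    apply prod_congr _ fun _ _ => rfl
    ext p; simp only [mem_filter]; tauto
  rw [e3, e2, mul_comm (∏ p ∈ ((pz z).filter (fun p => y < p)).filter (fun p => ¬ p ∣ c), (1 - 1 / (p : ℝ))),
    prod_filter_mul_prod_filter_not ((pz z).filter (fun p => y < p)) (fun p => p ∣ c)]
  rw [← prod_filter_mul_prod_filter_not (pz z) (fun p => p ≤ y)]
  congr 1
  · apply prod_congr _ fun _ _ => rfl
    ext p
    rw [mem_filter, mem_pz, mem_pz]
    constructor
    · rintro ⟨⟨_, h1⟩, h2⟩; exact ⟨h2, h1⟩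
    · rintro ⟨h2, h1⟩; exact ⟨⟨by omega, h1⟩, h2⟩
  · apply prod_congr _ fun _ _ => rfl
    ext p
    rw [mem_filter, mem_filter, not_le]

/-- the final inequality -/
lemma fin_ineq (ε K VP A W Bc D Ks X R T V : ℝ) (hε : 0 < ε) (hε1 : ε ≤ 1 / 10) (hK : 0 ≤ K)
    (hVP : 0 < VP) (hA : 0 < A) (hA1 : A ≤ 1) (hW : 0 < W) (hB : 1 - ε ≤ Bc) (hB1 : Bc ≤ 1)
    (hD : 1 - ε ≤ D) (hD1 : D ≤ 1) (hV : V = VP * A * (W * Bc))
    (ha : |Ks - K * VP| ≤ ε * (K * VP)) (hb : |X - W * Ks| ≤ ε * (W * Ks)) (hc1 : X - K * T ≤ R)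
    (hc2 : R ≤ X) (hf : V⁻¹ * T ≤ ε) :
    |V⁻¹ * R - K * (1 / (A * D))| ≤ 4 * ε * (K * (1 / (A * D))) := by
  have hBp : 0 < Bc := by linarith
  have hDp : 0 < D := by linarith
  have hVpos : 0 < V := by rw [hV]; positivity
  obtain ⟨a1, a2⟩ := abs_le.1 ha
  obtain ⟨b1, b2⟩ := abs_le.1 hb
  have hKVP : 0 ≤ K * VP := by positivity
  have hKs : 0 ≤ Ks := by nlinarith
  have hAD : 0 < A * D := by positivity
  have hAD1 : A * D ≤ 1 := by nlinarith
  have hV1 : 0 < V⁻¹ := inv_pos.2 hVpos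
  set Y : ℝ := K * (1 / (A * D)) with hY
  have hY0 : 0 ≤ Y := by positivity
  have hKY : K ≤ Y := by
    rw [hY, mul_one_div, le_div_iff₀ hAD]
    nlinarith
  -- K / A
  have hKA : K / A = Y * D := by
    rw [hY]; field_simp
  have hKA1 : K / A ≤ Y := by rw [hKA]; nlinarith
  have hKA2 : (1 - ε) * Y ≤ K / A := by rw [hKA]; nlinarith
  have hKA0 : 0 ≤ K / A := by positivity
  -- upper bound
  have u1 : X ≤ (1 + ε) * (W * ((1 + ε) * (K * VP))) := by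
    have h1 : X ≤ (1 + ε) * (W * Ks) := by linarith
    have h2 : Ks ≤ (1 + ε) * (K * VP) := by linarith
    refine h1.trans ?_
    apply mul_le_mul_of_nonneg_left _ (by linarith)
    exact mul_le_mul_of_nonneg_left h2 hW.le
  have l1 : (1 - ε) * (W * ((1 - ε) * (K * VP))) ≤ X := by
    have h1 : (1 - ε) * (W * Ks) ≤ X := by linarith
    have h2 : (1 - ε) * (K * VP) ≤ Ks := by linarith
    refine le_trans ?_ h1
    apply mul_le_mul_of_nonneg_left _ (by linarith)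
    exact mul_le_mul_of_nonneg_left h2 hW.le
  have e1 : ∀ t : ℝ, V⁻¹ * (t * (W * (t * (K * VP)))) = t ^ 2 * (K / A) / Bc := by
    intro t
    rw [hV]
    field_simp
  have u2 : V⁻¹ * R ≤ (1 + ε) ^ 2 * (K / A) / Bc := by
    rw [← e1]
    exact mul_le_mul_of_nonneg_left (hc2.trans u1) hV1.le
  have u3 : (1 + ε) ^ 2 * (K / A) / Bc ≤ (1 + 4 * ε) * Y := by
    rw [div_le_iff₀ hBp]
    have h1 : (1 + ε) ^ 2 * (K / A) ≤ (1 + ε) ^ 2 * Y := mul_le_mul_of_nonneg_left hKA1 (by positivity)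
    have h2 : (1 + ε) ^ 2 ≤ (1 + 4 * ε) * (1 - ε) := by nlinarith
    have h3 : (1 + ε) ^ 2 * Y ≤ (1 + 4 * ε) * (1 - ε) * Y := mul_le_mul_of_nonneg_right h2 hY0
    have h4 : (1 + 4 * ε) * Y * (1 - ε) ≤ (1 + 4 * ε) * Y * Bc := mul_le_mul_of_nonneg_left hB (by positivity)
    linarith
  have l2 : (1 - ε) ^ 2 * (K / A) / Bc - ε * K ≤ V⁻¹ * R := by
    have h1 : V⁻¹ * ((1 - ε) * (W * ((1 - ε) * (K * VP))) - K * T) ≤ V⁻¹ * R :=
      mul_le_mul_of_nonneg_left (by linarith) hV1.le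
    have h2 : V⁻¹ * (K * T) ≤ ε * K := by
      calc V⁻¹ * (K * T) = (V⁻¹ * T) * K := by ring
        _ ≤ ε * K := mul_le_mul_of_nonneg_right hf hK
    rw [mul_sub, e1] at h1
    linarith
  have l3 : (1 - ε) ^ 3 * Y ≤ (1 - ε) ^ 2 * (K / A) / Bc := by
    rw [le_div_iff₀ hBp]
    have h1 : (1 - ε) ^ 2 * ((1 - ε) * Y) ≤ (1 - ε) ^ 2 * (K / A) := mul_le_mul_of_nonneg_left hKA2 (by positivity)
    have h2 : (1 - ε) ^ 3 * Y * Bc ≤ (1 - ε) ^ 3 * Y := by
      have : 0 ≤ (1 - ε) ^ 3 * Y := mul_nonneg (pow_nonneg (by linarith) 3) hY0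
      nlinarith
    calc (1 - ε) ^ 3 * Y * Bc ≤ (1 - ε) ^ 3 * Y := h2
      _ = (1 - ε) ^ 2 * ((1 - ε) * Y) := by ring
      _ ≤ _ := h1
  have l4 : (1 - 3 * ε) ≤ (1 - ε) ^ 3 := by
    have : (1 - ε) ^ 3 = 1 - 3 * ε + 3 * ε ^ 2 - ε ^ 3 := by ring
    rw [this]
    have : ε ^ 3 ≤ ε ^ 2 := pow_le_pow_of_le_one hε.le (by linarith) (by norm_num)
    nlinarith [sq_nonneg ε]
  rw [abs_le]
  constructor
  · have h1 := mul_le_mul_of_nonneg_right l4 hY0
    have h2 : ε * K ≤ ε * Y := mul_le_mul_of_nonneg_left hKY hε.le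
    linarith
  · linarith

end Pool.Agent.W109.LT
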