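import Mathlib
import Pool.Agent.W109.LT.M1

/-! The main term: the model sum for almost all moduli. -/

set_option autoImplicit false

namespace Pool.Agent.W109.LT

open Finset Pool.Agent.H373R2.T7

lemma kset_card {ε : ℝ} (hε : 0 < ε) : ∃ Kf y0 : ℕ, 1 ≤ Kf ∧ 2 ≤ y0 ∧ ∀ y : ℕ, y0 ≤ y → ∀ K : ℕ, y ^ Kf ≤ K →
    ∀ m c : ℕ, m.Coprime c →
    |((Kset y c m K).card : ℝ) - K * ∏ p ∈ (pz y).filter (fun p => ¬ p ∣ m), (1 - 1 / (p : ℝ))| ≤
      ε * (K * ∏ p ∈ (pz y).filter (fun p => ¬ p ∣ m), (1 - 1 / (p : ℝ))) := by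
  classical
  obtain ⟨Kf, y0, hK, hy0, h⟩ := Pool.Agent.W41.fund_ap hε
  refine ⟨Kf, y0, hK, hy0, fun y hy K hyK m c hmc => ?_⟩
  have h1 := h y hy K hyK ((pz y).filter (fun p => ¬ p ∣ m)) (fun p hp => by
    rw [mem_filter, mem_pz] at hp
    exact ⟨hp.1.2, hp.1.1⟩) (c : ℤ) (m : ℤ) (fun p hp hd => by
    rw [mem_filter] at hp
    exact hp.2 (by exact_mod_cast hd))
  have e : (Icc 1 K).filter (fun n : ℕ => ∀ p ∈ (pz y).filter (fun p => ¬ p ∣ m), ¬ (p : ℤ) ∣ (c : ℤ) + (m : ℤ) * n) =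
      Kset y c m K := by
    unfold Kset
    apply filter_congr
    intro k _
    have hcast : ∀ p : ℕ, ((p : ℤ) ∣ (c : ℤ) + (m : ℤ) * k) ↔ p ∣ c + k * m := by
      intro p
      have : (c : ℤ) + (m : ℤ) * k = ((c + k * m : ℕ) : ℤ) := by push_cast; ring
      rw [this]
      exact Int.natCast_dvd_natCast
    constructor
    · intro h2 p hp
      by_cases hpm : p ∣ m
      · intro hd
        have h3 : p ∣ c := (Nat.dvd_add_left (Dvd.dvd.mul_left hpm k)).1 hd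
        have h4 : p ∣ Nat.gcd m c := Nat.dvd_gcd hpm h3
        rw [hmc] at h4
        exact (mem_pz.1 hp).2.one_lt.ne' (Nat.dvd_one.1 h4)
      · intro hd
        exact h2 p (mem_filter.2 ⟨hp, hpm⟩) ((hcast p).2 hd)
    · intro h2 p hp hd
      exact h2 p (mem_filter.1 hp).1 ((hcast p).1 hd)
  have h2 : Pool.Agent.W41.V ((pz y).filter (fun p => ¬ p ∣ m)) =
      ∏ p ∈ (pz y).filter (fun p => ¬ p ∣ m), (1 - 1 / (p : ℝ)) := rfl
  rw [h2, e] at h1
  exact h1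

lemma sum_lamz (z c m K : ℕ) : ∑ k ∈ Icc 1 K, lamz z (c + k * m) = (Vz z)⁻¹ * ((Kset z c m K).card : ℝ) := by
  classical
  unfold lamz Kset
  rw [← sum_filter, sum_const, nsmul_eq_mul, mul_comm]

lemma R_le_X (y z c m K : ℕ) (hyz : y ≤ z) : ((Kset z c m K).card : ℝ) ≤ ((Xset y z c m K).card : ℝ) := by
  classical
  have : Kset z c m K ⊆ Xset y z c m K := by
    intro k hk
    unfold Xset Kset
    unfold Kset at hk
    rw [mem_filter] at hk
    rw [mem_filter, mem_filter]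
    refine ⟨⟨hk.1, fun p hp => hk.2 p (mem_pz.2 ⟨(mem_pz.1 hp).1.trans hyz, (mem_pz.1 hp).2⟩)⟩,
      fun p hp _ _ => hk.2 p hp⟩
  exact_mod_cast card_le_card this

lemma card_mult (K p : ℕ) (_hp : 0 < p) : ((((Icc 1 K).filter (fun k => p ∣ k)).card : ℕ) : ℝ) ≤ K * (1 / (p : ℝ)) := by
  have h1 : (Icc 1 K).filter (fun k => p ∣ k) = (Ioc 0 K).filter (fun k => p ∣ k) := by
    ext k; simp only [mem_filter, mem_Icc, mem_Ioc]; constructor <;> rintro ⟨⟨h1, h2⟩, h3⟩ <;> exact ⟨⟨by omega, h2⟩, h3⟩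
  rw [h1, Nat.Ioc_filter_dvd_card_eq_div, mul_one_div]
  exact Nat.cast_div_le

lemma X_le_R (M r E y z c m K : ℕ) (hc : 1 ≤ c) (hy : Real.log M < ((y : ℝ) + 1) ^ r)
    (hz : (z : ℝ) ≤ Real.log M ^ E) (hmc : m.Coprime c) :
    ((Xset y z c m K).card : ℝ) - K * TT M r E c ≤ ((Kset z c m K).card : ℝ) := by
  classical
  set F : Finset ℕ := c.primeFactors.filter (fun p : ℕ => Real.log M < (p : ℝ) ^ r ∧ (p : ℝ) ≤ Real.log M ^ E) with hF
  have hsub : Xset y z c m K ⊆ Kset z c m K ∪ F.biUnion (fun p => (Icc 1 K).filter (fun k => p ∣ k)) := by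
    intro k hk
    unfold Xset Kset at hk
    rw [mem_filter, mem_filter] at hk
    rw [mem_union]
    by_cases h : ∀ p ∈ pz z, ¬ p ∣ c + k * m
    · left
      unfold Kset
      rw [mem_filter]
      exact ⟨hk.1.1, h⟩
    · right
      push Not at h
      obtain ⟨p, hp, hpd⟩ := h
      have hpp := (mem_pz.1 hp).2
      have hpy : y < p := by
        by_contra hcon
        exact hk.1.2 p (mem_pz.2 ⟨by omega, hpp⟩) hpd
      have hpc : p ∣ c := by
        by_contra hcon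
        exact hk.2 p hp hpy hcon hpd
      have hpm : ¬ p ∣ m := by
        intro h1
        have h4 : p ∣ Nat.gcd m c := Nat.dvd_gcd h1 hpc
        rw [hmc] at h4
        exact hpp.one_lt.ne' (Nat.dvd_one.1 h4)
      have hpk : p ∣ k := by
        have h1 : p ∣ k * m := (Nat.dvd_add_right hpc).1 hpd
        exact (hpp.dvd_mul.1 h1).resolve_right hpm
      rw [mem_biUnion]
      refine ⟨p, ?_, mem_filter.2 ⟨hk.1.1, hpk⟩⟩
      rw [hF, mem_filter, Nat.mem_primeFactors]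
      refine ⟨⟨hpp, hpc, by omega⟩, ?_, ?_⟩
      · refine hy.trans_le ?_
        apply pow_le_pow_left₀ (by positivity)
        exact_mod_cast hpy
      · refine le_trans ?_ hz
        exact_mod_cast (mem_pz.1 hp).1
  have h1 := (card_le_card hsub).trans (card_union_le _ _)
  have h2 : ((F.biUnion (fun p => (Icc 1 K).filter (fun k => p ∣ k))).card : ℝ) ≤ K * TT M r E c := by
    have h3 : ((F.biUnion (fun p => (Icc 1 K).filter (fun k => p ∣ k))).card : ℝ) ≤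
        ∑ p ∈ F, (((Icc 1 K).filter (fun k => p ∣ k)).card : ℝ) := by
      exact_mod_cast card_biUnion_le
    refine h3.trans ?_
    unfold TT
    rw [← hF, mul_sum]
    apply sum_le_sum
    intro p hp
    rw [hF, mem_filter, Nat.mem_primeFactors] at hp
    exact card_mult K p hp.1.1.pos
  have h3 : ((Xset y z c m K).card : ℝ) ≤ ((Kset z c m K).card : ℝ) +
      ((F.biUnion (fun p => (Icc 1 K).filter (fun k => p ∣ k))).card : ℝ) := by exact_mod_cast h1
  linarith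

lemma sum_big (M y : ℕ) (hy : 1 ≤ y) :
    ∑ m ∈ Ioc M (2 * M), ∑ p ∈ m.primeFactors.filter (fun p => y < p), 1 / (p : ℝ) ≤ 2 * M / y := by
  classical
  have h1 : ∀ m ∈ Ioc M (2 * M), ∑ p ∈ m.primeFactors.filter (fun p => y < p), 1 / (p : ℝ) ≤
      ∑ n ∈ Ioc y (2 * M), if n ∣ m then 1 / (n : ℝ) else 0 := by
    intro m hm
    rw [mem_Ioc] at hm
    rw [← sum_filter]
    apply sum_le_sum_of_subset_of_nonneg
    · intro p hp
      rw [mem_filter, Nat.mem_primeFactors] at hp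
      rw [mem_filter, mem_Ioc]
      refine ⟨⟨hp.2, (Nat.le_of_dvd (by omega) hp.1.2.1).trans hm.2⟩, hp.1.2.1⟩
    · intro _ _ _; positivity
  refine (sum_le_sum h1).trans ?_
  rw [sum_comm]
  have h2 : ∀ n ∈ Ioc y (2 * M), ∑ m ∈ Ioc M (2 * M), (if n ∣ m then 1 / (n : ℝ) else 0) ≤
      2 * M * ((n : ℝ) ^ 2)⁻¹ := by
    intro n hn
    rw [mem_Ioc] at hn
    rw [← sum_filter, sum_const, nsmul_eq_mul]
    have h3 : (((Ioc M (2 * M)).filter (fun m => n ∣ m)).card : ℝ) ≤ ((2 * M : ℕ) : ℝ) * (1 / (n : ℝ)) := by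
      refine le_trans ?_ (card_mult (2 * M) n (by omega))
      exact_mod_cast card_le_card (filter_subset_filter _ (fun m hm => by
        rw [mem_Ioc] at hm; rw [mem_Icc]; omega))
    have hn0 : (0 : ℝ) < n := by exact_mod_cast (by omega : 0 < n)
    calc (((Ioc M (2 * M)).filter (fun m => n ∣ m)).card : ℝ) * (1 / (n : ℝ)) ≤
          ((2 * M : ℕ) : ℝ) * (1 / (n : ℝ)) * (1 / (n : ℝ)) := mul_le_mul_of_nonneg_right h3 (by positivity)
      _ = _ := by push_cast; field_simp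
  refine (sum_le_sum h2).trans ?_
  rw [← mul_sum]
  have h3 : ∑ n ∈ Ioc y (2 * M), ((n : ℝ) ^ 2)⁻¹ ≤ (y : ℝ)⁻¹ := by
    rcases le_or_gt y (2 * M) with h | h
    · have := sum_Ioc_inv_sq_le_sub (α := ℝ) (k := y) (n := 2 * M) (by omega) h
      have h4 : (0 : ℝ) ≤ (((2 * M : ℕ) : ℝ))⁻¹ := by positivity
      linarith
    · rw [Ioc_eq_empty (by omega), sum_empty]
      positivity
  calc 2 * (M : ℝ) * ∑ n ∈ Ioc y (2 * M), ((n : ℝ) ^ 2)⁻¹ ≤ 2 * M * (y : ℝ)⁻¹ :=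
        mul_le_mul_of_nonneg_left h3 (by positivity)
    _ = _ := by rw [div_eq_mul_inv]

/-- few moduli have many large prime factors -/
lemma few_big (M y : ℕ) (hy : 1 ≤ y) {ε : ℝ} (hε : 0 < ε) :
    (((Ioc M (2 * M)).filter (fun m : ℕ => ε < ∑ p ∈ m.primeFactors.filter (fun p => y < p), 1 / (p : ℝ))).card : ℝ) ≤
      2 * M / (ε * y) := by
  have h1 := sum_big M y hy
  set T := (Ioc M (2 * M)).filter (fun m : ℕ => ε < ∑ p ∈ m.primeFactors.filter (fun p => y < p), 1 / (p : ℝ)) with hT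
  have h2 : (T.card : ℝ) * ε ≤ ∑ m ∈ T, ∑ p ∈ m.primeFactors.filter (fun p => y < p), 1 / (p : ℝ) := by
    rw [← nsmul_eq_mul, ← sum_const]
    apply sum_le_sum
    intro m hm
    rw [hT, mem_filter] at hm
    exact hm.2.le
  have h3 : ∑ m ∈ T, ∑ p ∈ m.primeFactors.filter (fun p => y < p), 1 / (p : ℝ) ≤
      ∑ m ∈ Ioc M (2 * M), ∑ p ∈ m.primeFactors.filter (fun p => y < p), 1 / (p : ℝ) :=
    sum_le_sum_of_subset_of_nonneg (filter_subset _ _) (fun _ _ _ => sum_nonneg fun _ _ => by positivity)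
  have h4 : (T.card : ℝ) * ε ≤ 2 * M / y := (h2.trans h3).trans h1
  have hy0 : (0 : ℝ) < y := by exact_mod_cast hy
  rw [le_div_iff₀ (by positivity)]
  rw [le_div_iff₀ hy0] at h4
  linarith

/-- few moduli have atypical sifted counts -/
lemma few_var (M y z K c : ℕ) (hyz : y ≤ z) {B ε : ℝ} (hε : 0 < ε) (hK : 1 ≤ K)
    (hS : ∑ m ∈ Ioc M (2 * M), (((Xset y z c m K).card : ℝ) - V1 y z c * ((Kset y c m K).card : ℝ)) ^ 2 ≤ B)
    (hc : ∀ m ∈ Ioc M (2 * M), m.Coprime c → (K : ℝ) * ∏ p ∈ (pz y).filter (fun p => ¬ p ∣ m), (1 - 1 / (p : ℝ)) ≤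
      2 * ((Kset y c m K).card : ℝ)) :
    (((Ioc M (2 * M)).filter (fun m : ℕ => m.Coprime c ∧ ¬ |((Xset y z c m K).card : ℝ) - V1 y z c * ((Kset y c m K).card : ℝ)| ≤
      ε * (V1 y z c * ((Kset y c m K).card : ℝ)))).card : ℝ) ≤ 4 * B / (ε * (K * Vz z)) ^ 2 := by
  classical
  set T := (Ioc M (2 * M)).filter (fun m : ℕ => m.Coprime c ∧ ¬ |((Xset y z c m K).card : ℝ) - V1 y z c * ((Kset y c m K).card : ℝ)| ≤
      ε * (V1 y z c * ((Kset y c m K).card : ℝ))) with hT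
  have hKr : (1 : ℝ) ≤ K := by exact_mod_cast hK
  have hV := Vz_pos z
  have h2 : (T.card : ℝ) * ((ε * (K * Vz z)) ^ 2 / 4) ≤ ∑ m ∈ T, (((Xset y z c m K).card : ℝ) - V1 y z c * ((Kset y c m K).card : ℝ)) ^ 2 := by
    rw [← nsmul_eq_mul, ← sum_const]
    apply sum_le_sum
    intro m hm
    rw [hT, mem_filter] at hm
    obtain ⟨hm1, hm2, hm3⟩ := hm
    rw [not_le] at hm3
    have h4 := hc m hm1 hm2
    have hP1 := prod01 ((pz y).filter (fun p => ¬ p ∣ m)) (fun p hp => (mem_pz.1 (mem_filter.1 hp).1).2)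
    have hP2 := prod01 ((pz y).filter (fun p => p ∣ m)) (fun p hp => (mem_pz.1 (mem_filter.1 hp).1).2)
    have hP3 := prod01 ((pz z).filter (fun p => y < p ∧ p ∣ c)) (fun p hp => (mem_pz.1 (mem_filter.1 hp).1).2)
    have hV1 : 0 < V1 y z c := prod_pos fun p hp => (fac01 (mem_pz.1 (mem_filter.1 hp).1).2).1
    have h5 : K * Vz z ≤ 2 * (V1 y z c * ((Kset y c m K).card : ℝ)) := by
      rw [Vz_split y z c m hyz]
      set a := ∏ p ∈ (pz y).filter (fun p => ¬ p ∣ m), (1 - 1 / (p : ℝ)) with ha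
      set b := ∏ p ∈ (pz y).filter (fun p => p ∣ m), (1 - 1 / (p : ℝ)) with hb
      set d := ∏ p ∈ (pz z).filter (fun p => y < p ∧ p ∣ c), (1 - 1 / (p : ℝ)) with hd
      have h6 : a * b * (V1 y z c * d) ≤ a * V1 y z c := by
        have h7 : b * d ≤ 1 := by nlinarith [hP2.1, hP2.2, hP3.1, hP3.2]
        have h8 : 0 ≤ a * V1 y z c := mul_nonneg hP1.1.le hV1.le
        calc a * b * (V1 y z c * d) = (a * V1 y z c) * (b * d) := by ring
          _ ≤ (a * V1 y z c) * 1 := mul_le_mul_of_nonneg_left h7 h8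
          _ = _ := mul_one _
      calc (K : ℝ) * (a * b * (V1 y z c * d)) ≤ K * (a * V1 y z c) := mul_le_mul_of_nonneg_left h6 (by linarith)
        _ = V1 y z c * (K * a) := by ring
        _ ≤ V1 y z c * (2 * ((Kset y c m K).card : ℝ)) := mul_le_mul_of_nonneg_left h4 hV1.le
        _ = _ := by ring
    have h6 : 0 ≤ ε * (K * Vz z) := by positivity
    have h7 : ε * (K * Vz z) ≤ 2 * |((Xset y z c m K).card : ℝ) - V1 y z c * ((Kset y c m K).card : ℝ)| := by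
      have h8 : ε * (K * Vz z) ≤ ε * (2 * (V1 y z c * ((Kset y c m K).card : ℝ))) := mul_le_mul_of_nonneg_left h5 hε.le
      linarith
    have h8 := pow_le_pow_left₀ h6 h7 2
    rw [mul_pow 2, sq_abs] at h8
    linarith
  have h3 : ∑ m ∈ T, (((Xset y z c m K).card : ℝ) - V1 y z c * ((Kset y c m K).card : ℝ)) ^ 2 ≤ B :=
    (sum_le_sum_of_subset_of_nonneg (filter_subset _ _) (fun _ _ _ => sq_nonneg _)).trans hS
  have h4 := h2.trans h3
  have h5 : 0 < (ε * (K * Vz z)) ^ 2 := by positivity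
  rw [le_div_iff₀ h5]
  linarith

end Pool.Agent.W109.LT
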