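import Mathlib
import Pool.Agent.W109.LT.M2

/-! The main term: the model sum for almost all moduli. -/

set_option autoImplicit false

namespace Pool.Agent.W109.LT

open Finset Pool.Agent.H373R2.T7

lemma ev_ll (C a : ℝ) (n : ℕ) (ha : 0 < a) : ∃ M0 : ℕ, ∀ M : ℕ, M0 ≤ M →
    C * Real.log (Real.log M) ^ n ≤ Real.log M ^ a := by
  have h := (isLittleO_log_rpow_rpow_atTop (n : ℝ) ha).bound (show 0 < 1 / (|C| + 1) by positivity)
  have hlim : Filter.Tendsto (fun N : ℕ => Real.log (N : ℝ)) Filter.atTop Filter.atTop :=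
    Real.tendsto_log_atTop.comp (tendsto_natCast_atTop_atTop (R := ℝ))
  have h2 := hlim.eventually (h.and (Filter.eventually_ge_atTop 1))
  obtain ⟨M0, h0⟩ := Filter.eventually_atTop.1 h2
  refine ⟨M0, fun M hM => ?_⟩
  obtain ⟨h3, h4⟩ := h0 M hM
  have h5 : 0 ≤ Real.log (Real.log M) := Real.log_nonneg h4
  rw [Real.rpow_natCast, Real.norm_of_nonneg (by positivity), Real.norm_of_nonneg (by positivity),
    one_div, inv_mul_eq_div, le_div_iff₀ (by positivity)] at h3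
  have h6 : C ≤ |C| + 1 := by linarith [le_abs_self C]
  have h7 : 0 ≤ Real.log (Real.log M) ^ n := by positivity
  nlinarith

lemma ev_ll1 (C : ℝ) : ∃ M0 : ℕ, ∀ M : ℕ, M0 ≤ M → C ≤ Real.log (Real.log M) := by
  obtain ⟨M0, h0⟩ := ev_L' (Real.exp C)
  refine ⟨M0, fun M hM => ?_⟩
  have := Real.log_le_log (Real.exp_pos C) (h0 M hM)
  rwa [Real.log_exp] at this

open Classical in
theorem main_term (hKv : S_K) (ε : ℝ) (hε : 0 < ε) (hε1 : ε ≤ 1 / 10) : ∃ r : ℕ, 1 ≤ r ∧ ∀ κ E : ℕ,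
    ∃ M0 : ℕ, ∀ M : ℕ, M0 ≤ M → ∀ z K c : ℕ, Real.log M ≤ z → (z : ℝ) ≤ Real.log M ^ E →
    Real.log M / 2 ≤ K → (K : ℝ) ≤ Real.log M ^ κ → 1 ≤ c →
    TT M r E c ≤ 1 / Real.log (Real.log M) ^ 3 →
    (((Ioc M (2 * M)).filter (fun m : ℕ => m.Coprime c ∧
      ¬ |∑ k ∈ Icc 1 K, lamz z (c + k * m) - K * ((m : ℝ) / Nat.totient m)| ≤
        4 * ε * (K * ((m : ℝ) / Nat.totient m)))).card : ℝ) ≤ M / Real.log M ^ (1 / (2 * r) : ℝ) := by
  obtain ⟨Kf, y0, hKf, hy0, hks⟩ := kset_card hε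
  refine ⟨Kf + 1, by omega, fun κ E => ?_⟩
  set r := Kf + 1 with hr
  have hr0 : (0 : ℝ) < r := by exact_mod_cast (by omega : 0 < r)
  obtain ⟨Ck, hCk, M1, hvar⟩ := hKv κ E r
  obtain ⟨CV, hCV, M2, hVz⟩ := Vz_inv_ll E
  obtain ⟨M3, h3⟩ := ev_ll (2 * (2 / ε + 12 * Ck / ε ^ 2 * CV ^ 2)) (1 / (2 * r)) 4 (by positivity)
  obtain ⟨M4, h4⟩ := ev_ll1 (max (max 1 (CV / ε)) (1 / ε))
  obtain ⟨M5, h5⟩ := ev_L' ((y0 + 2 : ℝ) ^ r)
  refine ⟨max (max M1 M2) (max M3 (max M4 (max M5 3))), fun M hM z K c hLz hzE hK1 hK2 hc hTT => ?_⟩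
  have hM1 : M1 ≤ M := le_trans (le_trans (le_max_left _ _) (le_max_left _ _)) hM
  have hM2 : M2 ≤ M := le_trans (le_trans (le_max_right _ _) (le_max_left _ _)) hM
  have hM3 : M3 ≤ M := le_trans (le_trans (le_max_left _ _) (le_max_right _ _)) hM
  have hM4 : M4 ≤ M := le_trans (le_trans (le_trans (le_max_left _ _) (le_max_right _ _)) (le_max_right _ _)) hM
  have hM5 : M5 ≤ M := le_trans (le_trans (le_trans (le_trans (le_max_left _ _) (le_max_right _ _)) (le_max_right _ _)) (le_max_right _ _)) hM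
  have g3 := h3 M hM3
  have g4 := h4 M hM4
  have g5 := h5 M hM5
  set L := Real.log M with hL
  set l2 := Real.log L with hl2
  have hl1 : 1 ≤ l2 := ((le_max_left _ _).trans (le_max_left _ _)).trans g4
  have hlCV : CV / ε ≤ l2 := ((le_max_right _ _).trans (le_max_left _ _)).trans g4
  have hlε : 1 / ε ≤ l2 := (le_max_right _ _).trans g4
  have hL1 : (1 : ℝ) ≤ L := by
    refine le_trans ?_ g5
    apply one_le_pow₀
    have : (0 : ℝ) ≤ y0 := Nat.cast_nonneg _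
    linarith
  have hL0 : 0 < L := by linarith
  -- the choice of y
  set R : ℝ := L ^ (1 / (r : ℝ)) with hRd
  have hR0 : 0 < R := by positivity
  have hRr : R ^ r = L := by
    rw [hRd, ← Real.rpow_natCast, ← Real.rpow_mul hL0.le, one_div, inv_mul_cancel₀ hr0.ne', Real.rpow_one]
  have hRy : (y0 + 2 : ℝ) ≤ R := by
    by_contra hcon
    rw [not_le] at hcon
    have := pow_lt_pow_left₀ hcon hR0.le (by omega : r ≠ 0)
    rw [hRr] at this
    linarith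
  set y : ℕ := ⌊R⌋₊ with hy
  have hy1 : (y : ℝ) ≤ R := Nat.floor_le hR0.le
  have hy2 : R < (y : ℝ) + 1 := Nat.lt_floor_add_one R
  have hyy0 : y0 + 2 ≤ y := by
    apply Nat.le_floor
    push_cast
    exact hRy
  have hy02 : 2 ≤ y := by omega
  have hy0r : (0 : ℝ) < y := by exact_mod_cast (by omega : 0 < y)
  have hyr : (y : ℝ) ^ r ≤ L := by rw [← hRr]; exact pow_le_pow_left₀ hy0r.le hy1 r
  have hyr2 : L < ((y : ℝ) + 1) ^ r := by rw [← hRr]; exact pow_lt_pow_left₀ hy2 hR0.le (by omega)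
  have hyK : y ^ Kf ≤ K := by
    have h6 : (y : ℝ) ^ Kf * 2 ≤ L := by
      calc (y : ℝ) ^ Kf * 2 ≤ (y : ℝ) ^ Kf * y := by
            apply mul_le_mul_of_nonneg_left _ (by positivity)
            exact_mod_cast hy02
        _ = (y : ℝ) ^ r := by rw [hr, pow_succ]
        _ ≤ L := hyr
    have h7 : (y : ℝ) ^ Kf ≤ K := by linarith
    exact_mod_cast h7
  have hyz : y ≤ z := by
    have h6 : (y : ℝ) ≤ (y : ℝ) ^ r := le_self_pow₀ (by exact_mod_cast (by omega : 1 ≤ y)) (by omega)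
    have h7 : (y : ℝ) ≤ z := h6.trans (hyr.trans hLz)
    exact_mod_cast h7
  have hKpos : 1 ≤ K := (Nat.one_le_pow Kf y (by omega)).trans hyK
  have hKr : (1 : ℝ) ≤ K := by exact_mod_cast hKpos
  have hz1 : 1 ≤ z := by omega
  -- inputs
  have hv := hvar M hM1 y z K c (by omega) hyr2.le hyz hzE hK2
  have hVinv := hVz M hM2 z hz1 hzE
  have hVzp := Vz_pos z
  have hks' : ∀ m : ℕ, m.Coprime c → |((Kset y c m K).card : ℝ) - K * ∏ p ∈ (pz y).filter (fun p => ¬ p ∣ m), (1 - 1 / (p : ℝ))| ≤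
      ε * (K * ∏ p ∈ (pz y).filter (fun p => ¬ p ∣ m), (1 - 1 / (p : ℝ))) := fun m hm => hks y (by omega) K hyK m c hm
  have hb1 := few_big M y (by omega) hε
  have hb2 := few_var M y z K c hyz hε hKpos hv (fun m _ hmc => by
    have h6 := (abs_le.1 (hks' m hmc)).1
    have h7 := prod01 ((pz y).filter (fun p => ¬ p ∣ m)) (fun p hp => (mem_pz.1 (mem_filter.1 hp).1).2)
    have h8 : 0 ≤ (K : ℝ) * ∏ p ∈ (pz y).filter (fun p => ¬ p ∣ m), (1 - 1 / (p : ℝ)) := mul_nonneg (by linarith) h7.1.le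
    nlinarith)
  -- the product over the primes dividing c
  have hTTε : TT M r E c ≤ ε := by
    refine hTT.trans ?_
    rw [div_le_iff₀ (by positivity)]
    have h6 : l2 ≤ l2 ^ 3 := le_self_pow₀ hl1 (by norm_num)
    rw [div_le_iff₀ hε] at hlε
    nlinarith
  have hVT : (Vz z)⁻¹ * TT M r E c ≤ ε := by
    have h6 : 0 ≤ TT M r E c := by unfold TT; exact sum_nonneg fun _ _ => by positivity
    calc (Vz z)⁻¹ * TT M r E c ≤ (CV * l2 ^ 2) * (1 / l2 ^ 3) := by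
          apply mul_le_mul hVinv hTT h6 (by positivity)
      _ = CV / l2 := by field_simp
      _ ≤ ε := by
          rw [div_le_iff₀ (by linarith)]
          rw [div_le_iff₀ hε] at hlCV
          linarith
  have hBc : 1 - ε ≤ ∏ p ∈ (pz z).filter (fun p => y < p ∧ p ∣ c), (1 - 1 / (p : ℝ)) := by
    have h6 := prod_ge ((pz z).filter (fun p => y < p ∧ p ∣ c)) (fun p hp => (mem_pz.1 (mem_filter.1 hp).1).2)
    have h7 : ∑ p ∈ (pz z).filter (fun p => y < p ∧ p ∣ c), 1 / (p : ℝ) ≤ TT M r E c := by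
      unfold TT
      apply sum_le_sum_of_subset_of_nonneg
      · intro p hp
        rw [mem_filter, mem_pz] at hp
        rw [mem_filter, Nat.mem_primeFactors]
        refine ⟨⟨hp.1.2, hp.2.2, by omega⟩, ?_, ?_⟩
        · refine hyr2.trans_le ?_
          apply pow_le_pow_left₀ (by positivity)
          exact_mod_cast hp.2.1
        · exact le_trans (by exact_mod_cast hp.1.1) hzE
      · intro _ _ _; positivity
    linarith
  -- the bad set
  set S1 := (Ioc M (2 * M)).filter (fun m : ℕ => ε < ∑ p ∈ m.primeFactors.filter (fun p => y < p), 1 / (p : ℝ)) with hS1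
  set S2 := (Ioc M (2 * M)).filter (fun m : ℕ => m.Coprime c ∧ ¬ |((Xset y z c m K).card : ℝ) - V1 y z c * ((Kset y c m K).card : ℝ)| ≤
      ε * (V1 y z c * ((Kset y c m K).card : ℝ))) with hS2
  have hsub : (Ioc M (2 * M)).filter (fun m : ℕ => m.Coprime c ∧
      ¬ |∑ k ∈ Icc 1 K, lamz z (c + k * m) - K * ((m : ℝ) / Nat.totient m)| ≤
        4 * ε * (K * ((m : ℝ) / Nat.totient m))) ⊆ S1 ∪ S2 := by
    intro m hm
    rw [mem_filter] at hm
    obtain ⟨hm1, hm2, hm3⟩ := hm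
    rw [mem_union]
    by_contra hcon
    push Not at hcon
    obtain ⟨hc1, hc2⟩ := hcon
    apply hm3
    rw [hS1, mem_filter, not_and, not_lt] at hc1
    rw [hS2, mem_filter, not_and, not_and, not_not] at hc2
    have e1 := hc1 hm1
    have e2 := hc2 hm1 hm2
    have hmM := mem_Ioc.1 hm1
    have hmpos : (0 : ℝ) < m := by exact_mod_cast (by omega : 0 < m)
    have hD := prod_ge (m.primeFactors.filter (fun p => y < p)) (fun p hp => (Nat.mem_primeFactors.1 (mem_filter.1 hp).1).1)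
    have hD01 := prod01 (m.primeFactors.filter (fun p => y < p)) (fun p hp => (Nat.mem_primeFactors.1 (mem_filter.1 hp).1).1)
    have hP1 := prod01 ((pz y).filter (fun p => ¬ p ∣ m)) (fun p hp => (mem_pz.1 (mem_filter.1 hp).1).2)
    have hP2 := prod01 ((pz y).filter (fun p => p ∣ m)) (fun p hp => (mem_pz.1 (mem_filter.1 hp).1).2)
    have hP3 := prod01 ((pz z).filter (fun p => y < p ∧ p ∣ c)) (fun p hp => (mem_pz.1 (mem_filter.1 hp).1).2)
    have hV1 : 0 < V1 y z c := prod_pos fun p hp => (fac01 (mem_pz.1 (mem_filter.1 hp).1).2).1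
    have key := fin_ineq ε K (∏ p ∈ (pz y).filter (fun p => ¬ p ∣ m), (1 - 1 / (p : ℝ)))
      (∏ p ∈ (pz y).filter (fun p => p ∣ m), (1 - 1 / (p : ℝ))) (V1 y z c)
      (∏ p ∈ (pz z).filter (fun p => y < p ∧ p ∣ c), (1 - 1 / (p : ℝ)))
      (∏ p ∈ m.primeFactors.filter (fun p => y < p), (1 - 1 / (p : ℝ)))
      ((Kset y c m K).card : ℝ) ((Xset y z c m K).card : ℝ) ((Kset z c m K).card : ℝ) (TT M r E c) (Vz z)
      hε hε1 (by linarith) hP1.1 hP2.1 hP2.2 hV1 hBc hP3.2 (by linarith) hD01.2 (Vz_split y z c m hyz)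
      (hks' m hm2) e2 (X_le_R M r E y z c m K hc hyr2 hzE hm2) (R_le_X y z c m K hyz) hVT
    have e3 : (m : ℝ) / Nat.totient m = 1 / ((∏ p ∈ (pz y).filter (fun p => p ∣ m), (1 - 1 / (p : ℝ))) *
        ∏ p ∈ m.primeFactors.filter (fun p => y < p), (1 - 1 / (p : ℝ))) := by
      rw [tot_split m y (by omega)]
      have := hP2.1
      have := hD01.1
      field_simp
    rw [sum_lamz, e3]
    exact key
  have hcard : (((Ioc M (2 * M)).filter (fun m : ℕ => m.Coprime c ∧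
      ¬ |∑ k ∈ Icc 1 K, lamz z (c + k * m) - K * ((m : ℝ) / Nat.totient m)| ≤
        4 * ε * (K * ((m : ℝ) / Nat.totient m)))).card : ℝ) ≤ (S1.card : ℝ) + (S2.card : ℝ) := by
    exact_mod_cast (card_le_card hsub).trans (card_union_le _ _)
  refine hcard.trans ((add_le_add hb1 hb2).trans ?_)
  -- final estimate
  have hM0 : (0 : ℝ) ≤ M := Nat.cast_nonneg _
  have hK0 : (0 : ℝ) < K := by linarith
  have hyL : (y : ℝ) ≤ 2 * K := by
    have h6 : (y : ℝ) ≤ (y : ℝ) ^ r := le_self_pow₀ (by exact_mod_cast (by omega : 1 ≤ y)) (by omega)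
    linarith
  have hinvK : 1 / (K : ℝ) ≤ 2 / y := by
    rw [div_le_div_iff₀ hK0 hy0r]; linarith
  have e1 : 4 * (Ck * M * ((K : ℝ) ^ 2 / y + K)) / (ε * (K * Vz z)) ^ 2 = 4 * Ck / ε ^ 2 * ((Vz z)⁻¹) ^ 2 * M * (1 / y + 1 / K) := by
    field_simp
  rw [e1]
  have e2 : 4 * Ck / ε ^ 2 * ((Vz z)⁻¹) ^ 2 * M * (1 / y + 1 / K) ≤ 4 * Ck / ε ^ 2 * (CV * l2 ^ 2) ^ 2 * M * (3 / y) := by
    have h6 : 1 / (y : ℝ) + 1 / K ≤ 3 / y := by
      calc 1 / (y : ℝ) + 1 / K ≤ 1 / y + 2 / y := by linarith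
        _ = 3 / y := by ring
    have h7 : ((Vz z)⁻¹) ^ 2 ≤ (CV * l2 ^ 2) ^ 2 := pow_le_pow_left₀ (inv_nonneg.2 hVzp.le) hVinv 2
    gcongr
  have e3 : 2 * (M : ℝ) / (ε * y) ≤ 2 / ε * l2 ^ 4 * (M / y) := by
    have h6 : 1 ≤ l2 ^ 4 := one_le_pow₀ hl1
    have h7 : 0 ≤ 2 / ε * ((M : ℝ) / y) := by positivity
    calc 2 * (M : ℝ) / (ε * y) = 2 / ε * (M / y) * 1 := by field_simp
      _ ≤ 2 / ε * (M / y) * l2 ^ 4 := mul_le_mul_of_nonneg_left h6 h7
      _ = _ := by ring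
  have e4 : 4 * Ck / ε ^ 2 * (CV * l2 ^ 2) ^ 2 * M * (3 / y) = (12 * Ck / ε ^ 2 * CV ^ 2) * l2 ^ 4 * (M / y) := by
    ring
  have e5 : (M : ℝ) / y ≤ 2 * (M / R) := by
    have h6 : R ≤ 2 * y := by
      have : (2 : ℝ) ≤ y := by exact_mod_cast hy02
      linarith
    rw [← mul_div_assoc, div_le_div_iff₀ hy0r hR0]
    nlinarith
  have e6 : 2 / ε * l2 ^ 4 * (M / y) + (12 * Ck / ε ^ 2 * CV ^ 2) * l2 ^ 4 * (M / y) ≤
      (2 * (2 / ε + 12 * Ck / ε ^ 2 * CV ^ 2) * l2 ^ 4) * (M / R) := by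
    have h6 : 0 ≤ (2 / ε + 12 * Ck / ε ^ 2 * CV ^ 2) * l2 ^ 4 := by positivity
    calc _ = ((2 / ε + 12 * Ck / ε ^ 2 * CV ^ 2) * l2 ^ 4) * (M / y) := by ring
      _ ≤ ((2 / ε + 12 * Ck / ε ^ 2 * CV ^ 2) * l2 ^ 4) * (2 * (M / R)) := mul_le_mul_of_nonneg_left e5 h6
      _ = _ := by ring
  have e7 : L ^ (1 / (2 * r) : ℝ) * (M / R) = M / L ^ (1 / (2 * r) : ℝ) := by
    have h6 : R = L ^ (1 / (2 * r) : ℝ) * L ^ (1 / (2 * r) : ℝ) := by
      rw [hRd, ← Real.rpow_add hL0]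
      congr 1
      field_simp
      norm_num
    rw [h6]
    have h7 : 0 < L ^ (1 / (2 * r) : ℝ) := by positivity
    field_simp
  calc _ ≤ 2 / ε * l2 ^ 4 * (M / y) + 4 * Ck / ε ^ 2 * (CV * l2 ^ 2) ^ 2 * M * (3 / y) := add_le_add e3 e2
    _ = 2 / ε * l2 ^ 4 * (M / y) + (12 * Ck / ε ^ 2 * CV ^ 2) * l2 ^ 4 * (M / y) := by rw [e4]
    _ ≤ _ := e6
    _ ≤ L ^ (1 / (2 * r) : ℝ) * (M / R) := mul_le_mul_of_nonneg_right g3 (by positivity)
    _ = _ := e7

end Pool.Agent.W109.LT
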