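import Mathlib
import Pool.Agent.W109.LT.M3

/-! Assembly: sums of `Λ` over the first terms of progressions. -/

set_option autoImplicit false

namespace Pool.Agent.W109.LT

open Finset Pool.Agent.H373R2.T7

lemma sq_sum (S : Finset ℕ) (a : ℕ → ℕ → ℝ) (K : ℕ) :
    ∑ m ∈ S, (∑ k ∈ Icc 1 K, a k m) ^ 2 = ∑ k ∈ Icc 1 K, ∑ m ∈ S, a k m ^ 2 +
      2 * ∑ k' ∈ Icc 1 K, ∑ k ∈ Ico 1 k', ∑ m ∈ S, a k m * a k' m := by
  induction K with
  | zero => simp
  | succ K ih =>
    have h1 : ∀ m, (∑ k ∈ Icc 1 (K + 1), a k m) ^ 2 = (∑ k ∈ Icc 1 K, a k m) ^ 2 + a (K + 1) m ^ 2 +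
        2 * ∑ k ∈ Ico 1 (K + 1), a k m * a (K + 1) m := by
      intro m
      rw [sum_Icc_succ_top (by omega)]
      have h2 : ∑ k ∈ Ico 1 (K + 1), a k m * a (K + 1) m = (∑ k ∈ Icc 1 K, a k m) * a (K + 1) m := by
        rw [sum_mul]; rfl
      rw [h2]; ring
    rw [sum_congr rfl fun m _ => h1 m, sum_add_distrib, sum_add_distrib, ih, sum_Icc_succ_top (by omega),
      sum_Icc_succ_top (by omega), ← mul_sum]
    have h3 : ∑ i ∈ S, ∑ k ∈ Ico 1 (K + 1), a k i * a (K + 1) i =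
        ∑ k ∈ Ico 1 (K + 1), ∑ m ∈ S, a k m * a (K + 1) m := sum_comm
    rw [h3]
    ring

open Classical in
/-- the sums of `Λ` over the first `K` terms of the progressions `c mod m` are as expected for almost
all `m` -/
def Good (ε δ C1 : ℝ) (κ M c : ℕ) : Prop := ∀ K : ℕ, Real.log M / 2 ≤ K → (K : ℝ) ≤ Real.log M ^ κ →
  (((Ioc M (2 * M)).filter (fun m : ℕ => m.Coprime c ∧
    ¬ |∑ k ∈ Icc 1 K, ArithmeticFunction.vonMangoldt (c + k * m) - K * ((m : ℝ) / Nat.totient m)| ≤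
      5 * ε * (K * ((m : ℝ) / Nat.totient m)))).card : ℝ) ≤
    C1 * M * (Real.log M / K + 1 / Real.log M ^ δ)

/-- Chebyshev's inequality -/
lemma cheb (S : Finset ℕ) (f : ℕ → ℝ) {B t : ℝ} (ht : 0 < t) (h : ∑ m ∈ S, f m ^ 2 ≤ B) :
    ((S.filter (fun m => t < |f m|)).card : ℝ) ≤ B / t ^ 2 := by
  rw [le_div_iff₀ (by positivity)]
  have h1 : ((S.filter (fun m => t < |f m|)).card : ℝ) * t ^ 2 ≤ ∑ m ∈ S.filter (fun m => t < |f m|), f m ^ 2 := by
    rw [← nsmul_eq_mul, ← sum_const]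
    apply sum_le_sum
    intro m hm
    rw [mem_filter] at hm
    rw [← sq_abs (f m)]
    exact pow_le_pow_left₀ ht.le hm.2.le 2
  exact h1.trans ((sum_le_sum_of_subset_of_nonneg (filter_subset _ _) (fun _ _ _ => sq_nonneg _)).trans h)

/-- Markov's inequality -/
lemma markov (S : Finset ℕ) (f : ℕ → ℝ) (hf : ∀ i ∈ S, 0 ≤ f i) {B t : ℝ} (ht : 0 < t) (h : ∑ m ∈ S, f m ≤ B) :
    ((S.filter (fun m => t < f m)).card : ℝ) ≤ B / t := by
  rw [le_div_iff₀ ht]
  have h1 : ((S.filter (fun m => t < f m)).card : ℝ) * t ≤ ∑ m ∈ S.filter (fun m => t < f m), f m := by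
    rw [← nsmul_eq_mul, ← sum_const]
    apply sum_le_sum
    intro m hm
    exact (mem_filter.1 hm).2.le
  exact h1.trans ((sum_le_sum_of_subset_of_nonneg (filter_subset _ _) (fun i hi _ => hf i hi)).trans h)

open Classical in
theorem core (hA : S_A) (hD : S_D) (hT : S_T) (hK : S_K) (ε : ℝ) (hε : 0 < ε) (hε1 : ε ≤ 1 / 10) :
    ∃ δ C1 : ℝ, 0 < δ ∧ 0 < C1 ∧ ∀ h C U κ : ℕ, ∃ M0 : ℕ, ∀ M : ℕ, M0 ≤ M →
    ∀ (x : ℕ) (s : ℕ → ℕ), (∀ i ∈ Icc 1 x, 1 ≤ s i ∧ s i ≤ M) →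
    (Pool.Agent.H560R3.GB.energy h x s : ℝ) * M ≤ Real.log M ^ C * (x : ℝ) ^ (2 * h) →
    (((Icc 1 x).filter (fun i : ℕ => ¬ Good ε δ C1 κ M (s i))).card : ℝ) ≤ x / Real.log M ^ U := by
  obtain ⟨r, hr1, hmain⟩ := main_term hK ε hε hε1
  obtain ⟨Cd, hCd, hdiag⟩ := hD
  have hr0 : (0 : ℝ) < r := by exact_mod_cast (by omega : 0 < r)
  refine ⟨1 / (2 * r), (Cd + 2) / ε ^ 2 + 1, by positivity, by positivity, fun h C U κ => ?_⟩
  set UA := 2 * κ + 2 * κ + U + 1 with hUA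
  obtain ⟨B0, hpair⟩ := hA h C UA κ
  set B := max (max B0 κ) 1 with hB
  set E := B + 1 with hE
  obtain ⟨M1, hpair⟩ := hpair E
  obtain ⟨M2, hdiag⟩ := hdiag E κ
  obtain ⟨M3, hfew⟩ := hT h C (U + 1) E r
  obtain ⟨M4, hmain⟩ := hmain κ E
  obtain ⟨M5, h5⟩ := ev_L' 2
  refine ⟨max (max M1 M2) (max M3 (max M4 (max M5 3))), fun M hM x s hs hen => ?_⟩
  have hM1 : M1 ≤ M := le_trans (le_trans (le_max_left _ _) (le_max_left _ _)) hM
  have hM2 : M2 ≤ M := le_trans (le_trans (le_max_right _ _) (le_max_left _ _)) hM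
  have hM3 : M3 ≤ M := le_trans (le_trans (le_max_left _ _) (le_max_right _ _)) hM
  have hM4 : M4 ≤ M := le_trans (le_trans (le_trans (le_max_left _ _) (le_max_right _ _)) (le_max_right _ _)) hM
  have hM5 : M5 ≤ M := le_trans (le_trans (le_trans (le_trans (le_max_left _ _) (le_max_right _ _)) (le_max_right _ _)) (le_max_right _ _)) hM
  have hM3' : 3 ≤ M := le_trans (le_trans (le_trans (le_trans (le_max_right _ _) (le_max_right _ _)) (le_max_right _ _)) (le_max_right _ _)) hM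
  have g5 := h5 M hM5
  set L := Real.log M with hL
  have hL0 : 0 < L := by linarith
  have hL1 : 1 ≤ L := by linarith
  have hMpos : (0 : ℝ) < M := by exact_mod_cast (by omega : 0 < M)
  -- the choice of z
  set z : ℕ := ⌈L ^ B⌉₊ with hz
  have hz1 : L ^ B ≤ z := Nat.le_ceil _
  have hz2 : (z : ℝ) ≤ L ^ E := by
    have h1 : (z : ℝ) ≤ L ^ B + 1 := (Nat.ceil_lt_add_one (by positivity)).le
    have h2 : 1 ≤ L ^ B := one_le_pow₀ hL1
    calc (z : ℝ) ≤ L ^ B + 1 := h1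
      _ ≤ L ^ B * L := by nlinarith
      _ = L ^ E := by rw [hE, pow_succ]
  have hzB0 : L ^ B0 ≤ z := (pow_le_pow_right₀ hL1 ((le_max_left _ _).trans (le_max_left _ _))).trans hz1
  have hzκ : L ^ κ ≤ z := (pow_le_pow_right₀ hL1 ((le_max_right _ _).trans (le_max_left _ _))).trans hz1
  have hzL : L ≤ z := by
    calc L = L ^ 1 := (pow_one L).symm
      _ ≤ L ^ B := pow_le_pow_right₀ hL1 (le_max_right _ _)
      _ ≤ z := hz1
  set J : ℕ := ⌊L ^ κ⌋₊ with hJ
  have hJr : (J : ℝ) ≤ L ^ κ := Nat.floor_le (by positivity)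
  set t : ℝ := M / L ^ (2 * κ) with ht
  have ht0 : 0 < t := by positivity
  set cor : ℕ → ℕ → ℕ → ℝ := fun i k k' => |∑ m ∈ Ioc M (2 * M), Ez z (s i + k * m) * Ez z (s i + k' * m)| with hcor
  set TB : Finset ℕ := (Icc 1 x).filter (fun i : ℕ => 1 / Real.log L ^ 3 < TT M r E (s i)) with hTB
  set PB : Finset ℕ := (Icc 1 J).biUnion (fun k' => (Ico 1 k').biUnion (fun k =>
    (Icc 1 x).filter (fun i => t < cor i k k'))) with hPB
  have hTBc : (TB.card : ℝ) ≤ x / L ^ (U + 1) := hfew M hM3 x s hs hen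
  have hPBc : (PB.card : ℝ) ≤ x / L ^ (U + 1) := by
    have h1 : (PB.card : ℝ) ≤ ∑ k' ∈ Icc 1 J, ∑ k ∈ Ico 1 k', (((Icc 1 x).filter (fun i => t < cor i k k')).card : ℝ) := by
      have h2 : PB.card ≤ ∑ k' ∈ Icc 1 J, ∑ k ∈ Ico 1 k', ((Icc 1 x).filter (fun i => t < cor i k k')).card :=
        card_biUnion_le.trans (sum_le_sum fun k' _ => card_biUnion_le)
      exact_mod_cast h2
    have h2 : ∀ k' ∈ Icc 1 J, ∀ k ∈ Ico 1 k', (((Icc 1 x).filter (fun i => t < cor i k k')).card : ℝ) ≤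
        x / L ^ (2 * κ + U + 1) := by
      intro k' hk' k hk
      rw [mem_Icc] at hk'
      rw [mem_Ico] at hk
      have h3 := hpair M hM1 x s (fun i hi => (hs i hi).2) hen z hzB0 hz2 k k' hk.1 hk.2
        (le_trans (by exact_mod_cast hk'.2) hJr)
      have h4 := markov (Icc 1 x) (fun i => cor i k k') (fun i _ => abs_nonneg _) ht0 h3
      refine h4.trans (le_of_eq ?_)
      rw [ht, hUA]
      have e : L ^ (2 * κ + 2 * κ + U + 1) = L ^ (2 * κ) * L ^ (2 * κ + U + 1) := by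
        rw [← pow_add]; congr 1; ring
      rw [e]
      field_simp
    refine h1.trans ?_
    have h3 : ∑ k' ∈ Icc 1 J, ∑ k ∈ Ico 1 k', (((Icc 1 x).filter (fun i => t < cor i k k')).card : ℝ) ≤
        ∑ _k' ∈ Icc 1 J, (J : ℝ) * (x / L ^ (2 * κ + U + 1)) := by
      apply sum_le_sum
      intro k' hk'
      refine (sum_le_sum (h2 k' hk')).trans ?_
      rw [sum_const, Nat.card_Ico, nsmul_eq_mul]
      rw [mem_Icc] at hk'
      apply mul_le_mul_of_nonneg_right _ (by positivity)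
      exact_mod_cast (by omega : k' - 1 ≤ J)
    refine h3.trans ?_
    rw [sum_const, Nat.card_Icc, nsmul_eq_mul, Nat.add_sub_cancel]
    have h4 : (J : ℝ) * J ≤ L ^ (2 * κ) := by
      calc (J : ℝ) * J ≤ L ^ κ * L ^ κ := by gcongr
        _ = L ^ (2 * κ) := by rw [← pow_add]; congr 1; ring
    calc (J : ℝ) * ((J : ℝ) * (x / L ^ (2 * κ + U + 1))) = (J * J) * (x / L ^ (2 * κ + U + 1)) := by ring
      _ ≤ L ^ (2 * κ) * (x / L ^ (2 * κ + U + 1)) := mul_le_mul_of_nonneg_right h4 (by positivity)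
      _ = x / L ^ (U + 1) := by
          have e : L ^ (2 * κ + U + 1) = L ^ (2 * κ) * L ^ (U + 1) := by rw [← pow_add]; congr 1
          rw [e]
          field_simp
  -- the good members
  have hsub : (Icc 1 x).filter (fun i : ℕ => ¬ Good ε (1 / (2 * r)) ((Cd + 2) / ε ^ 2 + 1) κ M (s i)) ⊆ TB ∪ PB := by
    intro i hi
    rw [mem_filter] at hi
    obtain ⟨hi1, hi2⟩ := hi
    rw [mem_union]
    by_contra hcon
    push Not at hcon
    obtain ⟨hc1, hc2⟩ := hcon
    apply hi2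
    rw [hTB, mem_filter, not_and, not_lt] at hc1
    have hTT := hc1 hi1
    have hpairs : ∀ k' ∈ Icc 1 J, ∀ k ∈ Ico 1 k', cor i k k' ≤ t := by
      intro k' hk' k hk
      by_contra hcon
      rw [not_le] at hcon
      apply hc2
      rw [hPB, mem_biUnion]
      refine ⟨k', hk', ?_⟩
      rw [mem_biUnion]
      exact ⟨k, hk, mem_filter.2 ⟨hi1, hcon⟩⟩
    intro K hK1 hK2
    set c := s i with hc
    have hcM := hs i hi1
    have hKJ : K ≤ J := Nat.le_floor hK2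
    have hK0 : (0 : ℝ) < K := by linarith
    have hK1' : (1 : ℝ) ≤ K := by
      have : 0 < K := by exact_mod_cast hK0
      exact_mod_cast this
    -- second moment
    have hsec : ∑ m ∈ Ioc M (2 * M), (∑ k ∈ Icc 1 K, Ez z (c + k * m)) ^ 2 ≤ (Cd + 2) * (K * M * L) := by
      rw [sq_sum (Ioc M (2 * M)) (fun k m => Ez z (c + k * m)) K]
      have h1 := hdiag M hM2 z hzκ hz2 c hcM.2 K hK2
      have h2 : ∑ k' ∈ Icc 1 K, ∑ k ∈ Ico 1 k', ∑ m ∈ Ioc M (2 * M), Ez z (c + k * m) * Ez z (c + k' * m) ≤ M := by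
        have h3 : ∀ k' ∈ Icc 1 K, ∑ k ∈ Ico 1 k', ∑ m ∈ Ioc M (2 * M), Ez z (c + k * m) * Ez z (c + k' * m) ≤ K * t := by
          intro k' hk'
          rw [mem_Icc] at hk'
          have h4 : ∀ k ∈ Ico 1 k', ∑ m ∈ Ioc M (2 * M), Ez z (c + k * m) * Ez z (c + k' * m) ≤ t := by
            intro k hk
            exact (le_abs_self _).trans (hpairs k' (mem_Icc.2 ⟨hk'.1, hk'.2.trans hKJ⟩) k hk)
          refine (sum_le_sum h4).trans ?_
          rw [sum_const, Nat.card_Ico, nsmul_eq_mul]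
          apply mul_le_mul_of_nonneg_right _ ht0.le
          exact_mod_cast (by omega : k' - 1 ≤ K)
        refine (sum_le_sum h3).trans ?_
        rw [sum_const, Nat.card_Icc, nsmul_eq_mul, Nat.add_sub_cancel]
        have h4 : (K : ℝ) * K ≤ L ^ (2 * κ) := by
          calc (K : ℝ) * K ≤ L ^ κ * L ^ κ := by gcongr
            _ = L ^ (2 * κ) := by rw [← pow_add]; congr 1; ring
        calc (K : ℝ) * (K * t) = (K * K) * t := by ring
          _ ≤ L ^ (2 * κ) * t := mul_le_mul_of_nonneg_right h4 ht0.le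
          _ = M := by rw [ht]; field_simp
      have h5 : (M : ℝ) ≤ K * M * L := by
        have h6 : (1 : ℝ) ≤ K * L := by nlinarith
        nlinarith
      nlinarith
    have hch := cheb (Ioc M (2 * M)) (fun m => ∑ k ∈ Icc 1 K, Ez z (c + k * m)) (t := ε * K) (by positivity) hsec
    have hmt := hmain M hM4 z K c hzL hz2 hK1 hK2 hcM.1 hTT
    set S1 := (Ioc M (2 * M)).filter (fun m => ε * K < |∑ k ∈ Icc 1 K, Ez z (c + k * m)|) with hS1
    set S2 := (Ioc M (2 * M)).filter (fun m : ℕ => m.Coprime c ∧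
      ¬ |∑ k ∈ Icc 1 K, lamz z (c + k * m) - K * ((m : ℝ) / Nat.totient m)| ≤
        4 * ε * (K * ((m : ℝ) / Nat.totient m))) with hS2
    have hsub2 : (Ioc M (2 * M)).filter (fun m : ℕ => m.Coprime c ∧
        ¬ |∑ k ∈ Icc 1 K, ArithmeticFunction.vonMangoldt (c + k * m) - K * ((m : ℝ) / Nat.totient m)| ≤
          5 * ε * (K * ((m : ℝ) / Nat.totient m))) ⊆ S1 ∪ S2 := by
      intro m hm
      rw [mem_filter] at hm
      obtain ⟨hm1, hm2, hm3⟩ := hm
      rw [mem_union]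
      by_contra hcon
      push Not at hcon
      obtain ⟨hn1, hn2⟩ := hcon
      apply hm3
      rw [hS1, mem_filter, not_and, not_lt] at hn1
      rw [hS2, mem_filter, not_and, not_and, not_not] at hn2
      have e1 := hn1 hm1
      have e2 := hn2 hm1 hm2
      have hmM := mem_Ioc.1 hm1
      have hmpos : (0 : ℝ) < m := by exact_mod_cast (by omega : 0 < m)
      have htot : (0 : ℝ) < Nat.totient m := by exact_mod_cast Nat.totient_pos.2 (by omega)
      have hmt1 : 1 ≤ (m : ℝ) / Nat.totient m := by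
        rw [one_le_div htot]
        exact_mod_cast Nat.totient_le m
      have hspl : ∑ k ∈ Icc 1 K, ArithmeticFunction.vonMangoldt (c + k * m) =
          ∑ k ∈ Icc 1 K, Ez z (c + k * m) + ∑ k ∈ Icc 1 K, lamz z (c + k * m) := by
        rw [← sum_add_distrib]
        apply sum_congr rfl
        intro k _
        unfold Ez
        ring
      rw [hspl]
      have e3 : ∑ k ∈ Icc 1 K, Ez z (c + k * m) + ∑ k ∈ Icc 1 K, lamz z (c + k * m) - K * ((m : ℝ) / Nat.totient m) =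
          ∑ k ∈ Icc 1 K, Ez z (c + k * m) + (∑ k ∈ Icc 1 K, lamz z (c + k * m) - K * ((m : ℝ) / Nat.totient m)) := by ring
      rw [e3]
      refine (abs_add_le _ _).trans ((add_le_add e1 e2).trans ?_)
      have e4 : ε * (K : ℝ) ≤ ε * (K * ((m : ℝ) / Nat.totient m)) := by
        apply mul_le_mul_of_nonneg_left _ hε.le
        nlinarith
      linarith
    have hcard2 : (((Ioc M (2 * M)).filter (fun m : ℕ => m.Coprime c ∧
        ¬ |∑ k ∈ Icc 1 K, ArithmeticFunction.vonMangoldt (c + k * m) - K * ((m : ℝ) / Nat.totient m)| ≤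
          5 * ε * (K * ((m : ℝ) / Nat.totient m)))).card : ℝ) ≤ (S1.card : ℝ) + (S2.card : ℝ) := by
      exact_mod_cast (card_le_card hsub2).trans (card_union_le _ _)
    refine hcard2.trans ((add_le_add hch hmt).trans ?_)
    have e1 : (Cd + 2) * (K * M * L) / (ε * K) ^ 2 = (Cd + 2) / ε ^ 2 * M * (L / K) := by
      field_simp
    rw [e1]
    have hLd : 0 < L ^ (1 / (2 * r) : ℝ) := by positivity
    have e2 : (M : ℝ) / L ^ (1 / (2 * r) : ℝ) = M * (1 / L ^ (1 / (2 * r) : ℝ)) := by ring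
    rw [e2]
    have e3 : 0 ≤ (Cd + 2) / ε ^ 2 * M * (1 / L ^ (1 / (2 * r) : ℝ)) := by positivity
    have e4 : 0 ≤ M * (L / K) := by positivity
    calc (Cd + 2) / ε ^ 2 * M * (L / K) + M * (1 / L ^ (1 / (2 * r) : ℝ)) ≤
          (Cd + 2) / ε ^ 2 * M * (L / K) + M * (1 / L ^ (1 / (2 * r) : ℝ)) +
          ((Cd + 2) / ε ^ 2 * M * (1 / L ^ (1 / (2 * r) : ℝ)) + M * (L / K)) := by linarith
      _ = _ := by ring
  have hfin : (((Icc 1 x).filter (fun i : ℕ => ¬ Good ε (1 / (2 * r)) ((Cd + 2) / ε ^ 2 + 1) κ M (s i))).card : ℝ) ≤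
      (TB.card : ℝ) + (PB.card : ℝ) := by
    exact_mod_cast (card_le_card hsub).trans (card_union_le _ _)
  refine hfin.trans ((add_le_add hTBc hPBc).trans ?_)
  rw [pow_succ]
  have hLU : 0 < L ^ U := by positivity
  calc (x : ℝ) / (L ^ U * L) + x / (L ^ U * L) = (2 / L) * (x / L ^ U) := by field_simp; ring
    _ ≤ 1 * (x / L ^ U) := by
        apply mul_le_mul_of_nonneg_right _ (by positivity)
        rw [div_le_one hL0]
        exact g5
    _ = _ := one_mul _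

end Pool.Agent.W109.LT
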