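import Mathlib
import Pool.Agent.W109.LT.Asm

/-! From sums of `Λ` to numbers of primes. -/

set_option autoImplicit false

namespace Pool.Agent.W109.LT

open Finset Pool.Agent.H373R2.T7

/-- `π(y; m, c)`: the number of primes `p ≤ y` with `p ≡ c (mod m)` -/
noncomputable def primesAP (y : ℝ) (m c : ℕ) : ℕ :=
  ((Icc 1 ⌊y⌋₊).filter (fun p : ℕ => p.Prime ∧ p ≡ c [MOD m])).card

open Classical in
/-- For every `λ` with `1 ≤ λ ≤ (log M) ^ κ`, all but at most `C M (1 / λ + 1 / (log M) ^ δ)` of the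
moduli `M < m ≤ 2 M` coprime to `c` satisfy
`|π(λ m log m; m, c) - λ m / φ(m)| ≤ ε λ m / φ(m)`. -/
def Typical (ε C δ : ℝ) (κ M c : ℕ) : Prop := ∀ lam : ℝ, 1 ≤ lam → lam ≤ Real.log M ^ κ →
  (((Ioc M (2 * M)).filter (fun m : ℕ => m.Coprime c ∧
    ¬ |(primesAP (lam * m * Real.log m) m c : ℝ) - lam * m / Nat.totient m| ≤
      ε * (lam * m / Nat.totient m))).card : ℝ) ≤ C * M * (1 / lam + 1 / Real.log M ^ δ)

/-- the number of primes among `c + m, ..., c + K m` -/
def cnt (K m c : ℕ) : ℕ := ((Icc 1 K).filter (fun k => (c + k * m).Prime)).card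

lemma cnt_le_primes (K m c : ℕ) (y : ℝ) (hm : 1 ≤ m) (hy : ((c + K * m : ℕ) : ℝ) ≤ y) :
    cnt K m c ≤ primesAP y m c := by
  unfold cnt primesAP
  apply card_le_card_of_injOn (fun k => c + k * m)
  · intro k hk
    have hk' := hk
    rw [mem_coe, mem_filter, mem_Icc] at hk'
    rw [mem_coe, mem_filter, mem_Icc]
    refine ⟨⟨hk'.2.one_lt.le, Nat.le_floor (le_trans ?_ hy)⟩, hk'.2, ?_⟩
    · have : c + k * m ≤ c + K * m := Nat.add_le_add_left (Nat.mul_le_mul_right _ hk'.1.2) _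
      exact_mod_cast this
    · unfold Nat.ModEq
      rw [Nat.add_mul_mod_self_right]
  · intro a _ b _ hab
    simp only at hab
    exact Nat.eq_of_mul_eq_mul_right (by omega : 0 < m) (by omega)

lemma primes_le_cnt (K m c : ℕ) (y : ℝ) (hm : c < m) (hy : y < ((K + 1) * m : ℕ)) :
    primesAP y m c ≤ cnt K m c + 1 := by
  unfold cnt primesAP
  have h1 : (Icc 1 ⌊y⌋₊).filter (fun p : ℕ => p.Prime ∧ p ≡ c [MOD m]) ⊆
      insert c (((Icc 1 K).filter (fun k => (c + k * m).Prime)).image (fun k => c + k * m)) := by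
    intro p hp
    rw [mem_filter, mem_Icc] at hp
    obtain ⟨⟨hp1, hp2⟩, hp3, hp4⟩ := hp
    rw [mem_insert, mem_image]
    have h2 : p % m = c := by
      unfold Nat.ModEq at hp4
      rw [hp4, Nat.mod_eq_of_lt hm]
    have h3 := Nat.mod_add_div p m
    rw [h2] at h3
    rcases Nat.eq_zero_or_pos (p / m) with h0 | h0
    · left
      rw [h0, mul_zero, add_zero] at h3
      exact h3.symm
    · right
      refine ⟨p / m, ?_, by rw [mul_comm]; exact h3⟩
      rw [mem_filter, mem_Icc]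
      refine ⟨⟨h0, ?_⟩, by rw [mul_comm, h3]; exact hp3⟩
      have hy0 : 0 ≤ y := by
        by_contra hcon
        rw [not_le] at hcon
        rw [Nat.floor_of_nonpos hcon.le] at hp2
        omega
      have h4 : (p : ℝ) ≤ y := (Nat.le_floor_iff hy0).1 hp2
      have h5 : p < (K + 1) * m := by exact_mod_cast h4.trans_lt hy
      have h6 : p / m < K + 1 := Nat.div_lt_of_lt_mul (by rw [mul_comm]; exact h5)
      omega
  refine (card_le_card h1).trans ((card_insert_le _ _).trans ?_)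
  exact Nat.add_le_add_right card_image_le 1

/-- the contribution of the proper prime powers -/
noncomputable def npw (K m c : ℕ) : ℝ := ∑ k ∈ (Icc 1 K).filter (fun k => ¬ (c + k * m).Prime),
  ArithmeticFunction.vonMangoldt (c + k * m)

lemma npw_nonneg (K m c : ℕ) : 0 ≤ npw K m c := sum_nonneg fun _ _ => ArithmeticFunction.vonMangoldt_nonneg

lemma sum_npw (K M c N : ℕ) (hN : c + K * (2 * M) ≤ N) (hN1 : 1 ≤ N) :
    ∑ m ∈ Ioc M (2 * M), npw K m c ≤ K * (2 * √(N : ℝ) * Real.log N) := by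
  unfold npw
  have h1 : ∑ m ∈ Ioc M (2 * M), ∑ k ∈ (Icc 1 K).filter (fun k => ¬ (c + k * m).Prime),
      ArithmeticFunction.vonMangoldt (c + k * m) = ∑ k ∈ Icc 1 K, ∑ m ∈ (Ioc M (2 * M)).filter (fun m => ¬ (c + k * m).Prime),
      ArithmeticFunction.vonMangoldt (c + k * m) := by
    simp only [sum_filter]
    exact sum_comm
  rw [h1]
  have h2 : ∀ k ∈ Icc 1 K, ∑ m ∈ (Ioc M (2 * M)).filter (fun m => ¬ (c + k * m).Prime),
      ArithmeticFunction.vonMangoldt (c + k * m) ≤ 2 * √(N : ℝ) * Real.log N := by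
    intro k hk
    rw [mem_Icc] at hk
    have h3 := Chebyshev.psi_sub_theta_le (x := (N : ℝ)) (by exact_mod_cast hN1)
    rw [Chebyshev.psi_sub_theta_eq_sum_not_prime, Nat.floor_natCast] at h3
    refine le_trans ?_ h3
    have h4 : ∑ m ∈ (Ioc M (2 * M)).filter (fun m => ¬ (c + k * m).Prime), ArithmeticFunction.vonMangoldt (c + k * m) =
        ∑ n ∈ ((Ioc M (2 * M)).filter (fun m => ¬ (c + k * m).Prime)).image (fun m => c + k * m),
          ArithmeticFunction.vonMangoldt n := by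
      rw [sum_image]
      intro a _ b _ hab
      simp only at hab
      exact Nat.eq_of_mul_eq_mul_left (by omega : 0 < k) (by omega)
    rw [h4]
    apply sum_le_sum_of_subset_of_nonneg
    · intro n hn
      rw [mem_image] at hn
      obtain ⟨m, hm, rfl⟩ := hn
      rw [mem_filter, mem_Ioc] at hm
      rw [mem_filter, mem_Ioc]
      refine ⟨⟨?_, ?_⟩, hm.2⟩
      · have : 1 ≤ k * m := Nat.mul_pos (by omega) (by omega)
        omega
      · refine le_trans ?_ hN
        apply Nat.add_le_add_left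
        exact Nat.mul_le_mul hk.2 hm.1.2
    · intro _ _ _; exact ArithmeticFunction.vonMangoldt_nonneg
  refine (sum_le_sum h2).trans ?_
  rw [sum_const, Nat.card_Icc, nsmul_eq_mul, Nat.add_sub_cancel]

lemma lam_split (K m c : ℕ) : ∑ k ∈ Icc 1 K, ArithmeticFunction.vonMangoldt (c + k * m) =
    ∑ k ∈ (Icc 1 K).filter (fun k => (c + k * m).Prime), Real.log ((c + k * m : ℕ) : ℝ) + npw K m c := by
  unfold npw
  rw [← sum_filter_add_sum_filter_not (Icc 1 K) (fun k => (c + k * m).Prime)]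
  congr 1
  apply sum_congr rfl
  intro k hk
  rw [mem_filter] at hk
  exact ArithmeticFunction.vonMangoldt_apply_prime hk.2

/-- the count of primes from the sum of `Λ` -/
lemma cnt_bounds (K M m c : ℕ) (ε L Y : ℝ) (hε : 0 < ε) (hM : M < m) (hM2 : m ≤ 2 * M) (hL : L = Real.log M)
    (hup : Real.log ((c + K * (2 * M) : ℕ) : ℝ) ≤ (1 + ε) * L)
    (hKY : (K : ℝ) ≤ Y)
    (h1 : |∑ k ∈ Icc 1 K, ArithmeticFunction.vonMangoldt (c + k * m) - Y| ≤ 5 * ε * Y)
    (h2 : npw K m c ≤ ε * K) :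
    (cnt K m c : ℝ) * L ≤ (1 + 6 * ε) * Y ∧ (1 - 6 * ε) * Y ≤ (cnt K m c : ℝ) * ((1 + ε) * L) := by
  rw [lam_split] at h1
  obtain ⟨a1, a2⟩ := abs_le.1 h1
  have hn := npw_nonneg K m c
  have hMp : 0 < M := by omega
  have b1 : (cnt K m c : ℝ) * L ≤ ∑ k ∈ (Icc 1 K).filter (fun k => (c + k * m).Prime), Real.log ((c + k * m : ℕ) : ℝ) := by
    unfold cnt
    rw [← nsmul_eq_mul, ← sum_const]
    apply sum_le_sum
    intro k hk
    rw [mem_filter, mem_Icc] at hk
    rw [hL]
    apply Real.log_le_log (by exact_mod_cast hMp)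
    have : M ≤ c + k * m := by
      have : m ≤ k * m := Nat.le_mul_of_pos_left _ (by omega)
      omega
    exact_mod_cast this
  have b2 : ∑ k ∈ (Icc 1 K).filter (fun k => (c + k * m).Prime), Real.log ((c + k * m : ℕ) : ℝ) ≤
      (cnt K m c : ℝ) * ((1 + ε) * L) := by
    unfold cnt
    rw [← nsmul_eq_mul, ← sum_const]
    apply sum_le_sum
    intro k hk
    rw [mem_filter, mem_Icc] at hk
    refine le_trans ?_ hup
    apply Real.log_le_log
    · exact_mod_cast hk.2.pos
    · have : c + k * m ≤ c + K * (2 * M) := Nat.add_le_add_left (Nat.mul_le_mul hk.1.2 hM2) _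
      exact_mod_cast this
  have h3 : ε * K ≤ ε * Y := mul_le_mul_of_nonneg_left hKY hε.le
  constructor <;> linarith

end Pool.Agent.W109.LT
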