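import Mathlib
import Pool.Agent.W109.LT.P

/-! From sums of `Λ` to numbers of primes, continued. -/

set_option autoImplicit false

namespace Pool.Agent.W109.LT

open Finset Pool.Agent.H373R2.T7

theorem typ_of_good (ε δ C1 : ℝ) (hε : 0 < ε) (hε1 : ε ≤ 1 / 10) (hC1 : 0 < C1) (κ : ℕ) :
    ∃ M0 : ℕ, ∀ M : ℕ, M0 ≤ M → ∀ c : ℕ, 1 ≤ c → c ≤ M → Good ε δ C1 (κ + 2) M c →
      Typical (9 * ε) (1 / ε + 4 * C1 + 2) δ κ M c := by
  classical
  obtain ⟨n, hn⟩ := exists_nat_ge δ
  obtain ⟨M1, h1⟩ := ev_L' (max 4 (2 / ε))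
  obtain ⟨M2, h2⟩ := ev_ll ((κ + 4) / ε) 1 1 one_pos
  obtain ⟨M3, h3⟩ := ev_log' (2 * (κ + 2) + 1 + n) (12 / ε)
  obtain ⟨M4, h4⟩ := ev_ll1 1
  refine ⟨max (max M1 M2) (max M3 (max M4 3)), fun M hM c hc1 hcM hgood => ?_⟩
  have g1 := h1 M (le_trans (le_trans (le_max_left _ _) (le_max_left _ _)) hM)
  have g2 := h2 M (le_trans (le_trans (le_max_right _ _) (le_max_left _ _)) hM)
  have g3 := h3 M (le_trans (le_trans (le_max_left _ _) (le_max_right _ _)) hM)
  have g4 := h4 M (le_trans (le_trans (le_trans (le_max_left _ _) (le_max_right _ _)) (le_max_right _ _)) hM)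
  have hM3 : 3 ≤ M := le_trans (le_trans (le_trans (le_max_right _ _) (le_max_right _ _)) (le_max_right _ _)) hM
  have hMr : (3 : ℝ) ≤ M := by exact_mod_cast hM3
  have hM0 : (0 : ℝ) < M := by linarith
  intro lam hlam1 hlam2
  set L := Real.log M with hL
  have hL4 : 4 ≤ L := (le_max_left _ _).trans g1
  have hL2ε : 2 ≤ ε * L := by
    have := (le_max_right _ _).trans g1
    rw [div_le_iff₀ hε] at this
    linarith
  have hL0 : 0 < L := by linarith
  have hL1 : 1 ≤ L := by linarith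
  rw [Real.rpow_one, pow_one] at g2
  have hlam0 : 0 < lam := by linarith
  set Cc := 1 / ε + 4 * C1 + 2 with hCc
  have hLδ : 0 < L ^ δ := by positivity
  rcases lt_or_ge lam (1 / ε) with hsm | hlg
  · -- trivial range
    have h5 : (((Ioc M (2 * M)).filter (fun m : ℕ => m.Coprime c ∧
        ¬ |(primesAP (lam * m * Real.log m) m c : ℝ) - lam * m / Nat.totient m| ≤
        9 * ε * (lam * m / Nat.totient m))).card : ℝ) ≤ M := by
      have h6 := card_filter_le (Ioc M (2 * M)) (fun m : ℕ => m.Coprime c ∧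
        ¬ |(primesAP (lam * m * Real.log m) m c : ℝ) - lam * m / Nat.totient m| ≤
        9 * ε * (lam * m / Nat.totient m))
      rw [Nat.card_Ioc] at h6
      exact_mod_cast h6.trans (by omega)
    refine h5.trans ?_
    have h7 : 1 ≤ Cc * (1 / lam) := by
      rw [mul_one_div, one_le_div hlam0]
      rw [hCc]
      linarith
    have h8 : 0 ≤ Cc * (M : ℝ) * (1 / L ^ δ) := by positivity
    calc (M : ℝ) = M * 1 := (mul_one _).symm
      _ ≤ M * (Cc * (1 / lam)) := mul_le_mul_of_nonneg_left h7 hM0.le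
      _ ≤ Cc * M * (1 / lam + 1 / L ^ δ) := by linarith
  -- main range
  set K1 : ℕ := ⌊lam * L⌋₊ - 1 with hK1
  set K2 : ℕ := ⌊lam * Real.log ((2 * M : ℕ) : ℝ)⌋₊ with hK2
  have hlog2 : Real.log 2 ≤ 1 := by have := Real.log_two_lt_d9; linarith
  have hlog2' : 0 ≤ Real.log 2 := Real.log_nonneg (by norm_num)
  have hl2M : Real.log ((2 * M : ℕ) : ℝ) = L + Real.log 2 := by
    push_cast
    rw [Real.log_mul (by norm_num) hM0.ne', add_comm]
  have hlLL : L ≤ lam * L := le_mul_of_one_le_left hL0.le hlam1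
  have hlL : 4 ≤ lam * L := hL4.trans hlLL
  have hf1 : 1 ≤ ⌊lam * L⌋₊ := Nat.le_floor (by push_cast; linarith)
  have k1a : lam * L - 2 ≤ K1 := by
    rw [hK1, Nat.cast_sub hf1]
    have := (Nat.lt_floor_add_one (lam * L)).le
    push_cast
    linarith
  have k1b : (K1 : ℝ) ≤ lam * L - 1 := by
    rw [hK1, Nat.cast_sub hf1]
    have := Nat.floor_le (show 0 ≤ lam * L by linarith)
    push_cast
    linarith
  have k2a : (K2 : ℝ) ≤ lam * (L + Real.log 2) := by
    rw [hK2, ← hl2M]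
    apply Nat.floor_le
    rw [hl2M]
    positivity
  have k2b : lam * (L + Real.log 2) < K2 + 1 := by
    rw [hK2, ← hl2M]
    exact Nat.lt_floor_add_one _
  have k12 : (K1 : ℝ) ≤ K2 := by
    have h5 : lam * (L + Real.log 2) = lam * L + lam * Real.log 2 := by ring
    have h6 : 0 ≤ lam * Real.log 2 := by positivity
    linarith
  have k1h : lam * L / 2 ≤ K1 := by linarith
  have k2h : lam * L / 2 ≤ K2 := k1h.trans k12
  have hlamL : L / 2 ≤ lam * L / 2 := by linarith
  have k2up : (K2 : ℝ) ≤ L ^ (κ + 2) := by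
    calc (K2 : ℝ) ≤ lam * (L + Real.log 2) := k2a
      _ ≤ L ^ κ * (L ^ 2) := by
          apply mul_le_mul hlam2 _ (by positivity) (by positivity)
          have h5 : L * 4 ≤ L * L := mul_le_mul_of_nonneg_left hL4 hL0.le
          have h6 : L ^ 2 = L * L := by ring
          linarith
      _ = L ^ (κ + 2) := by rw [← pow_add]
  have k1up : (K1 : ℝ) ≤ L ^ (κ + 2) := k12.trans k2up
  -- size of the logarithm
  have hlogup : ∀ K : ℕ, (K : ℝ) ≤ L ^ (κ + 2) → Real.log ((c + K * (2 * M) : ℕ) : ℝ) ≤ (1 + ε) * L ∧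
      ((c + K * (2 * M) : ℕ) : ℝ) ≤ 3 * L ^ (κ + 2) * M := by
    intro K hK
    have h5 : ((c + K * (2 * M) : ℕ) : ℝ) ≤ 3 * L ^ (κ + 2) * M := by
      push_cast
      have h6 : (c : ℝ) ≤ M := by exact_mod_cast hcM
      have h7 : 1 ≤ L ^ (κ + 2) := one_le_pow₀ hL1
      have h8 : (K : ℝ) * (2 * M) ≤ L ^ (κ + 2) * (2 * M) := by gcongr
      have h9 : 1 * (M : ℝ) ≤ L ^ (κ + 2) * M := mul_le_mul_of_nonneg_right h7 hM0.le
      have h10 : 3 * L ^ (κ + 2) * M = L ^ (κ + 2) * M + L ^ (κ + 2) * (2 * M) := by ring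
      linarith
    refine ⟨?_, h5⟩
    have h6 : (0 : ℝ) < ((c + K * (2 * M) : ℕ) : ℝ) := by exact_mod_cast (by omega : 0 < c + K * (2 * M))
    refine (Real.log_le_log h6 h5).trans ?_
    rw [Real.log_mul (by positivity) hM0.ne', Real.log_mul (by norm_num) (by positivity), Real.log_pow]
    have h7 : Real.log 3 ≤ 2 := by
      have : Real.log 3 ≤ 3 - 1 := Real.log_le_sub_one_of_pos (by norm_num)
      linarith
    rw [div_mul_eq_mul_div, div_le_iff₀ hε] at g2
    push_cast
    have h8 : ((κ : ℝ) + 4) * Real.log L = (κ + 2) * Real.log L + 2 * Real.log L := by ring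
    have h9 : (1 + ε) * L = L + L * ε := by ring
    linarith
  -- proper prime powers
  have hnp : ∀ K : ℕ, 1 ≤ (K : ℝ) → (K : ℝ) ≤ L ^ (κ + 2) →
      (((Ioc M (2 * M)).filter (fun m => ε * K < npw K m c)).card : ℝ) ≤ M * (1 / L ^ δ) := by
    intro K hK1' hK
    obtain ⟨h5, h6⟩ := hlogup K hK
    set N := c + K * (2 * M) with hN
    have hN1 : 1 ≤ N := by omega
    have h7 := sum_npw K M c N le_rfl hN1
    have h8 := markov (Ioc M (2 * M)) (fun m => npw K m c) (fun m _ => npw_nonneg K m c)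
      (t := ε * K) (by positivity) h7
    refine h8.trans ?_
    have h9 : √(N : ℝ) ≤ 3 * L ^ (κ + 2) * √(M : ℝ) := by
      have h10 : √(N : ℝ) ≤ √((3 * L ^ (κ + 2)) ^ 2 * M) := by
        apply Real.sqrt_le_sqrt
        refine h6.trans ?_
        have h11 : 1 ≤ 3 * L ^ (κ + 2) := by
          have : 1 ≤ L ^ (κ + 2) := one_le_pow₀ hL1
          linarith
        apply mul_le_mul_of_nonneg_right _ hM0.le
        exact le_self_pow₀ h11 (by norm_num)
      rwa [Real.sqrt_mul (by positivity), Real.sqrt_sq (by positivity)] at h10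
    have h10 : Real.log (N : ℝ) ≤ 2 * L := by
      refine h5.trans ?_
      apply mul_le_mul_of_nonneg_right _ hL0.le
      linarith
    have hlogN : 0 ≤ Real.log (N : ℝ) := Real.log_nonneg (by exact_mod_cast hN1)
    have h11 : (K : ℝ) * (2 * √(N : ℝ) * Real.log N) / (ε * K) = 2 * √(N : ℝ) * Real.log N / ε := by
      field_simp
    rw [h11]
    have h12 : 2 * √(N : ℝ) * Real.log N / ε ≤ (12 / ε) * L ^ (2 * (κ + 2) + 1) * √(M : ℝ) := by
      rw [div_mul_eq_mul_div, div_mul_eq_mul_div]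
      apply div_le_div_of_nonneg_right _ hε.le
      calc 2 * √(N : ℝ) * Real.log N ≤ 2 * (3 * L ^ (κ + 2) * √(M : ℝ)) * (2 * L) := by gcongr
        _ = 12 * L ^ (κ + 2) * L * √(M : ℝ) := by ring
        _ ≤ 12 * L ^ (2 * (κ + 2) + 1) * √(M : ℝ) := by
            apply mul_le_mul_of_nonneg_right _ (Real.sqrt_nonneg _)
            rw [mul_assoc, ← pow_succ]
            apply mul_le_mul_of_nonneg_left _ (by norm_num)
            exact pow_le_pow_right₀ hL1 (by omega)
    refine h12.trans ?_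
    have h13 : L ^ δ ≤ L ^ n := by
      rw [← Real.rpow_natCast L n]
      exact Real.rpow_le_rpow_of_exponent_le hL1 hn
    have h14 : (12 / ε) * L ^ (2 * (κ + 2) + 1) * L ^ δ ≤ √(M : ℝ) := by
      calc (12 / ε) * L ^ (2 * (κ + 2) + 1) * L ^ δ ≤ (12 / ε) * L ^ (2 * (κ + 2) + 1) * L ^ n := by gcongr
        _ = (12 / ε) * L ^ (2 * (κ + 2) + 1 + n) := by rw [mul_assoc, ← pow_add]
        _ ≤ √(M : ℝ) := g3
    rw [mul_one_div, le_div_iff₀ hLδ]
    calc (12 / ε) * L ^ (2 * (κ + 2) + 1) * √(M : ℝ) * L ^ δ = ((12 / ε) * L ^ (2 * (κ + 2) + 1) * L ^ δ) * √(M : ℝ) := by ring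
      _ ≤ √(M : ℝ) * √(M : ℝ) := mul_le_mul_of_nonneg_right h14 (Real.sqrt_nonneg _)
      _ = M := Real.mul_self_sqrt hM0.le
  have hK1one : 1 ≤ (K1 : ℝ) := by linarith
  have hK2one : 1 ≤ (K2 : ℝ) := by linarith
  have q1 := hgood K1 (by linarith) k1up
  have q2 := hgood K2 (by linarith) k2up
  have q3 := hnp K1 hK1one k1up
  have q4 := hnp K2 hK2one k2up
  set A1 := (Ioc M (2 * M)).filter (fun m : ℕ => m.Coprime c ∧
    ¬ |∑ k ∈ Icc 1 K1, ArithmeticFunction.vonMangoldt (c + k * m) - K1 * ((m : ℝ) / Nat.totient m)| ≤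
      5 * ε * (K1 * ((m : ℝ) / Nat.totient m))) with hA1
  set A2 := (Ioc M (2 * M)).filter (fun m : ℕ => m.Coprime c ∧
    ¬ |∑ k ∈ Icc 1 K2, ArithmeticFunction.vonMangoldt (c + k * m) - K2 * ((m : ℝ) / Nat.totient m)| ≤
      5 * ε * (K2 * ((m : ℝ) / Nat.totient m))) with hA2
  set A3 := (Ioc M (2 * M)).filter (fun m => ε * K1 < npw K1 m c) with hA3
  set A4 := (Ioc M (2 * M)).filter (fun m => ε * K2 < npw K2 m c) with hA4
  have hsub : (Ioc M (2 * M)).filter (fun m : ℕ => m.Coprime c ∧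
      ¬ |(primesAP (lam * m * Real.log m) m c : ℝ) - lam * m / Nat.totient m| ≤
      9 * ε * (lam * m / Nat.totient m)) ⊆ (A1 ∪ A2) ∪ (A3 ∪ A4) := by
    intro m hm
    rw [mem_filter] at hm
    obtain ⟨hm1, hm2, hm3⟩ := hm
    rw [mem_union, mem_union, mem_union]
    by_contra hcon
    push Not at hcon
    obtain ⟨⟨c1, c2⟩, c3, c4⟩ := hcon
    apply hm3
    rw [hA1, mem_filter, not_and, not_and, not_not] at c1
    rw [hA2, mem_filter, not_and, not_and, not_not] at c2
    rw [hA3, mem_filter, not_and, not_lt] at c3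
    rw [hA4, mem_filter, not_and, not_lt] at c4
    have d1 := c1 hm1 hm2
    have d2 := c2 hm1 hm2
    have d3 := c3 hm1
    have d4 := c4 hm1
    have hmM := mem_Ioc.1 hm1
    have hmpos : (0 : ℝ) < m := by exact_mod_cast (by omega : 0 < m)
    have htot : (0 : ℝ) < Nat.totient m := by exact_mod_cast Nat.totient_pos.2 (by omega)
    set t : ℝ := (m : ℝ) / Nat.totient m with ht
    have ht1 : 1 ≤ t := by
      rw [ht, one_le_div htot]
      exact_mod_cast Nat.totient_le m
    have hlm : L ≤ Real.log m := Real.log_le_log hM0 (by exact_mod_cast hmM.1.le)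
    have hlm2 : Real.log m ≤ L + Real.log 2 := by
      rw [← hl2M]
      exact Real.log_le_log hmpos (by exact_mod_cast hmM.2)
    have r1 : cnt K1 m c ≤ primesAP (lam * m * Real.log m) m c := by
      apply cnt_le_primes K1 m c _ (by omega)
      push_cast
      have e1 : (c : ℝ) ≤ m := by exact_mod_cast (by omega : c ≤ m)
      calc (c : ℝ) + K1 * m ≤ m + (lam * L - 1) * m := by
            apply add_le_add e1
            exact mul_le_mul_of_nonneg_right k1b hmpos.le
        _ = lam * m * L := by ring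
        _ ≤ lam * m * Real.log m := mul_le_mul_of_nonneg_left hlm (by positivity)
    have r2 : primesAP (lam * m * Real.log m) m c ≤ cnt K2 m c + 1 := by
      apply primes_le_cnt K2 m c _ (by omega)
      push_cast
      calc lam * m * Real.log m ≤ lam * m * (L + Real.log 2) := mul_le_mul_of_nonneg_left hlm2 (by positivity)
        _ = (lam * (L + Real.log 2)) * m := by ring
        _ < (K2 + 1) * m := mul_lt_mul_of_pos_right k2b hmpos
    have b1 := (cnt_bounds K1 M m c ε L (K1 * t) hε hmM.1 hmM.2 hL (hlogup K1 k1up).1 (le_mul_of_one_le_right (by linarith) ht1) d1 d3).2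
    have b2 := (cnt_bounds K2 M m c ε L (K2 * t) hε hmM.1 hmM.2 hL (hlogup K2 k2up).1 (le_mul_of_one_le_right (by linarith) ht1) d2 d4).1
    have r1' : (cnt K1 m c : ℝ) ≤ primesAP (lam * m * Real.log m) m c := by exact_mod_cast r1
    have r2' : (primesAP (lam * m * Real.log m) m c : ℝ) ≤ cnt K2 m c + 1 := by exact_mod_cast r2
    have eu : lam * m / Nat.totient m = lam * t := by rw [ht]; ring
    rw [eu]
    set u := lam * t with hu
    have hu0 : 0 < u := by positivity
    -- lower bound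
    have lo : (1 - 9 * ε) * u ≤ cnt K1 m c := by
      have e1 : (1 - ε) * (lam * L) ≤ K1 := by
        have h6 : ε * L ≤ ε * (lam * L) := mul_le_mul_of_nonneg_left hlLL hε.le
        have h7 : (1 - ε) * (lam * L) = lam * L - ε * (lam * L) := by ring
        linarith
      have e2 : (1 - 6 * ε) * ((1 - ε) * (lam * L) * t) ≤ (cnt K1 m c : ℝ) * ((1 + ε) * L) := by
        refine le_trans ?_ b1
        apply mul_le_mul_of_nonneg_left _ (by linarith)
        exact mul_le_mul_of_nonneg_right e1 (by linarith)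
      have e3 : (1 - 9 * ε) * u * ((1 + ε) * L) ≤ (1 - 6 * ε) * ((1 - ε) * (lam * L) * t) := by
        have e4 : (1 - 6 * ε) * ((1 - ε) * (lam * L) * t) = (1 - 6 * ε) * (1 - ε) * (u * L) := by rw [hu]; ring
        have e5 : (1 - 9 * ε) * u * ((1 + ε) * L) = (1 - 9 * ε) * (1 + ε) * (u * L) := by ring
        rw [e4, e5]
        apply mul_le_mul_of_nonneg_right _ (by positivity)
        have h6 : 0 ≤ ε * (1 + 15 * ε) := by positivity
        have h7 : (1 - 6 * ε) * (1 - ε) - (1 - 9 * ε) * (1 + ε) = ε * (1 + 15 * ε) := by ring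
        linarith
      exact le_of_mul_le_mul_right (e3.trans e2) (by positivity)
    have up : (cnt K2 m c : ℝ) ≤ (1 + 6 * ε) * (1 + ε) * u := by
      have e1 : (K2 : ℝ) ≤ (1 + ε) * (lam * L) := by
        refine k2a.trans ?_
        have h6 : Real.log 2 ≤ ε * L := by linarith
        have h7 : lam * Real.log 2 ≤ lam * (ε * L) := mul_le_mul_of_nonneg_left h6 hlam0.le
        have h8 : (1 + ε) * (lam * L) = lam * L + lam * (ε * L) := by ring
        have h9 : lam * (L + Real.log 2) = lam * L + lam * Real.log 2 := by ring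
        linarith
      have e2 : (cnt K2 m c : ℝ) * L ≤ (1 + 6 * ε) * ((1 + ε) * (lam * L) * t) := by
        refine b2.trans ?_
        apply mul_le_mul_of_nonneg_left _ (by linarith)
        exact mul_le_mul_of_nonneg_right e1 (by linarith)
      have e3 : (1 + 6 * ε) * ((1 + ε) * (lam * L) * t) = (1 + 6 * ε) * (1 + ε) * u * L := by rw [hu]; ring
      rw [e3] at e2
      exact le_of_mul_le_mul_right e2 hL0
    have hone : 1 ≤ ε * u := by
      rw [div_le_iff₀ hε] at hlg
      have h6 : lam * 1 ≤ u := mul_le_mul_of_nonneg_left ht1 hlam0.le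
      have h7 : ε * (lam * 1) ≤ ε * u := mul_le_mul_of_nonneg_left h6 hε.le
      linarith
    have hfin : (1 + 6 * ε) * (1 + ε) * u + ε * u ≤ (1 + 9 * ε) * u := by
      have h6 : 0 ≤ ε * (1 / 10 - ε) := mul_nonneg hε.le (by linarith)
      have h7 : 0 ≤ (ε - 6 * ε ^ 2) * u := by
        apply mul_nonneg _ hu0.le
        have : ε - 6 * ε ^ 2 = 6 * (ε * (1 / 10 - ε)) + 4 / 10 * ε := by ring
        rw [this]; positivity
      have h8 : (1 + 9 * ε) * u - ((1 + 6 * ε) * (1 + ε) * u + ε * u) = (ε - 6 * ε ^ 2) * u := by ring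
      linarith
    rw [abs_le]
    constructor <;> linarith
  have hcard : (((Ioc M (2 * M)).filter (fun m : ℕ => m.Coprime c ∧
      ¬ |(primesAP (lam * m * Real.log m) m c : ℝ) - lam * m / Nat.totient m| ≤
      9 * ε * (lam * m / Nat.totient m))).card : ℝ) ≤ ((A1.card : ℝ) + A2.card) + ((A3.card : ℝ) + A4.card) := by
    have e1 := (card_le_card hsub).trans (card_union_le _ _)
    have e2 := card_union_le A1 A2
    have e3 := card_union_le A3 A4
    exact_mod_cast e1.trans (add_le_add e2 e3)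
  refine hcard.trans ?_
  have s1 : L / (K1 : ℝ) ≤ 2 * (1 / lam) := by
    rw [mul_one_div, div_le_div_iff₀ (by linarith) hlam0]
    linarith
  have s2 : L / (K2 : ℝ) ≤ 2 * (1 / lam) := by
    rw [mul_one_div, div_le_div_iff₀ (by linarith) hlam0]
    linarith
  have hC1M : 0 ≤ C1 * (M : ℝ) := by positivity
  have s3 : (A1.card : ℝ) ≤ C1 * M * (2 * (1 / lam) + 1 / L ^ δ) :=
    q1.trans (mul_le_mul_of_nonneg_left (by linarith) hC1M)
  have s4 : (A2.card : ℝ) ≤ C1 * M * (2 * (1 / lam) + 1 / L ^ δ) :=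
    q2.trans (mul_le_mul_of_nonneg_left (by linarith) hC1M)
  have p1 : 0 ≤ (M : ℝ) * (1 / lam) := by positivity
  have p2 : 0 ≤ (M : ℝ) * (1 / L ^ δ) := by positivity
  have p3 : 0 ≤ 1 / ε * ((M : ℝ) * (1 / lam)) := by positivity
  have p4 : 0 ≤ 1 / ε * ((M : ℝ) * (1 / L ^ δ)) := by positivity
  have p5 : 0 ≤ C1 * ((M : ℝ) * (1 / L ^ δ)) := by positivity
  rw [hCc]
  calc _ ≤ (C1 * M * (2 * (1 / lam) + 1 / L ^ δ) + C1 * M * (2 * (1 / lam) + 1 / L ^ δ)) +
        (M * (1 / L ^ δ) + M * (1 / L ^ δ)) := by linarith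
    _ = 4 * C1 * (M * (1 / lam)) + 2 * C1 * (M * (1 / L ^ δ)) + 2 * (M * (1 / L ^ δ)) := by ring
    _ ≤ 4 * C1 * (M * (1 / lam)) + 4 * C1 * (M * (1 / L ^ δ)) + 2 * (M * (1 / L ^ δ)) + 2 * (M * (1 / lam)) +
        (1 / ε * (M * (1 / lam)) + 1 / ε * (M * (1 / L ^ δ))) := by linarith
    _ = _ := by ring

end Pool.Agent.W109.LT
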