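import Mathlib
import Pool.Agent.W109.LT.Defs

/-!
STEP T: few members of a family of nearly minimal energy have many prime factors of medium size.
-/

set_option autoImplicit false

namespace Pool.Agent.W109.LT

open Finset Pool.Agent.H560R3.GB

namespace StepT

/-- the weight of the ordered `j`-tuples of distinct elements of `A`, the weight of `p` being
`1 / p` -/
noncomputable def F : ℕ → Finset ℕ → ℝ
  | 0, _ => 1
  | j + 1, A => ∑ p ∈ A, 1 / (p : ℝ) * F j (A.erase p)

lemma F_nonneg (j : ℕ) : ∀ A : Finset ℕ, 0 ≤ F j A := by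
  induction j with
  | zero => intro A; simp [F]
  | succ j ih =>
    intro A
    simp only [F]
    exact sum_nonneg fun p _ => mul_nonneg (by positivity) (ih _)

lemma F_ge (j : ℕ) : ∀ (A : Finset ℕ) (τ m : ℝ), 0 ≤ τ → 0 ≤ m → (∀ p ∈ A, 1 / (p : ℝ) ≤ m) →
    τ + j * m ≤ ∑ p ∈ A, 1 / (p : ℝ) → τ ^ j ≤ F j A := by
  induction j with
  | zero => intro A τ m _ _ _ _; simp [F]
  | succ j ih =>
    intro A τ m hτ hm hA hs
    simp only [F]
    have h1 : ∀ p ∈ A, 1 / (p : ℝ) * τ ^ j ≤ 1 / (p : ℝ) * F j (A.erase p) := by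
      intro p hp
      refine mul_le_mul_of_nonneg_left ?_ (by positivity)
      refine ih (A.erase p) τ m hτ hm (fun p' hp' => hA p' (mem_of_mem_erase hp')) ?_
      have h2 := sum_erase_add A (fun p : ℕ => 1 / (p : ℝ)) hp
      have h3 := hA p hp
      push_cast at hs
      linarith
    have h4 := sum_le_sum h1
    rw [← sum_mul] at h4
    refine le_trans ?_ h4
    rw [pow_succ, mul_comm]
    refine mul_le_mul_of_nonneg_right ?_ (by positivity)
    have : 0 ≤ ((j + 1 : ℕ) : ℝ) * m := by positivity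
    linarith

open Classical in
lemma F_sum (s : ℕ → ℕ) (I : Finset ℕ) (X e η W : ℝ) (hX : 0 ≤ X) (hη : 0 ≤ η) (hW : 0 ≤ W)
    (hx : ∀ q : ℕ, 1 ≤ q → ((I.filter (fun i => q ∣ s i)).card : ℝ) ≤ X * (q : ℝ) ^ (-e)) (j : ℕ) :
    ∀ (A : Finset ℕ) (q : ℕ), 1 ≤ q → (∀ p ∈ A, p.Prime) → (∀ p ∈ A, Nat.Coprime q p) →
    (∀ p ∈ A, (p : ℝ) ^ (-e) ≤ η) → ∑ p ∈ A, 1 / (p : ℝ) ≤ W →
    ∑ i ∈ I.filter (fun i => q ∣ s i), F j (A.filter (fun p => p ∣ s i)) ≤
      X * (q : ℝ) ^ (-e) * (η * W) ^ j := by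
  induction j with
  | zero =>
    intro A q hq _ _ _ _
    simp only [F, sum_const, nsmul_eq_mul, mul_one, pow_zero]
    exact hx q hq
  | succ j ih =>
    intro A q hq hpr hco hη' hs
    have h1 : ∑ i ∈ I.filter (fun i => q ∣ s i), F (j + 1) (A.filter (fun p => p ∣ s i)) =
        ∑ p ∈ A, 1 / (p : ℝ) * ∑ i ∈ I.filter (fun i => q * p ∣ s i),
          F j ((A.erase p).filter (fun p => p ∣ s i)) := by
      simp only [F]
      simp_rw [mul_sum]
      rw [sum_congr rfl (fun i _ => sum_filter (s := A) (p := fun p => p ∣ s i)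
        (f := fun p => 1 / (p : ℝ) * F j ((A.filter (fun p => p ∣ s i)).erase p)))]
      rw [sum_comm]
      refine sum_congr rfl fun p hp => ?_
      rw [← sum_filter, filter_filter]
      refine sum_congr ?_ ?_
      · ext i
        simp only [mem_filter]
        refine and_congr_right fun _ => ⟨fun h => ?_, fun h => ?_⟩
        · exact (hco p hp).mul_dvd_of_dvd_of_dvd h.1 h.2
        · exact ⟨(dvd_mul_right q p).trans h, (dvd_mul_left p q).trans h⟩
      · intro i hi
        congr 2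
        ext p'
        simp only [mem_erase, mem_filter]
        tauto
    rw [h1]
    have h2 : ∀ p ∈ A, 1 / (p : ℝ) * ∑ i ∈ I.filter (fun i => q * p ∣ s i),
          F j ((A.erase p).filter (fun p => p ∣ s i)) ≤
          1 / (p : ℝ) * (X * (q : ℝ) ^ (-e) * η * (η * W) ^ j) := by
      intro p hp
      refine mul_le_mul_of_nonneg_left ?_ (by positivity)
      have h3 := ih (A.erase p) (q * p) (Nat.mul_pos hq (hpr p hp).pos)
        (fun p' hp' => hpr p' (mem_of_mem_erase hp')) ?_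
        (fun p' hp' => hη' p' (mem_of_mem_erase hp')) ?_
      · refine h3.trans ?_
        refine mul_le_mul_of_nonneg_right ?_ (by positivity)
        rw [Nat.cast_mul, Real.mul_rpow (by positivity) (by positivity), ← mul_assoc]
        exact mul_le_mul_of_nonneg_left (hη' p hp) (by positivity)
      · intro p' hp'
        refine Nat.Coprime.mul_left (hco p' (mem_of_mem_erase hp')) ?_
        rw [Nat.coprime_primes (hpr p hp) (hpr p' (mem_of_mem_erase hp'))]
        exact (ne_of_mem_erase hp').symm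
      · refine le_trans ?_ hs
        exact sum_le_sum_of_subset_of_nonneg (erase_subset _ _) (fun _ _ _ => by positivity)
    refine (sum_le_sum h2).trans ?_
    rw [← sum_mul]
    calc (∑ p ∈ A, 1 / (p : ℝ)) * (X * (q : ℝ) ^ (-e) * η * (η * W) ^ j)
        ≤ W * (X * (q : ℝ) ^ (-e) * η * (η * W) ^ j) :=
          mul_le_mul_of_nonneg_right hs (by positivity)
      _ = X * (q : ℝ) ^ (-e) * (η * W) ^ (j + 1) := by ring

set_option maxHeartbeats 4000000 in
open Classical in
/-- Cauchy-Schwarz for the multiples of `q` -/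
lemma card_dvd_pow_le (h x M q : ℕ) (s : ℕ → ℕ) (hs : ∀ i ∈ Icc 1 x, 1 ≤ s i ∧ s i ≤ M)
    (hq : 1 ≤ q) (hqM : q ≤ M) :
    (((Icc 1 x).filter (fun i => q ∣ s i)).card : ℝ) ^ (2 * h) ≤
      ((h : ℝ) + 1) * M / q * energy h x s := by
  set I := (Icc 1 x).filter (fun i => q ∣ s i) with hI
  set T : Finset (Fin h → ℕ) := Fintype.piFinset (fun _ : Fin h => I) with hT
  set g : (Fin h → ℕ) → ℕ := fun v => ∑ i, s (v i) with hg
  set B : Finset ℕ := (range (h * M / q + 1)).image (fun t => q * t) with hB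
  have hTc : T.card = I.card ^ h := by
    rw [hT, Fintype.card_piFinset]
    simp
  have hmap : ∀ v ∈ T, g v ∈ B := by
    intro v hv
    rw [hT, Fintype.mem_piFinset] at hv
    have h1 : q ∣ g v := by
      refine dvd_sum fun i _ => ?_
      have := hv i
      rw [hI, mem_filter] at this
      exact this.2
    have h2 : g v ≤ h * M := by
      have : g v ≤ ∑ _i : Fin h, M := sum_le_sum fun i _ => by
        have := hv i
        rw [hI, mem_filter] at this
        exact (hs _ this.1).2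
      simpa using this
    obtain ⟨t, ht⟩ := h1
    rw [hB, mem_image]
    refine ⟨t, ?_, ht.symm⟩
    rw [mem_range, Nat.lt_succ_iff, Nat.le_div_iff_mul_le hq]
    rw [ht] at h2
    linarith [mul_comm q t]
  have h1 : (T.card : ℝ) = ∑ b ∈ B, ((T.filter (fun v => g v = b)).card : ℝ) := by
    rw [card_eq_sum_card_fiberwise hmap]
    push_cast
    rfl
  have h2 : (T.card : ℝ) ^ 2 ≤ B.card * ∑ b ∈ B, ((T.filter (fun v => g v = b)).card : ℝ) ^ 2 := by
    rw [h1]
    exact sq_sum_le_card_mul_sum_sq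
  have h3 : ∑ b ∈ B, ((T.filter (fun v => g v = b)).card : ℝ) ^ 2 ≤ energy h x s := by
    have h4 : ∑ b ∈ B, ((T.filter (fun v => g v = b)).card) ^ 2 ≤ energy h x s := by
      have h5 : ((T ×ˢ T).filter (fun z => g z.1 = g z.2)).card ≤ energy h x s := by
        unfold energy
        refine card_le_card ?_
        intro z hz
        rw [mem_filter, mem_product] at hz ⊢
        obtain ⟨⟨hz1, hz2⟩, hz3⟩ := hz
        rw [hT, Fintype.mem_piFinset] at hz1 hz2
        refine ⟨⟨?_, ?_⟩, hz3⟩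
        · rw [Fintype.mem_piFinset]
          intro i
          exact (mem_filter.1 (hz1 i)).1
        · rw [Fintype.mem_piFinset]
          intro i
          exact (mem_filter.1 (hz2 i)).1
      refine le_trans (le_of_eq ?_) h5
      have h6 : ∀ z ∈ (T ×ˢ T).filter (fun z => g z.1 = g z.2), g z.1 ∈ B := by
        intro z hz
        rw [mem_filter, mem_product] at hz
        exact hmap _ hz.1.1
      rw [card_eq_sum_card_fiberwise h6]
      refine sum_congr rfl fun b _ => ?_
      rw [sq, ← card_product]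
      congr 1
      ext z
      simp only [mem_product, mem_filter]
      constructor
      · rintro ⟨⟨a1, a2⟩, a3, a4⟩
        exact ⟨⟨⟨a1, a3⟩, a2.trans a4.symm⟩, a2⟩
      · rintro ⟨⟨⟨a1, a2⟩, a3⟩, a4⟩
        exact ⟨⟨a1, a4⟩, a2, a3 ▸ a4⟩
    exact_mod_cast h4
  have h4 : (B.card : ℝ) ≤ ((h : ℝ) + 1) * M / q := by
    have h5 : B.card ≤ h * M / q + 1 := by
      have := card_image_le (s := range (h * M / q + 1)) (f := fun t => q * t)
      rwa [card_range] at this
    have h6 : (B.card : ℝ) ≤ ((h * M / q : ℕ) : ℝ) + 1 := by exact_mod_cast h5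
    have h7 : ((h * M / q : ℕ) : ℝ) ≤ (h : ℝ) * M / q := by
      have := Nat.cast_div_le (m := h * M) (n := q) (α := ℝ)
      push_cast at this
      exact this
    have h8 : (1 : ℝ) ≤ M / q := by
      rw [le_div_iff₀ (by exact_mod_cast hq), one_mul]
      exact_mod_cast hqM
    calc (B.card : ℝ) ≤ (h : ℝ) * M / q + M / q := by linarith
      _ = ((h : ℝ) + 1) * M / q := by ring
  have h5 : ((I.card : ℝ)) ^ (2 * h) = (T.card : ℝ) ^ 2 := by
    rw [hTc]; push_cast; rw [← pow_mul, mul_comm]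
  rw [h5]
  refine h2.trans ?_
  have h6 : (0 : ℝ) ≤ ((h : ℝ) + 1) * M / q := by positivity
  exact mul_le_mul h4 h3 (sum_nonneg fun _ _ => sq_nonneg _) h6

lemma ev_log_pow (f : ℝ → ℝ) (h : ∀ᶠ L in Filter.atTop, 0 ≤ f L) :
    ∀ᶠ M : ℕ in Filter.atTop, 0 ≤ f (Real.log M) :=
  (Real.tendsto_log_atTop.comp tendsto_natCast_atTop_atTop).eventually h

lemma ev_little (a : ℝ) (k : ℕ) (ε : ℝ) (hε : 0 < ε) :
    ∀ᶠ L : ℝ in Filter.atTop, a * Real.log L ^ k ≤ L ^ ε := by
  have h1 := (isLittleO_log_rpow_rpow_atTop (s := ε) (k : ℝ) hε).bound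
    (c := 1 / (|a| + 1)) (by positivity)
  filter_upwards [h1, Filter.eventually_ge_atTop (1 : ℝ)] with L h2 h3
  have h4 : 0 ≤ Real.log L := Real.log_nonneg h3
  rw [Real.rpow_natCast, Real.norm_of_nonneg (by positivity), Real.norm_of_nonneg (by positivity)]
    at h2
  have h5 : (|a| + 1) * Real.log L ^ k ≤ L ^ ε := by
    have := mul_le_mul_of_nonneg_left h2 (a := |a| + 1) (by positivity)
    refine this.trans (le_of_eq ?_)
    field_simp
  refine le_trans ?_ h5
  refine mul_le_mul_of_nonneg_right ?_ (by positivity)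
  linarith [le_abs_self a]

end StepT

open StepT

set_option maxHeartbeats 4000000 in
open Classical in
theorem sT : S_T := by
  intro h C U κ r
  rcases Nat.eq_zero_or_pos h with h0 | hh
  · subst h0
    have h1 : ∀ᶠ M : ℕ in Filter.atTop, 1 * Real.log M ^ C ≤ (M : ℝ) ^ ((1 : ℝ) / 2) :=
      tendsto_natCast_atTop_atTop.eventually (ev_little 1 C (1 / 2) (by norm_num))
    obtain ⟨M0, hM0⟩ := Filter.eventually_atTop.1 h1
    refine ⟨max M0 2, fun M hM x s _ hE => ?_⟩
    exfalso
    have h2 := hM0 M (le_trans (le_max_left _ _) hM)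
    have h3 : (2 : ℝ) ≤ M := by exact_mod_cast le_trans (le_max_right _ _) hM
    have h4 : energy 0 x s = 1 := by
      unfold energy
      simp
    rw [h4] at hE
    have h5 : (M : ℝ) ^ ((1 : ℝ) / 2) < M := by
      conv_rhs => rw [← Real.rpow_one (M : ℝ)]
      exact Real.rpow_lt_rpow_of_exponent_lt (by linarith) (by norm_num)
    simp at hE
    linarith
  rcases Nat.eq_zero_or_pos r with r0 | hr
  · subst r0
    have h1 : ∀ᶠ M : ℕ in Filter.atTop, 1 ≤ Real.log M :=
      (Real.tendsto_log_atTop.comp tendsto_natCast_atTop_atTop).eventually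
        (Filter.eventually_ge_atTop 1)
    obtain ⟨M0, hM0⟩ := Filter.eventually_atTop.1 h1
    refine ⟨M0, fun M hM x s _ hE => ?_⟩
    have h2 := hM0 M hM
    have h3 : 0 ≤ Real.log (Real.log M) := Real.log_nonneg h2
    have h4 : (Icc 1 x).filter (fun i : ℕ => 1 / Real.log (Real.log M) ^ 3 < TT M 0 κ (s i)) = ∅ := by
      rw [filter_eq_empty_iff]
      intro i _ hi
      have h5 : TT M 0 κ (s i) = 0 := by
        unfold TT
        rw [filter_false_of_mem, sum_empty]
        rintro p _ ⟨h6, _⟩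
        rw [pow_zero] at h6
        linarith
      rw [h5] at hi
      have : 0 ≤ 1 / Real.log (Real.log M) ^ 3 := by positivity
      linarith
    rw [h4]
    simp only [card_empty, Nat.cast_zero]
    have : 0 ≤ Real.log M := by linarith
    positivity
  -- the main case
  have hhR : (1 : ℝ) ≤ h := by exact_mod_cast hh
  have hrR : (1 : ℝ) ≤ r := by exact_mod_cast hr
  set j : ℕ := 4 * h * r * (C + U + 1) with hj
  set δ : ℝ := 1 / (4 * h * r) with hδ
  have hδ0 : 0 < δ := by rw [hδ]; positivity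
  have e1 : ∀ᶠ L : ℝ in Filter.atTop, (2 * (1 + κ)) * Real.log L ^ 4 ≤ L ^ δ :=
    ev_little _ 4 δ hδ0
  have e2 : ∀ᶠ L : ℝ in Filter.atTop, (2 * (j : ℝ)) * Real.log L ^ 3 ≤ L ^ (1 / (r : ℝ)) :=
    ev_little _ 3 _ (by positivity)
  have e3 : ∀ᶠ L : ℝ in Filter.atTop, (h : ℝ) + 1 ≤ L ∧ Real.exp 1 ≤ L :=
    (Filter.eventually_ge_atTop _).and (Filter.eventually_ge_atTop _)
  have e4 := (Real.tendsto_log_atTop.comp tendsto_natCast_atTop_atTop).eventually
    (e1.and (e2.and e3))
  obtain ⟨M0, hM0⟩ := Filter.eventually_atTop.1 e4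
  refine ⟨max M0 1, fun M hM x s hs hE => ?_⟩
  obtain ⟨f1, f2, f3, f4⟩ := hM0 M (le_trans (le_max_left _ _) hM)
  have hM1 : 1 ≤ M := le_trans (le_max_right _ _) hM
  simp only [Function.comp_apply] at f1 f2 f3 f4
  set L : ℝ := Real.log M with hL
  have hM1' : (1 : ℝ) ≤ M := by exact_mod_cast hM1
  have hL1 : 1 ≤ L := by linarith
  have hL0 : 0 < L := by linarith
  set LL : ℝ := Real.log L with hLL
  have hLL1 : 1 ≤ LL := by
    rw [hLL, Real.le_log_iff_exp_le hL0]
    exact f4
  have hLL0 : 0 < LL := by linarith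
  set e : ℝ := 1 / (2 * (h : ℝ)) with he
  have he0 : 0 < e := by rw [he]; positivity
  have he1 : e ≤ 1 := by
    rw [he, div_le_one (by positivity)]
    linarith
  set X : ℝ := x * (((h : ℝ) + 1) * L ^ C) ^ e with hX
  set η : ℝ := L ^ (-(2 * δ)) with hη
  set W : ℝ := 1 + κ * LL with hW
  have hx : ∀ q : ℕ, 1 ≤ q →
      (((Icc 1 x).filter (fun i => q ∣ s i)).card : ℝ) ≤ X * (q : ℝ) ^ (-e) := by
    intro q hq
    have hq0 : (0 : ℝ) < q := by exact_mod_cast hq
    by_cases hqM : q ≤ M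
    · have h1 := card_dvd_pow_le h x M q s hs hq hqM
      have h2 : ((h : ℝ) + 1) * M / q * energy h x s ≤
          (((h : ℝ) + 1) * L ^ C) * (q : ℝ)⁻¹ * (x : ℝ) ^ (2 * h) := by
        have h3 := mul_le_mul_of_nonneg_left hE (a := ((h : ℝ) + 1) * (q : ℝ)⁻¹) (by positivity)
        calc ((h : ℝ) + 1) * M / q * energy h x s
            = ((h : ℝ) + 1) * (q : ℝ)⁻¹ * (energy h x s * M) := by
              rw [div_eq_mul_inv]; ring
          _ ≤ _ := h3
          _ = _ := by ring
      have h3 := h1.trans h2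
      have h4 : (((Icc 1 x).filter (fun i => q ∣ s i)).card : ℝ) =
          ((((Icc 1 x).filter (fun i => q ∣ s i)).card : ℝ) ^ (2 * h)) ^ e := by
        rw [← Real.rpow_natCast, ← Real.rpow_mul (by positivity), he]
        push_cast
        rw [mul_one_div_cancel (by positivity), Real.rpow_one]
      have h5 : ((x : ℝ) ^ (2 * h)) ^ e = x := by
        rw [← Real.rpow_natCast, ← Real.rpow_mul (by positivity), he]
        push_cast
        rw [mul_one_div_cancel (by positivity), Real.rpow_one]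
      rw [h4]
      refine (Real.rpow_le_rpow (pow_nonneg (Nat.cast_nonneg _) _) h3 he0.le).trans
        (le_of_eq ?_)
      rw [Real.mul_rpow (by positivity) (by positivity), h5,
        Real.mul_rpow (by positivity) (by positivity), Real.inv_rpow (by positivity),
        ← Real.rpow_neg (by positivity), hX]
      ring
    · have h1 : (Icc 1 x).filter (fun i => q ∣ s i) = ∅ := by
        rw [filter_eq_empty_iff]
        intro i hi hd
        have h2 := hs i hi
        have h3 := Nat.le_of_dvd h2.1 hd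
        omega
      rw [h1, hX]
      simp only [card_empty, Nat.cast_zero]
      positivity
  set A : Finset ℕ := (Pool.Agent.H373R2.T7.pz (⌊L ^ κ⌋₊)).filter (fun p : ℕ => L < (p : ℝ) ^ r ∧ (p : ℝ) ≤ L ^ κ)
    with hA
  have hApr : ∀ p ∈ A, p.Prime := by
    intro p hp
    rw [hA, mem_filter] at hp
    exact (Pool.Agent.H373R2.T7.mem_pz.1 hp.1).2
  have hAl : ∀ p ∈ A, L ^ (1 / (r : ℝ)) ≤ p := by
    intro p hp
    have h1 := (mem_filter.1 hp).2.1
    have h2 : ((p : ℝ) ^ r) ^ (1 / (r : ℝ)) = p := by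
      rw [← Real.rpow_natCast, ← Real.rpow_mul (by positivity), mul_one_div_cancel (by positivity),
        Real.rpow_one]
    rw [← h2]
    exact Real.rpow_le_rpow (by positivity) h1.le (by positivity)
  have hTT : ∀ i ∈ Icc 1 x, TT M r κ (s i) = ∑ p ∈ A.filter (fun p => p ∣ s i), 1 / (p : ℝ) := by
    intro i hi
    unfold TT
    refine sum_congr ?_ fun _ _ => rfl
    ext p
    rw [mem_filter, mem_filter, hA, mem_filter, Nat.mem_primeFactors, Pool.Agent.H373R2.T7.mem_pz]
    have h1 := hs i hi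
    constructor
    · rintro ⟨⟨g1, g2, g3⟩, g4, g5⟩
      exact ⟨⟨⟨Nat.le_floor g5, g1⟩, g4, g5⟩, g2⟩
    · rintro ⟨⟨⟨g1, g2⟩, g3, g4⟩, g5⟩
      exact ⟨⟨g2, g5, by omega⟩, g3, g4⟩
  have hAs : ∑ p ∈ A, 1 / (p : ℝ) ≤ W := by
    have h1 : ∑ p ∈ A, 1 / (p : ℝ) ≤ ∑ p ∈ Pool.Agent.H373R2.T7.pz (⌊L ^ κ⌋₊), 1 / (p : ℝ) :=
      sum_le_sum_of_subset_of_nonneg (filter_subset _ _) (fun _ _ _ => by positivity)
    have h2 := Pool.Agent.H373R2.T7.sum_pz_le (⌊L ^ κ⌋₊)
    have h3 : Real.log ((⌊L ^ κ⌋₊ : ℕ) : ℝ) ≤ κ * LL := by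
      rw [hLL, ← Real.log_pow]
      have h4 : 1 ≤ ⌊L ^ κ⌋₊ := by
        rw [Nat.one_le_floor_iff]
        exact one_le_pow₀ hL1
      refine Real.log_le_log (by exact_mod_cast h4) ?_
      exact Nat.floor_le (by positivity)
    rw [hW]
    linarith
  have hη' : ∀ p ∈ A, (p : ℝ) ^ (-e) ≤ η := by
    intro p hp
    have h1 := hAl p hp
    have h2 : η = (L ^ (1 / (r : ℝ))) ^ (-e) := by
      rw [hη, ← Real.rpow_mul (by positivity)]
      congr 1
      rw [hδ, he]
      field_simp
      norm_num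
    rw [h2]
    exact Real.rpow_le_rpow_of_nonpos (by positivity) h1 (by linarith)
  have hmain := F_sum s (Icc 1 x) X e η W (by rw [hX]; positivity) (by rw [hη]; positivity)
    (by rw [hW]; positivity) hx j A 1 le_rfl hApr (fun p _ => Nat.coprime_one_left p) hη' hAs
  have hfil : (Icc 1 x).filter (fun i => 1 ∣ s i) = Icc 1 x := by
    rw [filter_true_of_mem]
    intro i _
    exact one_dvd _
  rw [hfil, Nat.cast_one, Real.one_rpow, mul_one] at hmain
  set N := (Icc 1 x).filter (fun i : ℕ => 1 / LL ^ 3 < TT M r κ (s i)) with hN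
  have hlow : (N.card : ℝ) * (1 / LL ^ 3 / 2) ^ j ≤
      ∑ i ∈ Icc 1 x, F j (A.filter (fun p => p ∣ s i)) := by
    have h1 : ∑ i ∈ N, (1 / LL ^ 3 / 2) ^ j ≤ ∑ i ∈ N, F j (A.filter (fun p => p ∣ s i)) := by
      refine sum_le_sum fun i hi => ?_
      rw [hN, mem_filter] at hi
      rw [hTT i hi.1] at hi
      refine F_ge j _ (1 / LL ^ 3 / 2) (L ^ (-(1 / (r : ℝ)))) (by positivity) (by positivity) ?_ ?_
      · intro p hp
        have h2 := hAl p (mem_filter.1 hp).1
        rw [Real.rpow_neg (by positivity), ← one_div]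
        exact one_div_le_one_div_of_le (by positivity) h2
      · have h3 : (j : ℝ) * L ^ (-(1 / (r : ℝ))) ≤ 1 / LL ^ 3 / 2 := by
          rw [Real.rpow_neg (by positivity), ← div_eq_mul_inv, div_div,
            div_le_div_iff₀ (by positivity) (by positivity)]
          linarith
        linarith [hi.2]
    rw [sum_const, nsmul_eq_mul] at h1
    refine h1.trans ?_
    exact sum_le_sum_of_subset_of_nonneg (filter_subset _ _) (fun _ _ _ => F_nonneg _ _)
  have h5 := hlow.trans hmain
  have h6 : (N.card : ℝ) ≤ X * (2 * LL ^ 3 * (η * W)) ^ j := by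
    have h7 : (0 : ℝ) < 2 * LL ^ 3 := by positivity
    have h8 := mul_le_mul_of_nonneg_right h5 (a := (2 * LL ^ 3) ^ j) (by positivity)
    calc (N.card : ℝ) = N.card * (1 / LL ^ 3 / 2) ^ j * (2 * LL ^ 3) ^ j := by
          rw [mul_assoc, ← mul_pow]
          have : 1 / LL ^ 3 / 2 * (2 * LL ^ 3) = 1 := by field_simp
          rw [this, one_pow, mul_one]
      _ ≤ _ := h8
      _ = _ := by rw [mul_pow (2 * LL ^ 3)]; ring
  have h7 : 2 * LL ^ 3 * (η * W) ≤ L ^ (-δ) := by
    have h8 : 2 * LL ^ 3 * W ≤ L ^ δ := by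
      refine le_trans ?_ f1
      rw [hW]
      have : 1 + κ * LL ≤ (1 + κ) * LL := by nlinarith
      calc 2 * LL ^ 3 * (1 + κ * LL) ≤ 2 * LL ^ 3 * ((1 + κ) * LL) :=
            mul_le_mul_of_nonneg_left this (by positivity)
        _ = _ := by ring
    calc 2 * LL ^ 3 * (η * W) = η * (2 * LL ^ 3 * W) := by ring
      _ ≤ η * L ^ δ := mul_le_mul_of_nonneg_left h8 (by rw [hη]; positivity)
      _ = L ^ (-δ) := by
        rw [hη, ← Real.rpow_add hL0]
        congr 1
        ring
  have h8 : (2 * LL ^ 3 * (η * W)) ^ j ≤ (L ^ (C + U + 1))⁻¹ := by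
    have h9 : (2 * LL ^ 3 * (η * W)) ^ j ≤ (L ^ (-δ)) ^ j :=
      pow_le_pow_left₀ (by rw [hη, hW]; positivity) h7 j
    refine h9.trans (le_of_eq ?_)
    rw [← Real.rpow_natCast, ← Real.rpow_mul (by positivity), ← Real.rpow_natCast L (C + U + 1),
      ← Real.rpow_neg (by positivity)]
    congr 1
    rw [hδ, hj]
    push_cast
    field_simp
  have h9 : X ≤ x * (((h : ℝ) + 1) * L ^ C) := by
    rw [hX]
    refine mul_le_mul_of_nonneg_left ?_ (by positivity)
    have h10 : 1 ≤ ((h : ℝ) + 1) * L ^ C := by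
      have := one_le_pow₀ hL1 (n := C)
      nlinarith
    conv_rhs => rw [← Real.rpow_one (((h : ℝ) + 1) * L ^ C)]
    exact Real.rpow_le_rpow_of_exponent_le h10 he1
  calc (N.card : ℝ) ≤ X * (2 * LL ^ 3 * (η * W)) ^ j := h6
    _ ≤ (x * (((h : ℝ) + 1) * L ^ C)) * (L ^ (C + U + 1))⁻¹ :=
      mul_le_mul h9 h8 (by rw [hη, hW]; positivity) (by positivity)
    _ = (x / L ^ U) * (((h : ℝ) + 1) / L) := by
      rw [pow_succ, pow_add]
      field_simp
    _ ≤ (x / L ^ U) * 1 := by
      refine mul_le_mul_of_nonneg_left ?_ (by positivity)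
      rw [div_le_one hL0]
      exact f3
    _ = x / L ^ U := mul_one _

end Pool.Agent.W109.LT
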