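import Mathlib
import Pool.Agent.W109.LT.P2
import Pool.Agent.W109.LT.A
import Pool.Agent.W109.LT.D
import Pool.Agent.W109.LT.T
import Pool.Agent.W32.LT.K
import Pool.Agent.H373R2.T7.BilE

/-! The final theorem for families, and polynomial values. -/

set_option autoImplicit false

namespace Pool.Agent.W109.LT

open Finset Polynomial Pool.Agent.H373R2.T7

open Classical in
theorem families (ε : ℝ) (hε : 0 < ε) (hε1 : ε ≤ 9 / 10) :
    ∃ C δ : ℝ, 0 < C ∧ 0 < δ ∧ ∀ h A U κ : ℕ, ∃ M0 : ℕ, ∀ M : ℕ, M0 ≤ M →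
    ∀ (x : ℕ) (s : ℕ → ℕ), (∀ i ∈ Icc 1 x, 1 ≤ s i ∧ s i ≤ M) →
    (Pool.Agent.H560R3.GB.energy h x s : ℝ) * M ≤ Real.log M ^ A * (x : ℝ) ^ (2 * h) →
    (((Icc 1 x).filter (fun i : ℕ => ¬ Typical ε C δ κ M (s i))).card : ℝ) ≤ x / Real.log M ^ U := by
  obtain ⟨δ, C1, hδ, hC1, hcore⟩ := core sA sD sT Pool.Agent.W32.LT.sK (ε / 9) (by positivity) (by linarith)
  refine ⟨1 / (ε / 9) + 4 * C1 + 2, δ, by positivity, hδ, fun h A U κ => ?_⟩
  obtain ⟨M1, h1⟩ := hcore h A U (κ + 2)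
  obtain ⟨M2, h2⟩ := typ_of_good (ε / 9) δ C1 (by positivity) (by linarith) hC1 κ
  refine ⟨max M1 M2, fun M hM x s hs hen => ?_⟩
  refine le_trans ?_ (h1 M (le_trans (le_max_left _ _) hM) x s hs hen)
  have hsub : (Icc 1 x).filter (fun i : ℕ => ¬ Typical ε (1 / (ε / 9) + 4 * C1 + 2) δ κ M (s i)) ⊆
      (Icc 1 x).filter (fun i : ℕ => ¬ Good (ε / 9) δ C1 (κ + 2) M (s i)) := by
    intro i hi
    rw [mem_filter] at hi ⊢
    refine ⟨hi.1, fun hg => hi.2 ?_⟩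
    have h3 := h2 M (le_trans (le_max_right _ _) hM) (s i) (hs i hi.1).1 (hs i hi.1).2 hg
    rwa [mul_div_cancel₀ ε (by norm_num : (9 : ℝ) ≠ 0)] at h3
  exact_mod_cast card_le_card hsub

lemma energy_toNat (h x : ℕ) (f : ℕ → ℤ) (hf : ∀ n ∈ Icc 1 x, 0 ≤ f n) :
    Pool.Agent.H560R3.GB.energy h x (fun n => (f n).toNat) = Pool.Agent.H373R2.T7.energy h x f := by
  unfold Pool.Agent.H560R3.GB.energy Pool.Agent.H373R2.T7.energy
  congr 1
  apply filter_congr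
  intro q hq
  rw [mem_product, Fintype.mem_piFinset, Fintype.mem_piFinset] at hq
  have e : ∀ v : Fin h → ℕ, (∀ i, v i ∈ Icc 1 x) → ((∑ i, (f (v i)).toNat : ℕ) : ℤ) = ∑ i, f (v i) := by
    intro v hv
    rw [Nat.cast_sum]
    apply sum_congr rfl
    intro i _
    exact Int.toNat_of_nonneg (hf _ (hv i))
  rw [← e q.1 hq.1, ← e q.2 hq.2]
  exact Nat.cast_inj.symm

open Classical in
theorem polys (ε : ℝ) (C δ : ℝ) (hfam : ∀ h A U κ : ℕ, ∃ M0 : ℕ, ∀ M : ℕ, M0 ≤ M →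
    ∀ (x : ℕ) (s : ℕ → ℕ), (∀ i ∈ Icc 1 x, 1 ≤ s i ∧ s i ≤ M) →
    (Pool.Agent.H560R3.GB.energy h x s : ℝ) * M ≤ Real.log M ^ A * (x : ℝ) ^ (2 * h) →
    (((Icc 1 x).filter (fun i : ℕ => ¬ Typical ε C δ κ M (s i))).card : ℝ) ≤ x / Real.log M ^ U)
    (f : ℤ[X]) (hd : 1 ≤ f.natDegree) (hl : 0 < f.leadingCoeff) (B U κ : ℕ) :
    ∃ M0 : ℕ, ∀ M : ℕ, M0 ≤ M → ∀ x : ℕ, M ≤ B * x ^ f.natDegree →
    (∀ n ∈ Icc 1 x, 1 ≤ f.eval (n : ℤ) ∧ f.eval (n : ℤ) ≤ M) →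
    (((Icc 1 x).filter (fun n : ℕ => ¬ Typical ε C δ κ M (f.eval (n : ℤ)).toNat)).card : ℝ) ≤
      x / Real.log M ^ U := by
  obtain ⟨p, Cf, hCf, hE⟩ := energy_poly f hd hl
  obtain ⟨M1, h1⟩ := hfam p 1 U κ
  obtain ⟨M2, h2⟩ := ev_L' (B * Cf)
  refine ⟨max (max M1 M2) 1, fun M hM x hx hfx => ?_⟩
  have hM1 : M1 ≤ M := le_trans (le_trans (le_max_left _ _) (le_max_left _ _)) hM
  have hM2 : M2 ≤ M := le_trans (le_trans (le_max_right _ _) (le_max_left _ _)) hM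
  have hMp : 1 ≤ M := le_trans (le_max_right _ _) hM
  have hx1 : 1 ≤ x := by
    rcases Nat.eq_zero_or_pos x with h0 | h0
    · rw [h0, zero_pow (by omega), mul_zero] at hx
      omega
    · exact h0
  have g2 := h2 M hM2
  apply h1 M hM1 x (fun n => (f.eval (n : ℤ)).toNat)
  · intro i hi
    obtain ⟨a, b⟩ := hfx i hi
    constructor <;> omega
  · rw [energy_toNat p x (fun n => f.eval (n : ℤ)) (fun n hn => by have := (hfx n hn).1; omega)]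
    have h3 := hE x hx1
    have h4 : (M : ℝ) ≤ B * (x : ℝ) ^ f.natDegree := by exact_mod_cast hx
    calc (energy p x (fun n => f.eval (n : ℤ)) : ℝ) * M ≤ energy p x (fun n => f.eval (n : ℤ)) * (B * (x : ℝ) ^ f.natDegree) :=
          mul_le_mul_of_nonneg_left h4 (Nat.cast_nonneg _)
      _ = B * (energy p x (fun n => f.eval (n : ℤ)) * (x : ℝ) ^ f.natDegree) := by ring
      _ ≤ B * (Cf * (x : ℝ) ^ (2 * p)) := mul_le_mul_of_nonneg_left h3 (Nat.cast_nonneg _)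
      _ = (B * Cf) * (x : ℝ) ^ (2 * p) := by ring
      _ ≤ Real.log M ^ 1 * (x : ℝ) ^ (2 * p) := by
          rw [pow_one]
          exact mul_le_mul_of_nonneg_right g2 (by positivity)

end Pool.Agent.W109.LT
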